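import Mathlib

namespace Pool.Agent.Lib.MP_404fd0_co

/-- A block in a stack: position, size, number of leaves still to be placed. -/
abbrev Blk := ℤ × ℕ × ℕ

/-- The window game. The first list of blocks is on the side whose window is
`[lo, hi]`, the second one on the side whose window is `[T - hi, T - lo]`. -/
inductive Win : ℤ → ℤ → ℤ → Multiset Blk → Multiset Blk → Prop
  | done (T lo hi : ℤ) (A B : Multiset Blk) (hA : ∀ a ∈ A, a.2.2 = 0)
      (hB : ∀ b ∈ B, b.2.2 = 0) : Win T lo hi A B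
  | swap (T lo hi : ℤ) (A B : Multiset Blk) (h : Win T (T - hi) (T - lo) B A) :
      Win T lo hi A B
  | top (T lo hi s : ℤ) (b n : ℕ) (A B : Multiset Blk) (h1 : s + 1 ≤ hi)
      (h2 : lo ≤ s + b) (h : Win (T + b) lo (s + b) ((s, b, n) ::ₘ A) B) :
      Win T lo hi ((s, b, n + 1) ::ₘ A) B
  | bot (T lo hi s : ℤ) (b n : ℕ) (A B : Multiset Blk) (h1 : s + 1 ≤ hi)
      (h2 : lo ≤ s + b) (h : Win (T - b) (s + 1) hi ((s, b, n) ::ₘ A) B) :
      Win T lo hi ((s, b, n + 1) ::ₘ A) B

theorem Win.mono {T lo hi : ℤ} {A B : Multiset Blk} (h : Win T lo hi A B) :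
    ∀ {lo' hi' : ℤ}, lo' ≤ lo → hi ≤ hi' → Win T lo' hi' A B := by
  induction h with
  | done T lo hi A B hA hB => intro lo' hi' _ _; exact Win.done _ _ _ _ _ hA hB
  | swap T lo hi A B h ih =>
      intro lo' hi' h1 h2
      exact Win.swap _ _ _ _ _ (ih (by linarith) (by linarith))
  | top T lo hi s b n A B h1 h2 h ih =>
      intro lo' hi' h3 h4
      exact Win.top _ _ _ _ _ _ _ _ (by linarith) (by linarith) (ih h3 le_rfl)
  | bot T lo hi s b n A B h1 h2 h ih =>
      intro lo' hi' h3 h4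
      exact Win.bot _ _ _ _ _ _ _ _ (by linarith) (by linarith) (ih le_rfl h4)

/-- Shift of positions. -/
def sh (c : ℤ) (A : Multiset Blk) : Multiset Blk := A.map (fun a => (a.1 + c, a.2))

theorem sh_cons (c s : ℤ) (b n : ℕ) (A : Multiset Blk) :
    sh c ((s, b, n) ::ₘ A) = (s + c, b, n) ::ₘ sh c A := by
  simp [sh]

theorem Win.shift {T lo hi : ℤ} {A B : Multiset Blk} (h : Win T lo hi A B) :
    ∀ (c d : ℤ), Win (T + c + d) (lo + c) (hi + c) (sh c A) (sh d B) := by
  induction h with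
  | done T lo hi A B hA hB =>
      intro c d
      refine Win.done _ _ _ _ _ ?_ ?_
      · intro a ha
        simp only [sh, Multiset.mem_map] at ha
        obtain ⟨x, hx, rfl⟩ := ha
        exact hA x hx
      · intro a ha
        simp only [sh, Multiset.mem_map] at ha
        obtain ⟨x, hx, rfl⟩ := ha
        exact hB x hx
  | swap T lo hi A B h ih =>
      intro c d
      apply Win.swap
      have := ih d c
      have e1 : T + d + c = T + c + d := by ring
      have e2 : T - hi + d = T + c + d - (hi + c) := by ring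
      have e3 : T - lo + d = T + c + d - (lo + c) := by ring
      rw [e1, e2, e3] at this
      exact this
  | top T lo hi s b n A B h1 h2 h ih =>
      intro c d
      rw [sh_cons]
      apply Win.top _ _ _ _ _ _ _ _ (by linarith) (by linarith)
      have := ih c d
      rw [sh_cons] at this
      have e1 : T + b + c + d = T + c + d + b := by ring
      have e2 : s + b + c = s + c + b := by ring
      rw [e1, e2] at this
      exact this
  | bot T lo hi s b n A B h1 h2 h ih =>
      intro c d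
      rw [sh_cons]
      apply Win.bot _ _ _ _ _ _ _ _ (by linarith) (by linarith)
      have := ih c d
      rw [sh_cons] at this
      have e1 : T - b + c + d = T + c + d - b := by ring
      have e2 : s + 1 + c = s + c + 1 := by ring
      rw [e1, e2] at this
      exact this

theorem Win.zero {T lo hi : ℤ} {A B : Multiset Blk} (h : Win T lo hi A B) :
    ∀ (Z W : Multiset Blk), (∀ z ∈ Z, z.2.2 = 0) → (∀ w ∈ W, w.2.2 = 0) →
      Win T lo hi (A + Z) (B + W) := by
  induction h with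
  | done T lo hi A B hA hB =>
      intro Z W hZ hW
      refine Win.done _ _ _ _ _ ?_ ?_
      · intro a ha
        rcases Multiset.mem_add.1 ha with h | h
        · exact hA a h
        · exact hZ a h
      · intro a ha
        rcases Multiset.mem_add.1 ha with h | h
        · exact hB a h
        · exact hW a h
  | swap T lo hi A B h ih =>
      intro Z W hZ hW
      exact Win.swap _ _ _ _ _ (ih W Z hW hZ)
  | top T lo hi s b n A B h1 h2 h ih =>
      intro Z W hZ hW
      rw [Multiset.cons_add]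
      have := ih Z W hZ hW
      rw [Multiset.cons_add] at this
      exact Win.top _ _ _ _ _ _ _ _ h1 h2 this
  | bot T lo hi s b n A B h1 h2 h ih =>
      intro Z W hZ hW
      rw [Multiset.cons_add]
      have := ih Z W hZ hW
      rw [Multiset.cons_add] at this
      exact Win.bot _ _ _ _ _ _ _ _ h1 h2 this

theorem Win.zeroA {T lo hi s : ℤ} {b : ℕ} {A B : Multiset Blk} (h : Win T lo hi A B) :
    Win T lo hi ((s, b, 0) ::ₘ A) B := by
  have := h.zero {(s, b, 0)} 0 (by simp) (by simp)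
  rw [add_comm A, Multiset.singleton_add, add_zero] at this
  exact this

theorem Win.zeroB {T lo hi s : ℤ} {b : ℕ} {A B : Multiset Blk} (h : Win T lo hi A B) :
    Win T lo hi A ((s, b, 0) ::ₘ B) := by
  have := h.zero 0 {(s, b, 0)} (by simp) (by simp)
  rw [add_comm B, Multiset.singleton_add, add_zero] at this
  exact this

/-- `k` tops of one block. -/
theorem Win.tops {lo s : ℤ} {b n : ℕ} {A B : Multiset Blk} (hb : 1 ≤ b) :
    ∀ (k : ℕ) (T hi : ℤ), s + 1 ≤ hi → lo ≤ s + b → 1 ≤ k →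
      Win (T + k * b) lo (s + b) ((s, b, n) ::ₘ A) B →
      Win T lo hi ((s, b, n + k) ::ₘ A) B := by
  intro k
  induction k with
  | zero => intro T hi _ _ h; omega
  | succ k ih =>
      intro T hi h1 h2 _ h
      have hb' : (1 : ℤ) ≤ b := by exact_mod_cast hb
      rw [← Nat.add_assoc]
      apply Win.top _ _ _ _ _ _ _ _ h1 h2
      rcases Nat.eq_zero_or_pos k with hk | hk
      · subst hk
        simpa using h
      · apply ih (T + b) (s + b) (by linarith) h2 hk
        have : T + b + k * b = T + (k + 1 : ℕ) * b := by push_cast; ring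
        rw [this]
        exact h

/-- `k` bottoms of one block. -/
theorem Win.bots {hi s : ℤ} {b n : ℕ} {A B : Multiset Blk} (hb : 1 ≤ b) :
    ∀ (k : ℕ) (T lo : ℤ), s + 1 ≤ hi → lo ≤ s + b → 1 ≤ k →
      Win (T - k * b) (s + 1) hi ((s, b, n) ::ₘ A) B →
      Win T lo hi ((s, b, n + k) ::ₘ A) B := by
  intro k
  induction k with
  | zero => intro T lo _ _ h; omega
  | succ k ih =>
      intro T lo h1 h2 _ h
      have hb' : (1 : ℤ) ≤ b := by exact_mod_cast hb
      rw [← Nat.add_assoc]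
      apply Win.bot _ _ _ _ _ _ _ _ h1 h2
      rcases Nat.eq_zero_or_pos k with hk | hk
      · subst hk
        simpa using h
      · apply ih (T - b) (s + 1) h1 (by linarith) hk
        have : T - b - k * b = T - (k + 1 : ℕ) * b := by push_cast; ring
        rw [this]
        exact h

/-- `t` tops and `r` bottoms. -/
theorem Win.both {T lo hi s : ℤ} {b n : ℕ} {A B : Multiset Blk} (hb : 1 ≤ b) (t r : ℕ)
    (ht : 1 ≤ t) (hr : 1 ≤ r) (h1 : s + 1 ≤ hi) (h2 : lo ≤ s + b)
    (h : Win (T + t * b - r * b) (s + 1) (s + b) ((s, b, n) ::ₘ A) B) :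
    Win T lo hi ((s, b, n + (t + r)) ::ₘ A) B := by
  have hb' : (1 : ℤ) ≤ b := by exact_mod_cast hb
  have : n + (t + r) = (n + r) + t := by ring
  rw [this]
  apply Win.tops hb t T hi h1 h2 ht
  apply Win.bots hb r _ _ (by linarith) h2 hr
  exact h

/-- Net `k` with all the `m` leaves of a block, both kinds used. -/
theorem Win.net {T lo hi s : ℤ} {b n : ℕ} {A B : Multiset Blk} (hb : 1 ≤ b) (m : ℕ) (k : ℤ)
    (hpar : k % 2 = m % 2) (hk1 : k ≤ (m : ℤ) - 2) (hk2 : -((m : ℤ) - 2) ≤ k)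
    (h1 : s + 1 ≤ hi) (h2 : lo ≤ s + b)
    (h : Win (T + k * b) (s + 1) (s + b) ((s, b, n) ::ₘ A) B) :
    Win T lo hi ((s, b, n + m) ::ₘ A) B := by
  obtain ⟨t, ht⟩ : ∃ t : ℤ, (m : ℤ) + k = 2 * t := ⟨((m : ℤ) + k) / 2, by omega⟩
  obtain ⟨r, hr⟩ : ∃ r : ℤ, (m : ℤ) - k = 2 * r := ⟨((m : ℤ) - k) / 2, by omega⟩
  lift t to ℕ using (by omega)
  lift r to ℕ using (by omega)
  have hm : m = t + r := by omega
  rw [hm]
  apply Win.both hb t r (by omega) (by omega) h1 h2
  have : T + t * b - r * b = T + k * b := by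
    have : k = (t : ℤ) - r := by omega
    rw [this]; ring
  rw [this]
  exact h

/-- Net `k` with all `m` leaves, where all tops are allowed when the window starts low. -/
theorem Win.net1 {T lo hi s : ℤ} {b n : ℕ} {A B : Multiset Blk} (hb : 1 ≤ b) (m : ℕ) (k : ℤ)
    (hm : 1 ≤ m)
    (hpar : k % 2 = m % 2) (hk1 : k ≤ (m : ℤ)) (hk2 : -((m : ℤ) - 2) ≤ k)
    (h1 : s + 1 ≤ hi) (h2 : lo ≤ s + 1)
    (h : Win (T + k * b) (s + 1) (s + b) ((s, b, n) ::ₘ A) B) :
    Win T lo hi ((s, b, n + m) ::ₘ A) B := by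
  have hb' : (1 : ℤ) ≤ b := by exact_mod_cast hb
  rcases eq_or_ne k m with hkm | hkm
  · subst hkm
    apply Win.tops hb m T hi h1 (by linarith) hm
    have h' : Win (T + (m : ℤ) * b) (s + 1) (s + b) ((s, b, n) ::ₘ A) B := by exact_mod_cast h
    exact h'.mono h2 le_rfl
  · exact Win.net hb m k hpar (by omega) hk2 h1 (by linarith) h

/-- Blocks stacked from position `h` on. -/
def pos : ℤ → List (ℕ × ℕ) → Multiset Blk
  | _, [] => 0
  | h, (b, n) :: N => (h, b, n) ::ₘ pos (h + b) N

theorem pos_nil (h : ℤ) : pos h [] = 0 := rfl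

theorem pos_cons (h : ℤ) (b n : ℕ) (N : List (ℕ × ℕ)) :
    pos h ((b, n) :: N) = (h, b, n) ::ₘ pos (h + b) N := rfl

theorem sh_pos (c : ℤ) : ∀ (h : ℤ) (N : List (ℕ × ℕ)), sh c (pos h N) = pos (h + c) N := by
  intro h N
  induction N generalizing h with
  | nil => simp [pos, sh]
  | cons a N ih =>
      obtain ⟨b, n⟩ := a
      rw [pos_cons, sh_cons, ih, pos_cons]
      congr 2
      ring

/-- Total size of a stack. -/
def sz (N : List (ℕ × ℕ)) : ℤ := (N.map (fun x => (x.1 : ℤ))).sum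

theorem sz_nil : sz [] = 0 := rfl

theorem sz_cons (b n : ℕ) (N : List (ℕ × ℕ)) : sz ((b, n) :: N) = b + sz N := by
  simp [sz]

/-- Passing to the other side after finishing the head block. -/
theorem Win.pop {e lo hi : ℤ} {y : ℕ} {N M : List (ℕ × ℕ)}
    (h : Win (e - y) (e - hi) (e - lo) (pos 0 M) (pos 0 N)) :
    Win e lo hi ((0, y, 0) ::ₘ pos y N) (pos 0 M) := by
  apply Win.swap
  apply Win.zeroB
  have := h.shift 0 y
  rw [sh_pos, sh_pos] at this
  simpa using this

/-- Visit the head block completely. -/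
theorem Win.visit {e lo hi : ℤ} {y n : ℕ} {N M : List (ℕ × ℕ)} (hy : 1 ≤ y) (hn : 1 ≤ n)
    (k : ℤ) (hpar : k % 2 = n % 2) (hk1 : k ≤ (n : ℤ)) (hk2 : -((n : ℤ) - 2) ≤ k)
    (hlo : lo ≤ 1) (hhi : 1 ≤ hi)
    (h : Win (e + (k - 1) * y) (e + (k - 1) * y) (e + k * y - 1) (pos 0 M) (pos 0 N)) :
    Win e lo hi (pos 0 ((y, n) :: N)) (pos 0 M) := by
  rw [pos_cons]
  have e0 : n = 0 + n := by omega
  rw [e0]
  apply Win.net1 hy n k hn hpar hk1 hk2 (by linarith) (by linarith)
  have : (0 : ℤ) + y = y := by ring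
  rw [this]
  apply Win.pop
  have e1 : e + k * y - y = e + (k - 1) * y := by ring
  have e2 : e + k * y - (0 + 1) = e + k * y - 1 := by ring
  rw [e1, e2]
  exact h

/-- Visit the head block with both kinds of moves. -/
theorem Win.visitBoth {e lo hi : ℤ} {y n : ℕ} {N M : List (ℕ × ℕ)} (hy : 1 ≤ y)
    (k : ℤ) (hpar : k % 2 = n % 2) (hk1 : k ≤ (n : ℤ) - 2) (hk2 : -((n : ℤ) - 2) ≤ k)
    (hlo : lo ≤ y) (hhi : 1 ≤ hi)
    (h : Win (e + (k - 1) * y) (e + (k - 1) * y) (e + k * y - 1) (pos 0 M) (pos 0 N)) :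
    Win e lo hi (pos 0 ((y, n) :: N)) (pos 0 M) := by
  rw [pos_cons]
  have e0 : n = 0 + n := by omega
  rw [e0]
  apply Win.net hy n k hpar hk1 hk2 (by linarith) (by linarith)
  have : (0 : ℤ) + y = y := by ring
  rw [this]
  apply Win.pop
  have e1 : e + k * y - y = e + (k - 1) * y := by ring
  have e2 : e + k * y - (0 + 1) = e + k * y - 1 := by ring
  rw [e1, e2]
  exact h

/-- Visit the head block with tops only. -/
theorem Win.visitTop {e lo hi : ℤ} {y n : ℕ} {N M : List (ℕ × ℕ)} (hy : 1 ≤ y) (hn : 1 ≤ n)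
    (hlo : lo ≤ y) (hhi : 1 ≤ hi)
    (h : Win (e + ((n : ℤ) - 1) * y) (e + ((n : ℤ) - 1) * y) (e + n * y - lo)
      (pos 0 M) (pos 0 N)) :
    Win e lo hi (pos 0 ((y, n) :: N)) (pos 0 M) := by
  rw [pos_cons]
  have e0 : n = 0 + n := by omega
  rw [e0]
  apply Win.tops hy n _ _ (by linarith) (by linarith) hn
  have : (0 : ℤ) + y = y := by ring
  rw [this]
  apply Win.pop
  have e1 : e + n * y - y = e + ((n : ℤ) - 1) * y := by ring
  rw [e1]
  exact h

end Pool.Agent.Lib.MP_404fd0_co
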