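import Mathlib
import Pool.Agent.Lib.MP_404fd0_co.Game

namespace Pool.Agent.Lib.MP_404fd0_co

/-- Alternating sum of a list, first term positive. -/
def altL : List ℕ → ℤ
  | [] => 0
  | a :: l => a - altL l

/-- Alternating sum of the sizes in increasing order. -/
def alt (G : Multiset (ℕ × ℕ)) : ℤ := altL ((G.map Prod.fst).sort (· ≤ ·))

theorem alt_zero : alt 0 = 0 := by
  simp [alt, altL]

theorem alt_cons_min {g : ℕ × ℕ} {G : Multiset (ℕ × ℕ)} (h : ∀ x ∈ G, g.1 ≤ x.1) :
    alt (g ::ₘ G) = g.1 - alt G := by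
  unfold alt
  rw [Multiset.map_cons, Multiset.sort_cons]
  · rfl
  · intro b hb
    obtain ⟨x, hx, rfl⟩ := Multiset.mem_map.1 hb
    exact h x hx

theorem exists_min {G : Multiset (ℕ × ℕ)} (h : G ≠ 0) :
    ∃ g G', G = g ::ₘ G' ∧ ∀ x ∈ G', g.1 ≤ x.1 := by
  classical
  have hne : G.toFinset.Nonempty := by
    obtain ⟨a, ha⟩ := Multiset.exists_mem_of_ne_zero h
    exact ⟨a, Multiset.mem_toFinset.2 ha⟩
  obtain ⟨g, hg, hmin⟩ := G.toFinset.exists_min_image Prod.fst hne
  refine ⟨g, G.erase g, (Multiset.cons_erase (Multiset.mem_toFinset.1 hg)).symm, ?_⟩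
  intro x hx
  exact hmin x (Multiset.mem_toFinset.2 (Multiset.mem_of_mem_erase hx))

theorem exists_max {G : Multiset (ℕ × ℕ)} (h : G ≠ 0) :
    ∃ g G', G = g ::ₘ G' ∧ ∀ x ∈ G', x.1 ≤ g.1 := by
  classical
  have hne : G.toFinset.Nonempty := by
    obtain ⟨a, ha⟩ := Multiset.exists_mem_of_ne_zero h
    exact ⟨a, Multiset.mem_toFinset.2 ha⟩
  obtain ⟨g, hg, hmin⟩ := G.toFinset.exists_max_image Prod.fst hne
  refine ⟨g, G.erase g, (Multiset.cons_erase (Multiset.mem_toFinset.1 hg)).symm, ?_⟩
  intro x hx
  exact hmin x (Multiset.mem_toFinset.2 (Multiset.mem_of_mem_erase hx))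

/-- Induction by removing a smallest element. -/
theorem min_induction {p : Multiset (ℕ × ℕ) → Prop} (h0 : p 0)
    (h1 : ∀ g G, (∀ x ∈ G, g.1 ≤ x.1) → p G → p (g ::ₘ G)) : ∀ G, p G := by
  intro G
  induction hn : Multiset.card G generalizing G with
  | zero => rw [Multiset.card_eq_zero.1 hn]; exact h0
  | succ n ih =>
      have hne : G ≠ 0 := by
        intro h; rw [h] at hn; simp at hn
      obtain ⟨g, G', rfl, hg⟩ := exists_min hne
      exact h1 g G' hg (ih G' (by simpa using hn))

theorem alt_cons_max {g : ℕ × ℕ} {G : Multiset (ℕ × ℕ)} (h : ∀ x ∈ G, x.1 ≤ g.1) :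
    alt (g ::ₘ G) = alt G + (if Even (Multiset.card G) then (g.1 : ℤ) else -(g.1 : ℤ)) := by
  revert h
  refine min_induction (p := fun G => (∀ x ∈ G, x.1 ≤ g.1) →
    alt (g ::ₘ G) = alt G + (if Even (Multiset.card G) then (g.1 : ℤ) else -(g.1 : ℤ)))
    ?_ ?_ G
  · intro _
    rw [alt_cons_min (by simp)]
    simp [alt_zero]
  · intro m G hm ih h
    have h1 : ∀ x ∈ G, x.1 ≤ g.1 := fun x hx => h x (Multiset.mem_cons_of_mem hx)
    have h2 : m.1 ≤ g.1 := h m (Multiset.mem_cons_self _ _)
    rw [Multiset.cons_swap, alt_cons_min, ih h1, alt_cons_min hm, Multiset.card_cons]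
    · by_cases he : Even (Multiset.card G)
      · rw [if_pos he, if_neg (by rwa [Nat.even_add_one, not_not])]
        ring
      · rw [if_neg he, if_pos (by rwa [Nat.even_add_one])]
        ring
    · intro x hx
      rcases Multiset.mem_cons.1 hx with rfl | hx
      · exact h2
      · exact hm x hx

/-- Induction by removing a largest element. -/
theorem max_induction {p : Multiset (ℕ × ℕ) → Prop} (h0 : p 0)
    (h1 : ∀ g G, (∀ x ∈ G, x.1 ≤ g.1) → p G → p (g ::ₘ G)) : ∀ G, p G := by
  intro G
  induction hn : Multiset.card G generalizing G with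
  | zero => rw [Multiset.card_eq_zero.1 hn]; exact h0
  | succ n ih =>
      have hne : G ≠ 0 := by
        intro h; rw [h] at hn; simp at hn
      obtain ⟨g, G', rfl, hg⟩ := exists_max hne
      exact h1 g G' hg (ih G' (by simpa using hn))

theorem alt_bounds : ∀ (G : Multiset (ℕ × ℕ)),
    (Even (Multiset.card G) → alt G ≤ 0) ∧
    (¬ Even (Multiset.card G) → 0 ≤ alt G ∧ ∀ m : ℕ, (∀ x ∈ G, m ≤ x.1) → (m : ℤ) ≤ alt G) ∧
    (∀ M : ℕ, (∀ x ∈ G, x.1 ≤ M) → -(M : ℤ) ≤ alt G ∧ alt G ≤ M) := by
  refine max_induction ?_ ?_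
  · simp [alt_zero]
  · intro g G hg ih
    obtain ⟨i1, i2, i3⟩ := ih
    rw [alt_cons_max hg, Multiset.card_cons, Nat.even_add_one]
    have b := i3 g.1 hg
    have hM : ∀ M : ℕ, (∀ x ∈ g ::ₘ G, x.1 ≤ M) → g.1 ≤ M := fun M h =>
      h g (Multiset.mem_cons_self _ _)
    by_cases he : Even (Multiset.card G)
    · rw [if_pos he]
      refine ⟨fun h => absurd he h, fun _ => ⟨by linarith [b.1], ?_⟩, ?_⟩
      · intro m hm
        by_cases hG : G = 0
        · subst hG
          have := hm g (Multiset.mem_cons_self _ _)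
          simp only [alt_zero, zero_add]
          exact_mod_cast this
        · -- remove the largest of the rest
          obtain ⟨g', G', rfl, hg'⟩ := exists_max hG
          have hodd : ¬ Even (Multiset.card G') := by
            rw [Multiset.card_cons, Nat.even_add_one] at he
            exact he
          rw [alt_cons_max hg', if_neg hodd]
          have : g'.1 ≤ g.1 := hg g' (Multiset.mem_cons_self _ _)
          have hlow : (m : ℤ) ≤ alt G' := by
            have hrec : ∀ (n : ℕ) (K : Multiset (ℕ × ℕ)), Multiset.card K ≤ n →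
                ¬ Even (Multiset.card K) → (∀ x ∈ K, m ≤ x.1) → (m : ℤ) ≤ alt K := by
              intro n
              induction n using Nat.strong_induction_on with
              | _ n ihn =>
                intro K hK hodK hmK
                have hKne : K ≠ 0 := by
                  rintro rfl
                  simp at hodK
                obtain ⟨a, K1, rfl, ha⟩ := exists_max hKne
                have he1 : Even (Multiset.card K1) := by
                  rw [Multiset.card_cons, Nat.even_add_one, not_not] at hodK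
                  exact hodK
                by_cases hK1 : K1 = 0
                · subst hK1
                  rw [alt_cons_min (by simp), alt_zero, sub_zero]
                  exact_mod_cast hmK a (Multiset.mem_cons_self _ _)
                · obtain ⟨b', K2, rfl, hb'⟩ := exists_max hK1
                  have ho2 : ¬ Even (Multiset.card K2) := by
                    rw [Multiset.card_cons, Nat.even_add_one] at he1
                    exact he1
                  rw [alt_cons_max ha, if_pos he1, alt_cons_max hb', if_neg ho2]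
                  have h1 : b'.1 ≤ a.1 := ha b' (Multiset.mem_cons_self _ _)
                  have h2 : (m : ℤ) ≤ alt K2 := by
                    apply ihn (Multiset.card K2) _ K2 le_rfl ho2
                    · intro x hx
                      exact hmK x (Multiset.mem_cons_of_mem (Multiset.mem_cons_of_mem hx))
                    · simp only [Multiset.card_cons] at hK
                      omega
                  have h1' : (b'.1 : ℤ) ≤ a.1 := by exact_mod_cast h1
                  linarith
            apply hrec _ G' le_rfl hodd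
            intro x hx
            exact hm x (Multiset.mem_cons_of_mem (Multiset.mem_cons_of_mem hx))
          have h1' : (g'.1 : ℤ) ≤ g.1 := by exact_mod_cast this
          linarith
      · intro M hM'
        have h1 := hM M hM'
        have h2 := i1 he
        have h1' : (g.1 : ℤ) ≤ M := by exact_mod_cast h1
        have h3 : (0 : ℤ) ≤ g.1 := by positivity
        constructor
        · linarith [b.1]
        · linarith
    · rw [if_neg he]
      obtain ⟨j1, j2⟩ := i2 he
      refine ⟨fun _ => by linarith [b.2], fun h => absurd he h, ?_⟩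
      intro M hM'
      have h1 := hM M hM'
      have h1' : (g.1 : ℤ) ≤ M := by exact_mod_cast h1
      constructor
      · linarith
      · have h3 : (0 : ℤ) ≤ g.1 := by positivity
        linarith [b.2]

theorem alt_even_nonpos {G : Multiset (ℕ × ℕ)} (h : Even (Multiset.card G)) : alt G ≤ 0 :=
  (alt_bounds G).1 h

theorem alt_odd_ge {G : Multiset (ℕ × ℕ)} (h : ¬ Even (Multiset.card G)) {m : ℕ}
    (hm : ∀ x ∈ G, m ≤ x.1) : (m : ℤ) ≤ alt G :=
  ((alt_bounds G).2.1 h).2 m hm

theorem alt_le {G : Multiset (ℕ × ℕ)} {M : ℕ} (hM : ∀ x ∈ G, x.1 ≤ M) : alt G ≤ M :=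
  ((alt_bounds G).2.2 M hM).2

theorem neg_le_alt {G : Multiset (ℕ × ℕ)} {M : ℕ} (hM : ∀ x ∈ G, x.1 ≤ M) :
    -(M : ℤ) ≤ alt G :=
  ((alt_bounds G).2.2 M hM).1

/-- An even family with alternating sum `0` starts with two blocks of equal size. -/
theorem paired_cons {G : Multiset (ℕ × ℕ)} (hne : G ≠ 0) (he : Even (Multiset.card G))
    (h0 : alt G = 0) :
    ∃ a b G', G = a ::ₘ b ::ₘ G' ∧ a.1 = b.1 ∧ (∀ x ∈ G', a.1 ≤ x.1) ∧
      Even (Multiset.card G') ∧ alt G' = 0 := by
  obtain ⟨a, G1, rfl, ha⟩ := exists_min hne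
  have ho : ¬ Even (Multiset.card G1) := by
    rwa [Multiset.card_cons, Nat.even_add_one] at he
  have hne1 : G1 ≠ 0 := by
    rintro rfl
    simp at ho
  obtain ⟨b, G2, rfl, hb⟩ := exists_min hne1
  have he2 : Even (Multiset.card G2) := by
    rwa [Multiset.card_cons, Nat.even_add_one, not_not] at ho
  have hab : a.1 ≤ b.1 := ha b (Multiset.mem_cons_self _ _)
  have hab' : (a.1 : ℤ) ≤ b.1 := by exact_mod_cast hab
  rw [alt_cons_min ha, alt_cons_min hb] at h0
  have h2 := alt_even_nonpos he2
  refine ⟨a, b, G2, rfl, ?_, ?_, he2, by linarith⟩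
  · have : (a.1 : ℤ) = b.1 := by linarith
    exact_mod_cast this
  · intro x hx
    exact hab.trans (hb x hx)

end Pool.Agent.Lib.MP_404fd0_co
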