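import Mathlib
import Pool.Agent.Lib.MP_404fd0_co.Alt

namespace Pool.Agent.Lib.MP_404fd0_co

/-- Net `k` with all `m` leaves, where all bottoms are allowed when the window ends high. -/
theorem Win.net2 {T lo hi s : ℤ} {b n : ℕ} {A B : Multiset Blk} (hb : 1 ≤ b) (m : ℕ) (k : ℤ)
    (hm : 1 ≤ m)
    (hpar : k % 2 = m % 2) (hk1 : k ≤ (m : ℤ) - 2) (hk2 : -(m : ℤ) ≤ k)
    (h1 : s + b ≤ hi) (h2 : lo ≤ s + b)
    (h : Win (T + k * b) (s + 1) (s + b) ((s, b, n) ::ₘ A) B) :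
    Win T lo hi ((s, b, n + m) ::ₘ A) B := by
  have hb' : (1 : ℤ) ≤ b := by exact_mod_cast hb
  rcases eq_or_ne k (-(m : ℤ)) with hkm | hkm
  · subst hkm
    apply Win.bots hb m T lo (by linarith) h2 hm
    have e : T - (m : ℤ) * b = T + -(m : ℤ) * b := by ring
    rw [e]
    exact h.mono le_rfl h1
  · exact Win.net hb m k hpar hk1 (by omega) (by linarith) h2 h

/-- Swap, in a form convenient for rewriting. -/
theorem Win.swap' {T lo hi lo' hi' : ℤ} {A B : Multiset Blk} (h : Win T lo' hi' B A)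
    (h1 : T - hi ≤ lo') (h2 : hi' ≤ T - lo) : Win T lo hi A B :=
  Win.swap _ _ _ _ _ (h.mono h1 h2)

/-- The pair trick. -/
theorem pairtrick {lo hi : ℤ} {y c d : ℕ} {N M : List (ℕ × ℕ)} (hy : 1 ≤ y)
    (hc : c % 2 = 0) (hc2 : 2 ≤ c) (hd : d % 2 = 0) (hd2 : 2 ≤ d) (hlo : lo ≤ 1) (hhi : 1 ≤ hi)
    (h : Win 1 1 1 (pos 0 M) (pos 0 N)) :
    Win 1 lo hi (pos 0 ((y, c) :: N)) (pos 0 ((y, d) :: M)) := by
  have hy' : (1 : ℤ) ≤ y := by exact_mod_cast hy
  apply Win.mono _ hlo hhi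
  rw [pos_cons, pos_cons]
  obtain ⟨c', rfl⟩ : ∃ c', c = (0 + c') + 1 := ⟨c - 1, by omega⟩
  apply Win.top _ _ _ _ _ _ _ _ (by linarith) (by linarith)
  apply Win.swap' (lo' := 1) (hi' := y) _ (by linarith) (by linarith)
  obtain ⟨d', rfl⟩ : ∃ d', d = 0 + d' := ⟨d, by omega⟩
  apply Win.net hy d' 0 (by omega) (by omega) (by omega) (by linarith) (by linarith)
  apply Win.swap' (lo' := 1) (hi' := y) _ (by linarith) (by linarith)
  apply Win.net1 hy c' 1 (by omega) (by omega) (by omega) (by omega) (by linarith) (by linarith)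
  apply Win.swap' (lo' := 1 + y) (hi' := 1 + y) _ (by linarith) (by linarith)
  apply Win.zeroA
  apply Win.zeroB
  have := h.shift y y
  rw [sh_pos, sh_pos] at this
  have e1 : (1 : ℤ) + y + 0 * y + 1 * y = 1 + y + y := by ring
  rw [e1]
  exact this

/-- The trick with a pending pair and one even block. -/
theorem tripletrick {lo hi : ℤ} {y c d x m : ℕ} {N M : List (ℕ × ℕ)} (hy : 1 ≤ y) (hyx : y ≤ x)
    (hc : c % 2 = 0) (hc2 : 2 ≤ c) (hd : d % 2 = 0) (hd2 : 2 ≤ d) (hm : m % 2 = 0) (hm2 : 2 ≤ m)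
    (hlo : lo ≤ 1) (hhi : 1 ≤ hi)
    (h : Win (1 - x) 1 y (pos 0 M) (pos 0 N)) :
    Win 1 lo hi (pos 0 ((y, c) :: (x, m) :: N)) (pos 0 ((y, d) :: M)) := by
  have hy' : (1 : ℤ) ≤ y := by exact_mod_cast hy
  have hyx' : (y : ℤ) ≤ x := by exact_mod_cast hyx
  apply Win.mono _ hlo hhi
  rw [pos_cons, pos_cons, pos_cons]
  obtain ⟨c', rfl⟩ : ∃ c', c = (0 + c') + 1 := ⟨c - 1, by omega⟩
  apply Win.top _ _ _ _ _ _ _ _ (by linarith) (by linarith)
  apply Win.swap' (lo' := 1) (hi' := y) _ (by linarith) (by linarith)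
  obtain ⟨d', rfl⟩ : ∃ d', d = (0 + d') + 1 := ⟨d - 1, by omega⟩
  apply Win.top _ _ _ _ _ _ _ _ (by linarith) (by linarith)
  apply Win.swap' (lo' := 1 + y) (hi' := 1 + y) _ (by linarith) (by linarith)
  rw [Multiset.cons_swap]
  obtain ⟨m', rfl⟩ : ∃ m', m = 0 + m' := ⟨m, by omega⟩
  apply Win.net (hy.trans hyx) m' 0 (by omega) (by omega) (by omega) (by linarith) (by linarith)
  apply Win.swap' (lo' := y) (hi' := y) _ (by linarith) (by linarith)
  apply Win.net2 hy d' (-1) (by omega) (by omega) (by omega) (by omega) (by linarith)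
    (by linarith)
  apply Win.swap' (lo' := 1) (hi' := 1) _ (by linarith) (by linarith)
  rw [Multiset.cons_swap]
  apply Win.net1 hy c' 1 (by omega) (by omega) (by omega) (by omega) (by linarith) (by linarith)
  apply Win.swap' (lo' := 1 + y) (hi' := y + y) _ (by linarith) (by linarith)
  apply Win.zeroA
  apply Win.zeroB
  apply Win.zeroB
  have := h.shift y (y + x)
  rw [sh_pos, sh_pos] at this
  have e1 : (1 : ℤ) + y + y + 0 * x + -1 * y + 1 * y = 1 - x + y + (y + x) := by ring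
  have e2 : (0 : ℤ) + y + x = 0 + (y + x) := by ring
  rw [e1, e2]
  exact this

/-- The trick for two blocks of equal size, even case. -/
theorem tieEven {e : ℤ} {y c d r : ℕ} {N M : List (ℕ × ℕ)} (hy : 1 ≤ y) (hr : 1 ≤ r)
    (he : e = 1 - r * y)
    (hc : c % 2 = r % 2) (hc2 : r + 2 ≤ c) (hd : d % 2 = 0) (hd2 : 2 ≤ d)
    (h : Win 1 1 1 (pos 0 N) (pos 0 M)) :
    Win e e 1 (pos 0 ((y, c) :: N)) (pos 0 ((y, d) :: M)) := by
  have hy' : (1 : ℤ) ≤ y := by exact_mod_cast hy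
  have hr' : (1 : ℤ) ≤ r := by exact_mod_cast hr
  have hry : (y : ℤ) ≤ r * y := by nlinarith
  rw [pos_cons, pos_cons]
  obtain ⟨c', rfl⟩ : ∃ c', c = (0 + c') + r := ⟨c - r, by omega⟩
  apply Win.tops hy r _ _ (by linarith) (by linarith) hr
  have e0 : e + r * y = 1 := by rw [he]; ring
  rw [e0]
  apply Win.swap' (lo' := 1 - y) (hi' := r * y) _ (by linarith) (by linarith)
  obtain ⟨d', rfl⟩ : ∃ d', d = (0 + d') + 1 := ⟨d - 1, by omega⟩
  apply Win.top _ _ _ _ _ _ _ _ (by linarith) (by linarith)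
  apply Win.swap' (lo' := 1) (hi' := 1) _ (by linarith) (by linarith)
  apply Win.net hy c' 0 (by omega) (by omega) (by omega) (by linarith) (by linarith)
  apply Win.swap' (lo' := 1) (hi' := y) _ (by linarith) (by linarith)
  apply Win.net1 hy d' 1 (by omega) (by omega) (by omega) (by omega) (by linarith) (by linarith)
  apply Win.swap' (lo' := 1 + y) (hi' := 1 + y) _ (by linarith) (by linarith)
  apply Win.zeroA
  apply Win.zeroB
  have := h.shift y y
  rw [sh_pos, sh_pos] at this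
  have e1 : (1 : ℤ) + y + 0 * y + 1 * y = 1 + y + y := by ring
  rw [e1]
  exact this

/-- Entering the wide windows. -/
theorem tieOdd {e : ℤ} {y c d r : ℕ} {N M : List (ℕ × ℕ)} (hy : 1 ≤ y) (hr : 1 ≤ r)
    (he : e = 1 - r * y)
    (h : Win (1 + y) 1 (2 * y) ((0, y, c) ::ₘ pos y N) ((0, y, d) ::ₘ pos y M)) :
    Win e e 1 (pos 0 ((y, c + r) :: N)) (pos 0 ((y, d + 1) :: M)) := by
  have hy' : (1 : ℤ) ≤ y := by exact_mod_cast hy
  have hr' : (1 : ℤ) ≤ r := by exact_mod_cast hr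
  have hry : (y : ℤ) ≤ r * y := by nlinarith
  rw [pos_cons, pos_cons]
  apply Win.tops hy r _ _ (by linarith) (by linarith) hr
  have e0 : e + r * y = 1 := by rw [he]; ring
  rw [e0]
  apply Win.swap' (lo' := 1 - y) (hi' := r * y) _ (by linarith) (by linarith)
  apply Win.top _ _ _ _ _ _ _ _ (by linarith) (by linarith)
  apply Win.swap' (lo' := 1) (hi' := 2 * y) _ (by linarith) (by linarith)
  have e1 : (0 : ℤ) + y = y := by ring
  rw [e1]
  exact h

/-- The end of the chain of wide windows. -/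
theorem chainEnd {y a b : ℕ} {N M : List (ℕ × ℕ)} (hy : 1 ≤ y)
    (ha : a % 2 = 0) (ha2 : 2 ≤ a) (hb : b % 2 = 0) (hb2 : 2 ≤ b)
    (h : Win (1 + y) (1 + y) (1 + y) (pos 0 N) (pos 0 M)) :
    Win (1 + y) 1 (2 * y) ((0, y, a) ::ₘ pos y N) ((0, y, b) ::ₘ pos y M) := by
  have hy' : (1 : ℤ) ≤ y := by exact_mod_cast hy
  obtain ⟨a', rfl⟩ : ∃ a', a = 0 + a' := ⟨a, by omega⟩
  obtain ⟨b', rfl⟩ : ∃ b', b = 0 + b' := ⟨b, by omega⟩
  apply Win.net hy a' 0 (by omega) (by omega) (by omega) (by linarith) (by linarith)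
  apply Win.swap' (lo' := 1) (hi' := y) _ (by linarith) (by linarith)
  apply Win.net1 hy b' 2 (by omega) (by omega) (by omega) (by omega) (by linarith) (by linarith)
  apply Win.swap' (lo' := 1 + 2 * y) (hi' := 1 + 2 * y) _ (by linarith) (by linarith)
  apply Win.zeroA
  apply Win.zeroB
  have := h.shift y y
  rw [sh_pos, sh_pos] at this
  have e1 : (1 : ℤ) + y + 0 * y + 2 * y = 1 + y + y + y := by ring
  have e2 : (1 : ℤ) + 2 * y = 1 + y + y := by ring
  have e3 : (0 : ℤ) + y = y := by ring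
  rw [e1, e2]
  rw [e3] at this
  exact this

/-- One step of the chain of wide windows. -/
theorem chainStep {y a b c : ℕ} {N M : List (ℕ × ℕ)} (hy : 1 ≤ y) (ha2 : 1 ≤ a)
    (h : Win (1 + y) 1 (2 * y) ((0, y, b) ::ₘ pos y M) ((0, y, c) ::ₘ pos y N)) :
    Win (1 + y) 1 (2 * y) ((0, y, a) ::ₘ pos y ((y, c + (a + 1)) :: N))
      ((0, y, b) ::ₘ pos y M) := by
  have hy' : (1 : ℤ) ≤ y := by exact_mod_cast hy
  rw [pos_cons]
  obtain ⟨a', rfl⟩ : ∃ a', a = 0 + a' := ⟨a, by omega⟩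
  apply Win.bots hy a' _ _ (by linarith) (by linarith) (by omega)
  rw [Multiset.cons_swap]
  apply Win.tops hy (0 + a' + 1) _ _ (by linarith) (by linarith) (by omega)
  apply Win.swap' (lo' := 1) (hi' := 2 * y) _ (by push_cast; linarith)
    (by push_cast; linarith)
  rw [Multiset.cons_swap]
  apply Win.zeroB
  have := h.shift 0 y
  rw [sh_cons, sh_cons, sh_pos, sh_pos] at this
  have e1 : (1 : ℤ) + y - a' * y + (0 + a' + 1 : ℕ) * y = 1 + y + 0 + y := by push_cast; ring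
  rw [e1]
  simpa using this

end Pool.Agent.Lib.MP_404fd0_co
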