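import Mathlib
import Pool.Agent.Lib.MP_404fd0_co.Tricks

namespace Pool.Agent.Lib.MP_404fd0_co

/-- The family `G` can be stacked and completed from the relative state `e`, the near side
exceeding the far side by the alternating sum of `G`. -/
def Good (e : ℤ) (G : Multiset (ℕ × ℕ)) : Prop :=
  ∃ N M : List (ℕ × ℕ), (N : Multiset (ℕ × ℕ)) + (M : Multiset (ℕ × ℕ)) = G ∧
    sz N - sz M = alt G ∧ Win e e (max 1 e) (pos 0 N) (pos 0 M)

/-- The same from the state `1` with an additional pair of blocks of size `y`. -/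
def GoodP (y c d : ℕ) (G : Multiset (ℕ × ℕ)) : Prop :=
  ∃ N M : List (ℕ × ℕ), (N : Multiset (ℕ × ℕ)) + (M : Multiset (ℕ × ℕ)) =
      (y, c) ::ₘ (y, d) ::ₘ G ∧
    sz N - sz M = alt G ∧ Win 1 1 1 (pos 0 N) (pos 0 M)

theorem coe_cons_add (g : ℕ × ℕ) (N M : List (ℕ × ℕ)) :
    ((g :: N : List (ℕ × ℕ)) : Multiset (ℕ × ℕ)) + (M : Multiset (ℕ × ℕ)) =
      g ::ₘ ((M : Multiset (ℕ × ℕ)) + (N : Multiset (ℕ × ℕ))) := by
  rw [← Multiset.cons_coe, Multiset.cons_add, add_comm]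

theorem good_of {e e' : ℤ} {g : ℕ × ℕ} {G : Multiset (ℕ × ℕ)} (hmin : ∀ x ∈ G, g.1 ≤ x.1)
    (h : Good e' G)
    (hw : ∀ N M : List (ℕ × ℕ), Win e' e' (max 1 e') (pos 0 M) (pos 0 N) →
      Win e e (max 1 e) (pos 0 (g :: N)) (pos 0 M)) : Good e (g ::ₘ G) := by
  obtain ⟨N', M', h1, h2, h3⟩ := h
  refine ⟨g :: M', N', ?_, ?_, hw M' N' h3⟩
  · rw [coe_cons_add, h1]
  · obtain ⟨b, n⟩ := g
    rw [sz_cons, alt_cons_min hmin, ← h2]
    ring

theorem good_step {e : ℤ} {y n : ℕ} {G : Multiset (ℕ × ℕ)} (hy : 1 ≤ y) (hn : 1 ≤ n)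
    (hmin : ∀ x ∈ G, y ≤ x.1) (he : e ≤ 1) (k : ℤ) (hpar : k % 2 = n % 2) (hk1 : k ≤ n)
    (hk2 : -((n : ℤ) - 2) ≤ k) (he' : 2 - (y : ℤ) ≤ e + (k - 1) * y)
    (h : Good (e + (k - 1) * y) G) : Good e ((y, n) ::ₘ G) := by
  have hy' : (1 : ℤ) ≤ y := by exact_mod_cast hy
  refine good_of hmin h ?_
  intro N M hw
  apply Win.visit hy hn k hpar hk1 hk2 he (le_max_left _ _)
  apply hw.mono le_rfl
  apply max_le
  · linarith
  · linarith

theorem good_stepBoth {e : ℤ} {y n : ℕ} {G : Multiset (ℕ × ℕ)} (hy : 1 ≤ y)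
    (hmin : ∀ x ∈ G, y ≤ x.1) (he : e ≤ y) (k : ℤ) (hpar : k % 2 = n % 2)
    (hk1 : k ≤ (n : ℤ) - 2)
    (hk2 : -((n : ℤ) - 2) ≤ k) (he' : 2 - (y : ℤ) ≤ e + (k - 1) * y)
    (h : Good (e + (k - 1) * y) G) : Good e ((y, n) ::ₘ G) := by
  have hy' : (1 : ℤ) ≤ y := by exact_mod_cast hy
  refine good_of hmin h ?_
  intro N M hw
  apply Win.visitBoth hy k hpar hk1 hk2 he (le_max_left _ _)
  apply hw.mono le_rfl
  apply max_le
  · linarith
  · linarith

theorem good_stepTop {e : ℤ} {y n : ℕ} {G : Multiset (ℕ × ℕ)} (hy : 1 ≤ y) (hn : 1 ≤ n)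
    (hmin : ∀ x ∈ G, y ≤ x.1) (he : e ≤ y)
    (h : Good (e + ((n : ℤ) - 1) * y) G) : Good e ((y, n) ::ₘ G) := by
  have hy' : (1 : ℤ) ≤ y := by exact_mod_cast hy
  have hn' : (1 : ℤ) ≤ n := by exact_mod_cast hn
  refine good_of hmin h ?_
  intro N M hw
  apply Win.visitTop hy hn he (le_max_left _ _)
  apply hw.mono le_rfl
  have : (y : ℤ) ≤ n * y := by nlinarith
  apply max_le
  · linarith
  · linarith

/-- One block, when all the following sizes are at least `d`, and no bad residue. -/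
theorem good_try {e : ℤ} {y n d : ℕ} {G : Multiset (ℕ × ℕ)} (hy : 1 ≤ y) (hn : 1 ≤ n)
    (hyd : y ≤ d) (hmin : ∀ x ∈ G, d ≤ x.1) (he : e ≤ 1)
    (hbad : d = y → ¬ ∃ k : ℤ, e = 1 - k * y ∧ k % 2 = n % 2 ∧ k ≤ (n : ℤ) - 2)
    (IH : ∀ e' : ℤ, (∀ x ∈ G, e' ≤ x.1) → Good e' G) : Good e ((y, n) ::ₘ G) := by
  have hy' : (1 : ℤ) ≤ y := by exact_mod_cast hy
  have hn' : (1 : ℤ) ≤ n := by exact_mod_cast hn
  have hyd' : (y : ℤ) ≤ d := by exact_mod_cast hyd
  have hmin' : ∀ x ∈ G, y ≤ x.1 := fun x hx => hyd.trans (hmin x hx)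
  -- target value at most y + 1
  obtain ⟨D, hD1, hD2, hD3⟩ : ∃ D : ℤ, D ≤ d ∧ y ≤ D ∧ (D = y + 1 ∨ (D = y ∧ d = y)) := by
    rcases Nat.lt_or_ge y d with h | h
    · refine ⟨y + 1, ?_, by linarith, Or.inl rfl⟩
      have : (y : ℤ) < d := by exact_mod_cast h
      linarith
    · exact ⟨y, hyd', le_rfl, Or.inr ⟨rfl, by omega⟩⟩
  set a : ℤ := e + ((n : ℤ) - 1) * y with ha
  set q : ℤ := (D - a) / (2 * y) with hq
  set r : ℤ := (D - a) % (2 * y) with hr
  have hr0 : 0 ≤ r := Int.emod_nonneg _ (by linarith)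
  have hr1 : r < 2 * y := Int.emod_lt_of_pos _ (by linarith)
  have hqr : 2 * y * q + r = D - a := Int.mul_ediv_add_emod _ _
  have hGe : ∀ e' : ℤ, e' ≤ D → ∀ x ∈ G, e' ≤ x.1 := by
    intro e' h1 x hx
    have : (d : ℤ) ≤ x.1 := by exact_mod_cast hmin x hx
    linarith
  rcases le_or_gt 0 q with hq0 | hq0
  · apply good_stepTop hy hn hmin' (by linarith)
    apply IH
    apply hGe
    have : 0 ≤ 2 * y * q := by positivity
    linarith
  · have hk : e + ((n + 2 * q : ℤ) - 1) * y = D - r := by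
      have : e + ((n + 2 * q : ℤ) - 1) * y = a + 2 * y * q := by rw [ha]; ring
      rw [this]; linarith
    have hlow : 2 - (y : ℤ) ≤ D - r := by
      rcases hD3 with h | ⟨h, h'⟩
      · linarith
      · by_contra hcon
        apply hbad h'
        refine ⟨n + 2 * q, ?_, by omega, by omega⟩
        have : D - r = 1 - y := by
          have : r ≥ 2 * y - 1 := by linarith
          have : r = 2 * y - 1 := by omega
          linarith
        linarith
    have hkpos : 0 < n + 2 * q := by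
      by_contra hcon
      have h1 : (n + 2 * q : ℤ) ≤ 0 := by linarith
      have h2 : ((n + 2 * q : ℤ) - 1) * y ≤ -y := by nlinarith
      have h3 : e + ((n + 2 * q : ℤ) - 1) * y ≤ 1 - y := by linarith
      rw [hk] at h3
      linarith
    apply good_step hy hn hmin' he (n + 2 * q) (by omega) (by omega) (by omega)
    · rw [hk]; exact hlow
    · rw [hk]
      apply IH
      apply hGe
      linarith

/-- `e ≥ 2`. -/
theorem good_ge_two {e : ℤ} {y n : ℕ} {G : Multiset (ℕ × ℕ)} (hy : 1 ≤ y) (hn : 1 ≤ n)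
    (hmin : ∀ x ∈ G, y ≤ x.1) (he2 : 2 ≤ e) (he : e ≤ y)
    (IH : ∀ e' : ℤ, (∀ x ∈ G, e' ≤ x.1) → Good e' G) : Good e ((y, n) ::ₘ G) := by
  have hGe : ∀ e' : ℤ, e' ≤ y → ∀ x ∈ G, e' ≤ x.1 := by
    intro e' h1 x hx
    have : (y : ℤ) ≤ x.1 := by exact_mod_cast hmin x hx
    linarith
  rcases Nat.even_or_odd n with hev | hodd
  · have h2 : n % 2 = 0 := Nat.even_iff.1 hev
    apply good_stepBoth hy hmin he 0 (by omega) (by omega) (by omega)
    · linarith
    · apply IH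
      apply hGe
      linarith
  · have h2 : n % 2 = 1 := Nat.odd_iff.1 hodd
    rcases Nat.eq_or_lt_of_le hn with h1 | h1
    · apply good_stepTop hy hn hmin he
      apply IH
      apply hGe
      rw [← h1]
      push_cast
      linarith
    · apply good_stepBoth hy hmin he 1 (by omega) (by omega) (by omega)
      · linarith
      · apply IH
        apply hGe
        linarith

theorem exists_min2 {G : Multiset (ℕ × ℕ)} (h : G ≠ 0) :
    ∃ g G', G = g ::ₘ G' ∧ ∀ x ∈ G', g.2 ≤ x.2 := by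
  classical
  have hne : G.toFinset.Nonempty := by
    obtain ⟨a, ha⟩ := Multiset.exists_mem_of_ne_zero h
    exact ⟨a, Multiset.mem_toFinset.2 ha⟩
  obtain ⟨g, hg, hmin⟩ := G.toFinset.exists_min_image Prod.snd hne
  refine ⟨g, G.erase g, (Multiset.cons_erase (Multiset.mem_toFinset.1 hg)).symm, ?_⟩
  intro x hx
  exact hmin x (Multiset.mem_toFinset.2 (Multiset.mem_of_mem_erase hx))

/-- The chain of wide windows. -/
theorem chain {y : ℕ} {R : Multiset (ℕ × ℕ)} (hy : 1 ≤ y) (hR : ∀ x ∈ R, y ≤ x.1)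
    (hRg : Good (1 + y) R) : ∀ (m : ℕ) (K : Multiset (ℕ × ℕ)) (a b : ℕ), Multiset.card K = m →
      K.Nodup → (∀ x ∈ K, x.1 = y ∧ x.2 % 2 = 1 ∧ a + 3 ≤ x.2 ∧ b + 3 ≤ x.2) →
      a % 2 = 0 → 2 ≤ a → b % 2 = 0 → 2 ≤ b →
      ∃ N M : List (ℕ × ℕ), (N : Multiset (ℕ × ℕ)) + (M : Multiset (ℕ × ℕ)) = K + R ∧
        sz N - sz M = alt (K + R) ∧
        Win (1 + y) 1 (2 * y) ((0, y, a) ::ₘ pos y N) ((0, y, b) ::ₘ pos y M) := by
  intro m
  induction m with
  | zero =>
      intro K a b hK _ _ ha ha2 hb hb2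
      rw [Multiset.card_eq_zero.1 hK, zero_add]
      obtain ⟨N, M, h1, h2, h3⟩ := hRg
      refine ⟨N, M, h1, h2, ?_⟩
      apply chainEnd hy ha ha2 hb hb2
      apply h3.mono le_rfl
      apply max_le
      · have : (0 : ℤ) ≤ y := by positivity
        linarith
      · exact le_rfl
  | succ m ih =>
      intro K a b hK hnd hKp ha ha2 hb hb2
      have hne : K ≠ 0 := by
        rintro rfl
        simp at hK
      obtain ⟨C, K', rfl, hC⟩ := exists_min2 hne
      obtain ⟨y', c⟩ := C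
      obtain ⟨hc1, hc2, hc3, hc4⟩ := hKp (y', c) (Multiset.mem_cons_self _ _)
      simp only at hc1 hc2 hc3 hc4
      subst hc1
      rw [Multiset.nodup_cons] at hnd
      obtain ⟨N', M', h1, h2, h3⟩ := ih K' b (c - a - 1) (by simpa using hK) hnd.2 (by
        intro x hx
        obtain ⟨x1, x2, x3, x4⟩ := hKp x (Multiset.mem_cons_of_mem hx)
        refine ⟨x1, x2, x4, ?_⟩
        have hle : c ≤ x.2 := hC x hx
        have hnec : c ≠ x.2 := by
          intro h
          apply hnd.1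
          have : ((y', c) : ℕ × ℕ) = x := Prod.ext x1.symm h
          rw [this]
          exact hx
        omega) hb hb2 (by omega) (by omega)
      refine ⟨(y', c) :: M', N', ?_, ?_, ?_⟩
      · rw [coe_cons_add, h1, Multiset.cons_add]
      · rw [sz_cons, Multiset.cons_add, alt_cons_min, ← h2]
        · ring
        · intro x hx
          rcases Multiset.mem_add.1 hx with hx | hx
          · exact (hKp x (Multiset.mem_cons_of_mem hx)).1.ge
          · exact hR x hx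
      · have := chainStep (a := a) hy (by omega) h3
        have e : c - a - 1 + (a + 1) = c := by omega
        rw [e] at this
        exact this

end Pool.Agent.Lib.MP_404fd0_co
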