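import Mathlib
import Pool.Agent.Lib.MP_404fd0_co.Asc

namespace Pool.Agent.Lib.MP_404fd0_co

theorem good_zero (e : ℤ) : Good e 0 := by
  refine ⟨[], [], by simp, by simp [sz_nil, alt_zero], ?_⟩
  exact Win.done _ _ _ _ _ (by simp [pos_nil]) (by simp [pos_nil])

theorem goodP_zero {y c d : ℕ} (hy : 1 ≤ y) (hc : c % 2 = 0) (hc2 : 2 ≤ c) (hd : d % 2 = 0)
    (hd2 : 2 ≤ d) : GoodP y c d 0 := by
  refine ⟨[(y, c)], [(y, d)], ?_, ?_, ?_⟩
  · rw [coe_cons_add]
    rfl
  · simp [sz, alt_zero]
  · apply pairtrick hy hc hc2 hd hd2 le_rfl le_rfl
    exact Win.done _ _ _ _ _ (by simp [pos_nil]) (by simp [pos_nil])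

theorem asc_main : ∀ (m : ℕ) (G : Multiset (ℕ × ℕ)), Multiset.card G = m → G.Nodup →
    (∀ x ∈ G, 1 ≤ x.1 ∧ 1 ≤ x.2) →
    (∀ e : ℤ, (∀ x ∈ G, e ≤ x.1) → Good e G) ∧
    (∀ y c d : ℕ, 1 ≤ y → (∀ x ∈ G, y ≤ x.1) → c % 2 = 0 → 2 ≤ c → d % 2 = 0 → 2 ≤ d →
      GoodP y c d G) := by
  classical
  intro m
  induction m using Nat.strong_induction_on with
  | _ m IH =>
  intro G hG hnd hok
  have IHg : ∀ G' : Multiset (ℕ × ℕ), G' ≤ G → Multiset.card G' < Multiset.card G →
      (∀ e : ℤ, (∀ x ∈ G', e ≤ x.1) → Good e G') ∧
      (∀ y c d : ℕ, 1 ≤ y → (∀ x ∈ G', y ≤ x.1) → c % 2 = 0 → 2 ≤ c → d % 2 = 0 → 2 ≤ d →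
        GoodP y c d G') := by
    intro G' hle hlt
    exact IH (Multiset.card G') (by omega) G' rfl (Multiset.nodup_of_le hle hnd)
      (fun x hx => hok x (Multiset.mem_of_le hle hx))
  clear IH
  by_cases h0 : G = 0
  · subst h0
    exact ⟨fun e _ => good_zero e, fun y c d hy _ hc hc2 hd hd2 => goodP_zero hy hc hc2 hd hd2⟩
  constructor
  · intro e he
    obtain ⟨g, G', rfl, hg⟩ := exists_min h0
    obtain ⟨y, n⟩ := g
    simp only at hg
    obtain ⟨hy, hn⟩ := hok (y, n) (Multiset.mem_cons_self _ _)
    simp only at hy hn
    have hy' : (1 : ℤ) ≤ y := by exact_mod_cast hy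
    have hey : e ≤ y := he (y, n) (Multiset.mem_cons_self _ _)
    have hG'le : G' ≤ (y, n) ::ₘ G' := Multiset.le_cons_self _ _
    have hG'card : Multiset.card G' < Multiset.card ((y, n) ::ₘ G') := by simp
    rcases le_or_gt 2 e with he2 | he2
    · exact good_ge_two hy hn hg he2 hey (IHg G' hG'le hG'card).1
    have he1 : e ≤ 1 := by omega
    by_cases htie : ∀ x ∈ G', y + 1 ≤ x.1
    · apply good_try (d := y + 1) hy hn (by omega) htie he1 (by intro h; omega)
      exact (IHg G' hG'le hG'card).1
    push Not at htie
    obtain ⟨h, hhG, hh⟩ := htie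
    have hh1 : h.1 = y := by
      have := hg h hhG
      omega
    by_cases hB : ∀ x ∈ (y, n) ::ₘ G', x.1 = y →
        ∃ k : ℤ, e = 1 - k * y ∧ k % 2 = x.2 % 2 ∧ k ≤ (x.2 : ℤ) - 2
    · -- all blocks of size y are bad
      obtain ⟨k, hk1, hk2, hk3⟩ := hB (y, n) (Multiset.mem_cons_self _ _) rfl
      simp only at hk2 hk3
      have hk0 : 0 ≤ k := by
        by_contra hcon
        have : k ≤ -1 := by omega
        have : k * y ≤ -1 := by nlinarith
        linarith
      lift k to ℕ using hk0 with r hr
      have hall : ∀ x ∈ (y, n) ::ₘ G', x.1 = y → x.2 % 2 = r % 2 ∧ r + 2 ≤ x.2 := by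
        intro x hx hxy
        obtain ⟨k', h1, h2, h3⟩ := hB x hx hxy
        have : k' = r := by
          have h4 : (k' - r) * y = 0 := by linarith
          rcases mul_eq_zero.1 h4 with h5 | h5
          · linarith
          · linarith
        subst this
        omega
      obtain ⟨G'', rfl⟩ := Multiset.exists_cons_of_mem hhG
      obtain ⟨y', d⟩ := h
      simp only at hh1
      subst hh1
      have hGl : G'' ≤ (y', n) ::ₘ (y', d) ::ₘ G'' :=
        (Multiset.le_cons_self _ _).trans (Multiset.le_cons_self _ _)
      have hGc : Multiset.card G'' < Multiset.card ((y', n) ::ₘ (y', d) ::ₘ G'') := by simp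
      have hmin'' : ∀ x ∈ G'', y' ≤ x.1 := fun x hx => hg x (Multiset.mem_cons_of_mem hx)
      have hn1 := hall (y', n) (Multiset.mem_cons_self _ _) rfl
      have hd1 := hall (y', d) (Multiset.mem_cons_of_mem (Multiset.mem_cons_self _ _)) rfl
      simp only at hn1 hd1
      have halt : alt ((y', n) ::ₘ (y', d) ::ₘ G'') = alt G'' := by
        rw [alt_cons_min hg, alt_cons_min hmin'']
        ring
      rcases Nat.eq_zero_or_pos r with hr0 | hr0
      · subst hr0
        have he' : e = 1 := by simpa using hk1
        subst he'
        obtain ⟨N, M, h1, h2, h3⟩ := (IHg G'' hGl hGc).2 y' n d hy hmin'' (by omega) (by omega)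
          (by omega) (by omega)
        exact ⟨N, M, h1, by rw [halt]; exact h2, by simpa using h3⟩
      · have hmax : max 1 e = 1 := by
          apply max_eq_left
          exact he1
        rcases Nat.even_or_odd r with hre | hro
        · have hre2 : r % 2 = 0 := Nat.even_iff.1 hre
          obtain ⟨N, M, h1, h2, h3⟩ := (IHg G'' hGl hGc).1 1 (by
            intro x hx
            have := hmin'' x hx
            have : (y' : ℤ) ≤ x.1 := by exact_mod_cast this
            linarith)
          refine ⟨(y', n) :: N, (y', d) :: M, ?_, ?_, ?_⟩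
          · rw [← h1, ← Multiset.cons_coe, ← Multiset.cons_coe, Multiset.cons_add,
              Multiset.add_cons]
          · rw [halt, ← h2, sz_cons, sz_cons]
            ring
          · rw [hmax]
            apply tieEven hy hr0 hk1 (by omega) (by omega) (by omega) (by omega)
            simpa using h3
        · have hro2 : r % 2 = 1 := Nat.odd_iff.1 hro
          -- the chain
          set F : Multiset (ℕ × ℕ) := (y', n) ::ₘ (y', d) ::ₘ G'' with hF
          set K0 := F.filter (fun x => x.1 = y') with hK0
          set R := F.filter (fun x => ¬ x.1 = y') with hR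
          have hsplit : K0 + R = F := Multiset.filter_add_not _ _
          have hK0f : K0 = (y', n) ::ₘ (y', d) ::ₘ G''.filter (fun x => x.1 = y') := by
            rw [hK0, hF, Multiset.filter_cons_of_pos, Multiset.filter_cons_of_pos]
            · rfl
            · rfl
          have hK0ne : K0 ≠ 0 := by
            rw [hK0f]; exact Multiset.cons_ne_zero
          obtain ⟨A, K1, hA1, hA2⟩ := exists_min2 hK0ne
          have hK1ne : K1 ≠ 0 := by
            rintro rfl
            have h5 : Multiset.card K0 = 1 := by rw [hA1]; rfl
            rw [hK0f] at h5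
            simp at h5
          obtain ⟨B, K, hB1, hB2⟩ := exists_min2 hK1ne
          rw [hB1] at hA1
          have hKnd : K0.Nodup := Multiset.nodup_of_le (Multiset.filter_le _ _) hnd
          have hKall : ∀ x ∈ K0, x.1 = y' ∧ x.2 % 2 = 1 ∧ r + 2 ≤ x.2 := by
            intro x hx
            rw [hK0, Multiset.mem_filter] at hx
            have := hall x hx.1 hx.2
            exact ⟨hx.2, by omega, this.2⟩
          obtain ⟨ya, a⟩ := A
          obtain ⟨yb, b⟩ := B
          obtain ⟨hya, ha2, ha3⟩ := hKall (ya, a) (by rw [hA1]; simp)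
          obtain ⟨hyb, hb2, hb3⟩ := hKall (yb, b) (by rw [hA1]; simp)
          simp only at hya ha2 ha3 hyb hb2 hb3
          subst hya
          subst hyb
          rw [hA1] at hKnd
          rw [Multiset.nodup_cons, Multiset.nodup_cons] at hKnd
          obtain ⟨hnd1, hnd2, hnd3⟩ := hKnd
          have hab : a + 2 ≤ b := by
            have h5 : a ≤ b := hA2 (yb, b) (by rw [hB1]; simp)
            have h6 : a ≠ b := by
              rintro rfl
              apply hnd1
              simp
            omega
          have hRge : ∀ x ∈ R, yb + 1 ≤ x.1 := by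
            intro x hx
            rw [hR, Multiset.mem_filter] at hx
            have h5 : yb ≤ x.1 := by
              rcases Multiset.mem_cons.1 hx.1 with rfl | h6
              · exact le_rfl
              · exact hg x h6
            have h6 := hx.2
            omega
          have hRlt : Multiset.card R < Multiset.card F := by
            rw [← hsplit, Multiset.card_add, hA1]
            simp only [Multiset.card_cons]
            omega
          have hRgood : Good (1 + yb) R := by
            apply (IHg R (Multiset.filter_le _ _) hRlt).1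
            intro x hx
            have := hRge x hx
            have : (yb : ℤ) + 1 ≤ x.1 := by exact_mod_cast this
            linarith
          obtain ⟨N, M, h1, h2, h3⟩ := chain hy (fun x hx => (by
              have := hRge x hx; omega : yb ≤ x.1)) hRgood (Multiset.card K) K (a - r) (b - 1)
            rfl hnd3 (by
              intro x hx
              have hx0 : x ∈ K0 := by rw [hA1]; simp [hx]
              obtain ⟨x1, x2, x3⟩ := hKall x hx0
              have h5 : b ≤ x.2 := hB2 x hx
              have h6 : b ≠ x.2 := by
                intro h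
                apply hnd2
                have : ((yb, b) : ℕ × ℕ) = x := Prod.ext x1.symm h
                rw [this]
                exact hx
              exact ⟨x1, x2, by omega, by omega⟩) (by omega) (by omega) (by omega) (by omega)
          refine ⟨(yb, a) :: N, (yb, b) :: M, ?_, ?_, ?_⟩
          · rw [← Multiset.cons_coe, ← Multiset.cons_coe, Multiset.cons_add,
              Multiset.add_cons, h1, ← hsplit, hA1, Multiset.cons_add, Multiset.cons_add]
          · have h5 : alt F = alt (K + R) := by
              rw [← hsplit, hA1, Multiset.cons_add, Multiset.cons_add]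
              have hmin1 : ∀ x ∈ K + R, yb ≤ x.1 := by
                intro x hx
                rcases Multiset.mem_add.1 hx with hx | hx
                · have hx0 : x ∈ K0 := by rw [hA1]; simp [hx]
                  exact (hKall x hx0).1.ge
                · have := hRge x hx
                  omega
              rw [alt_cons_min, alt_cons_min hmin1]
              · ring
              · intro x hx
                rcases Multiset.mem_cons.1 hx with rfl | hx
                · exact le_rfl
                · exact hmin1 x hx
            rw [h5, sz_cons, sz_cons, ← h2]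
            ring
          · rw [hmax]
            have h5 := tieOdd (r := r) hy hr0 hk1 h3
            have e1 : a - r + r = a := by omega
            have e2 : b - 1 + 1 = b := by omega
            rw [e1, e2] at h5
            exact h5
    · push Not at hB
      obtain ⟨x, hx, hxy, hxb⟩ := hB
      obtain ⟨G1, hG1⟩ := Multiset.exists_cons_of_mem hx
      obtain ⟨y', n'⟩ := x
      simp only at hxy hxb
      subst hxy
      rw [hG1]
      have hG1le : G1 ≤ (y', n) ::ₘ G' := by rw [hG1]; exact Multiset.le_cons_self _ _
      have hG1c : Multiset.card G1 < Multiset.card ((y', n) ::ₘ G') := by rw [hG1]; simp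
      apply good_try (d := y') hy (hok _ hx).2 le_rfl
      · intro z hz
        have hz' : z ∈ (y', n) ::ₘ G' := Multiset.mem_of_le hG1le hz
        rcases Multiset.mem_cons.1 hz' with rfl | hz'
        · exact le_rfl
        · exact hg z hz'
      · exact he1
      · rintro - ⟨k, h1, h2, h3⟩
        have := hxb k h1 h2
        linarith
      · exact (IHg G1 hG1le hG1c).1
  · intro y c d hy hGy hc hc2 hd hd2
    obtain ⟨g, G', rfl, hg⟩ := exists_min h0
    obtain ⟨x, n⟩ := g
    simp only at hg
    obtain ⟨hx, hn⟩ := hok (x, n) (Multiset.mem_cons_self _ _)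
    simp only at hx hn
    have hyx : y ≤ x := hGy (x, n) (Multiset.mem_cons_self _ _)
    by_cases hodd : ∃ z ∈ (x, n) ::ₘ G', z.1 = x ∧ z.2 % 2 = 1
    · obtain ⟨z, hz, hz1, hz2⟩ := hodd
      obtain ⟨G1, hG1⟩ := Multiset.exists_cons_of_mem hz
      obtain ⟨x', n'⟩ := z
      simp only at hz1 hz2
      subst hz1
      rw [hG1]
      have hG1le : G1 ≤ (x', n) ::ₘ G' := by rw [hG1]; exact Multiset.le_cons_self _ _
      have hG1c : Multiset.card G1 < Multiset.card ((x', n) ::ₘ G') := by rw [hG1]; simp
      have hmin1 : ∀ z ∈ G1, x' ≤ z.1 := by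
        intro z hz
        have hz' : z ∈ (x', n) ::ₘ G' := Multiset.mem_of_le hG1le hz
        rcases Multiset.mem_cons.1 hz' with rfl | hz'
        · exact le_rfl
        · exact hg z hz'
      obtain ⟨N', M', h1, h2, h3⟩ := (IHg G1 hG1le hG1c).2 y c d hy
        (fun z hz => hyx.trans (hmin1 z hz)) hc hc2 hd hd2
      refine ⟨(x', n') :: M', N', ?_, ?_, ?_⟩
      · rw [coe_cons_add, h1]
        rw [Multiset.cons_swap, Multiset.cons_swap (x', n')]
      · rw [sz_cons, alt_cons_min hmin1, ← h2]
        ring
      · apply Win.visit hx (hok _ hz).2 1 (by omega) (by omega) (by omega) le_rfl le_rfl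
        have hx' : (1 : ℤ) ≤ x' := by exact_mod_cast hx
        apply Win.mono (lo := 1) (hi := 1) _ (by linarith) (by linarith)
        have e : (1 : ℤ) + (1 - 1) * x' = 1 := by ring
        rw [e]
        exact h3
    · push Not at hodd
      have hev : ∀ z ∈ (x, n) ::ₘ G', z.1 = x → z.2 % 2 = 0 ∧ 2 ≤ z.2 := by
        intro z hz hzx
        have h1 := hodd z hz hzx
        have h2 := (hok z hz).2
        omega
      have hn2 := hev (x, n) (Multiset.mem_cons_self _ _) rfl
      simp only at hn2
      by_cases htie : ∃ h ∈ G', h.1 = x
      · obtain ⟨h, hhG, hh1⟩ := htie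
        obtain ⟨G'', rfl⟩ := Multiset.exists_cons_of_mem hhG
        obtain ⟨x', n'⟩ := h
        simp only at hh1
        subst hh1
        have hn3 := hev (x', n') (Multiset.mem_cons_of_mem (Multiset.mem_cons_self _ _)) rfl
        simp only at hn3
        have hGl : G'' ≤ (x', n) ::ₘ (x', n') ::ₘ G'' :=
          (Multiset.le_cons_self _ _).trans (Multiset.le_cons_self _ _)
        have hGc : Multiset.card G'' < Multiset.card ((x', n) ::ₘ (x', n') ::ₘ G'') := by simp
        have hmin'' : ∀ x ∈ G'', x' ≤ x.1 := fun x hx => hg x (Multiset.mem_cons_of_mem hx)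
        obtain ⟨N, M, h1, h2, h3⟩ := (IHg G'' hGl hGc).1 1 (by
          intro z hz
          have := hmin'' z hz
          have : 1 ≤ z.1 := hx.trans this
          exact_mod_cast this)
        refine ⟨(y, c) :: (x', n) :: N, (y, d) :: (x', n') :: M, ?_, ?_, ?_⟩
        · rw [← h1]
          simp only [← Multiset.cons_coe, ← Multiset.singleton_add]
          abel
        · rw [alt_cons_min hg, alt_cons_min hmin'', ← h2]
          simp only [sz_cons]
          ring
        · apply pairtrick hy hc hc2 hd hd2 le_rfl le_rfl
          apply pairtrick hx hn3.1 hn3.2 hn2.1 hn2.2 le_rfl le_rfl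
          simpa using h3
      · push Not at htie
        have hlt : ∀ z ∈ G', x + 1 ≤ z.1 := by
          intro z hz
          have h1 := hg z hz
          have h2 := htie z hz
          omega
        have hx' : (1 : ℤ) ≤ x := by exact_mod_cast hx
        have hy' : (1 : ℤ) ≤ y := by exact_mod_cast hy
        by_cases hG'0 : G' = 0
        · subst hG'0
          refine ⟨[(y, c), (x, n)], [(y, d)], ?_, ?_, ?_⟩
          · simp only [← Multiset.cons_coe, ← Multiset.singleton_add, Multiset.coe_nil]
            abel
          · rw [alt_cons_min (by simp), alt_zero]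
            simp [sz]
          · apply tripletrick hy hyx hc hc2 hd hd2 hn2.1 hn2.2 le_rfl le_rfl
            exact Win.done _ _ _ _ _ (by simp [pos_nil]) (by simp [pos_nil])
        · obtain ⟨B, G2, rfl, hB⟩ := exists_min hG'0
          obtain ⟨β, m⟩ := B
          simp only at hB
          have hβ : x + 1 ≤ β := hlt (β, m) (Multiset.mem_cons_self _ _)
          have hβ' : (x : ℤ) + 1 ≤ β := by exact_mod_cast hβ
          have hm := (hok (β, m) (Multiset.mem_cons_of_mem (Multiset.mem_cons_self _ _))).2
          simp only at hm
          have hGl : G2 ≤ (x, n) ::ₘ (β, m) ::ₘ G2 :=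
            (Multiset.le_cons_self _ _).trans (Multiset.le_cons_self _ _)
          have hGc : Multiset.card G2 < Multiset.card ((x, n) ::ₘ (β, m) ::ₘ G2) := by simp
          have hG2 : ∀ z ∈ G2, (β : ℤ) ≤ z.1 := by
            intro z hz
            exact_mod_cast hB z hz
          have key : ∀ k : ℤ, (k = 1 ∨ k = 2) → k % 2 = m % 2 →
              GoodP y c d ((x, n) ::ₘ (β, m) ::ₘ G2) := by
            intro k hk hkm
            obtain ⟨N, M, h1, h2, h3⟩ := (IHg G2 hGl hGc).1 (1 - x + (k - 1) * β) (by
              intro z hz
              have := hG2 z hz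
              rcases hk with rfl | rfl
              · linarith
              · linarith)
            refine ⟨(y, c) :: (x, n) :: N, (y, d) :: (β, m) :: M, ?_, ?_, ?_⟩
            · rw [← h1]
              simp only [← Multiset.cons_coe, ← Multiset.singleton_add]
              abel
            · rw [alt_cons_min hg, alt_cons_min hB, ← h2]
              simp only [sz_cons]
              ring
            · apply tripletrick hy hyx hc hc2 hd hd2 hn2.1 hn2.2 le_rfl le_rfl
              apply Win.visit (by omega) hm k hkm (by omega) (by omega) le_rfl hy'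
              apply h3.mono le_rfl
              rcases hk with rfl | rfl
              · apply max_le
                · linarith
                · linarith
              · apply max_le
                · linarith
                · linarith
          rcases Nat.even_or_odd m with hev' | hod'
          · have := Nat.even_iff.1 hev'
            exact key 2 (Or.inr rfl) (by omega)
          · have := Nat.odd_iff.1 hod'
            exact key 1 (Or.inl rfl) (by omega)

/-- The ascending lemma. -/
theorem asc {G : Multiset (ℕ × ℕ)} (hnd : G.Nodup) (hok : ∀ x ∈ G, 1 ≤ x.1 ∧ 1 ≤ x.2)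
    {e : ℤ} (he : ∀ x ∈ G, e ≤ x.1) : Good e G :=
  (asc_main _ G rfl hnd hok).1 e he

end Pool.Agent.Lib.MP_404fd0_co
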