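import Mathlib
import Pool.Agent.Lib.MP_404fd0_co.Main

namespace Pool.Agent.Lib.MP_404fd0_co

/-- The near side and far side parts of a stacking of `G`. -/
def Split (G : Multiset (ℕ × ℕ)) (N M : List (ℕ × ℕ)) : Prop :=
  (N : Multiset (ℕ × ℕ)) + (M : Multiset (ℕ × ℕ)) = G ∧ sz N - sz M = alt G

theorem asc' {G : Multiset (ℕ × ℕ)} (hnd : G.Nodup) (hok : ∀ x ∈ G, 1 ≤ x.1 ∧ 1 ≤ x.2)
    {e : ℤ} (he : ∀ x ∈ G, e ≤ x.1) :
    ∃ N M, Split G N M ∧ ∀ lo hi : ℤ, lo ≤ e → 1 ≤ hi → e ≤ hi →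
      Win e lo hi (pos 0 N) (pos 0 M) := by
  obtain ⟨N, M, h1, h2, h3⟩ := asc hnd hok he
  exact ⟨N, M, ⟨h1, h2⟩, fun lo hi a b c => h3.mono a (max_le b c)⟩

theorem eng_start {G : Multiset (ℕ × ℕ)} (hnd : G.Nodup) (hok : ∀ x ∈ G, 1 ≤ x.1 ∧ 1 ≤ x.2)
    {z : ℤ} (h1 : 1 ≤ z) (hz : ∀ x ∈ G, z ≤ x.1) :
    ∃ N M, Split G N M ∧ Win z z z (pos 0 N) (pos 0 M) := by
  obtain ⟨N, M, h2, h3⟩ := asc' hnd hok hz
  exact ⟨N, M, h2, h3 _ _ le_rfl h1 le_rfl⟩

theorem eng_E1 {G : Multiset (ℕ × ℕ)} (hnd : G.Nodup) (hok : ∀ x ∈ G, 1 ≤ x.1 ∧ 1 ≤ x.2)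
    {b n : ℕ} {z : ℤ} (hb : 1 ≤ b) (h1 : 1 ≤ z) (h2 : z ≤ b)
    (hn : (2 ≤ z ∧ n % 2 = 0 ∧ 2 ≤ n) ∨ (z = 1 ∧ n % 2 = 1)) :
    ∃ N M, Split G N M ∧ Win z z z (pos 0 ((b, n) :: M)) (pos 0 N) := by
  have hb' : (1 : ℤ) ≤ b := by exact_mod_cast hb
  rcases hn with ⟨hz, hn1, hn2⟩ | ⟨hz, hn1⟩
  · obtain ⟨N, M, h3, h4⟩ := asc' (e := z - b) hnd hok (by
      intro x hx
      have := (hok x hx).1
      have : (1 : ℤ) ≤ x.1 := by exact_mod_cast this
      linarith)
    refine ⟨N, M, h3, ?_⟩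
    apply Win.visitBoth hb 0 (by omega) (by omega) (by omega) h2 h1
    have e1 : z + (0 - 1) * (b : ℤ) = z - b := by ring
    rw [e1]
    apply h4
    · exact le_rfl
    · linarith
    · linarith
  · subst hz
    obtain ⟨N, M, h3, h4⟩ := asc' (e := 1) hnd hok (by
      intro x hx
      have := (hok x hx).1
      exact_mod_cast this)
    refine ⟨N, M, h3, ?_⟩
    apply Win.visit hb (by omega) 1 (by omega) (by omega) (by omega) le_rfl le_rfl
    have e1 : 1 + (1 - 1) * (b : ℤ) = 1 := by ring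
    rw [e1]
    apply h4
    · exact le_rfl
    · linarith
    · linarith

theorem eng_I3 {G : Multiset (ℕ × ℕ)} (hnd : G.Nodup) (hok : ∀ x ∈ G, 1 ≤ x.1 ∧ 1 ≤ x.2)
    {b n x m : ℕ} {z : ℤ} (hx : 1 ≤ x) (h1 : 2 ≤ z) (h2 : z ≤ b)
    (hn1 : n % 2 = 0) (hn2 : 2 ≤ n) (hm : m % 2 = 1) (hzx : m = 1 ∨ 2 ≤ z - b + x) :
    ∃ N M, Split G N M ∧ Win z z z (pos 0 ((b, n) :: N)) (pos 0 ((x, m) :: M)) := by
  have hb : 1 ≤ b := by
    have : (1 : ℤ) ≤ b := by linarith
    exact_mod_cast this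
  have hx' : (1 : ℤ) ≤ x := by exact_mod_cast hx
  obtain ⟨N, M, h3, h4⟩ := asc' (e := z - b) hnd hok (by
    intro x hx
    have := (hok x hx).1
    have : (1 : ℤ) ≤ x.1 := by exact_mod_cast this
    linarith)
  refine ⟨N, M, h3, ?_⟩
  apply Win.visitBoth hb 0 (by omega) (by omega) (by omega) h2 (by linarith)
  have e1 : z + (0 - 1) * (b : ℤ) = z - b := by ring
  rw [e1]
  rcases Nat.eq_or_lt_of_le (show 1 ≤ m by omega) with hm1 | hm1
  · subst hm1
    apply Win.visitTop hx le_rfl (by linarith) (by linarith)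
    have e2 : z - (b : ℤ) + ((1 : ℕ) - 1) * (x : ℤ) = z - b := by push_cast; ring
    rw [e2]
    apply h4
    · exact le_rfl
    · push_cast; linarith
    · push_cast; linarith
  · have h5 : 2 ≤ z - b + x := by
      rcases hzx with h | h
      · omega
      · exact h
    apply Win.visitBoth hx 1 (by omega) (by omega) (by omega) (by linarith) (by linarith)
    have e2 : z - (b : ℤ) + (1 - 1) * (x : ℤ) = z - b := by ring
    rw [e2]
    apply h4
    · exact le_rfl
    · linarith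
    · linarith

theorem eng_I5 {G : Multiset (ℕ × ℕ)} (hnd : G.Nodup) (hok : ∀ x ∈ G, 1 ≤ x.1 ∧ 1 ≤ x.2)
    {b n x m : ℕ} {z : ℤ} (h1 : 2 ≤ z) (h2 : z ≤ x) (hxb : x ≤ b)
    (hn1 : n % 2 = 1) (hm : m % 2 = 0) (hm2 : 2 ≤ m) :
    ∃ N M, Split G N M ∧ Win z z z (pos 0 ((b, n) :: N)) (pos 0 ((x, m) :: M)) := by
  have hx : 1 ≤ x := by
    have : (1 : ℤ) ≤ x := by linarith
    exact_mod_cast this
  have hxb' : (x : ℤ) ≤ b := by exact_mod_cast hxb
  obtain ⟨N, M, h3, h4⟩ := asc' (e := z - x) hnd hok (by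
    intro x hx
    have := (hok x hx).1
    have : (1 : ℤ) ≤ x.1 := by exact_mod_cast this
    linarith)
  refine ⟨N, M, h3, ?_⟩
  have key : Win z z b (pos 0 ((x, m) :: M)) (pos 0 N) := by
    apply Win.visitBoth hx 0 (by omega) (by omega) (by omega) h2 (by linarith)
    have e1 : z + (0 - 1) * (x : ℤ) = z - x := by ring
    rw [e1]
    apply h4
    · exact le_rfl
    · linarith
    · linarith
  rcases Nat.eq_or_lt_of_le (show 1 ≤ n by omega) with hn | hn
  · subst hn
    apply Win.visitTop (hx.trans hxb) le_rfl (by linarith) (by linarith)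
    have e2 : z + (((1 : ℕ) : ℤ) - 1) * (b : ℤ) = z := by push_cast; ring
    rw [e2]
    apply key.mono le_rfl
    push_cast; linarith
  · apply Win.visitBoth (hx.trans hxb) 1 (by omega) (by omega) (by omega) (by linarith)
      (by linarith)
    have e2 : z + (1 - 1) * (b : ℤ) = z := by ring
    rw [e2]
    apply key.mono le_rfl
    linarith

/-- Two blocks of the same size `b` and one block `(s, 1)` with `b < s ≤ 2 b`. -/
theorem eng_k1 {b a c s : ℕ} (hb : 1 ≤ b) (ha : 2 ≤ a) (hc : 2 ≤ c) (hs1 : b + 1 ≤ s)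
    (hs2 : s ≤ 2 * b) : Win s s s (pos 0 [(b, a), (s, 1)]) (pos 0 [(b, c)]) := by
  have hb' : (1 : ℤ) ≤ b := by exact_mod_cast hb
  have hs1' : (b : ℤ) + 1 ≤ s := by exact_mod_cast hs1
  have hs2' : (s : ℤ) ≤ 2 * b := by exact_mod_cast hs2
  have hdone : ∀ (T lo hi : ℤ) (p q : ℤ),
      Win T lo hi ((0, b, 0) ::ₘ {(p, s, 0)}) ((q, b, 0) ::ₘ 0) := by
    intro T lo hi p q
    apply Win.done
    · intro x hx
      simp at hx
      rcases hx with rfl | rfl <;> rfl
    · intro x hx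
      simp at hx
      rw [hx]
  have key : ∀ (κ : ℤ) (m : ℕ), (κ = -1 ∨ κ = -2) → (m = 1 ∨ m = 2) →
      (κ + m) % 2 = a % 2 → 2 ≤ 2 * (s : ℤ) + κ * b → 2 * (s : ℤ) + κ * b ≤ 2 * b →
      Win s s s (pos 0 [(b, a), (s, 1)]) (pos 0 [(b, c)]) := by
    intro κ m hκ hm hpar h1 h2
    simp only [pos_cons, pos_nil, zero_add]
    rw [Multiset.cons_swap]
    apply Win.top _ _ _ _ _ 0 _ _ (by linarith) (by linarith)
    rw [Multiset.cons_swap]
    apply Win.swap' (lo' := s - b) (hi' := s) _ (by linarith) (by linarith)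
    have ec : c = (c - m) + m := by omega
    rw [ec]
    apply Win.bots hb m _ _ (by linarith) (by linarith) (by omega)
    have ea : a = 0 + a := by omega
    have hm' : (m : ℤ) = 1 ∨ (m : ℤ) = 2 := by
      rcases hm with rfl | rfl
      · left; rfl
      · right; rfl
    have hmb : (m : ℤ) * b ≤ 2 * b := by
      rcases hm' with h | h
      · rw [h]; linarith
      · rw [h]
    have hmb1 : (b : ℤ) ≤ m * b := by
      rcases hm' with h | h <;> rw [h] <;> linarith
    apply Win.swap' (lo' := s - m * b) (hi' := 2 * s - m * b - 1) _ (by linarith) (by linarith)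
    rw [ea]
    apply Win.net hb a (κ + m) hpar (by omega) (by omega) (by linarith) (by linarith)
    refine Win.swap' (lo' := 2 * s + κ * b - b) (hi' := 2 * s + κ * b - 1) ?_ ?_ ?_
    · rcases Nat.eq_zero_or_pos (c - m) with h0 | h0
      · rw [h0]
        apply Win.done
        · intro x hx
          simp at hx
          rw [hx]
        · intro x hx
          simp at hx
          rcases hx with rfl | rfl <;> rfl
      · have e0 : c - m = 0 + (c - m) := by omega
        rw [e0]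
        apply Win.tops hb (c - m) _ _ (by linarith) (by linarith) (by omega)
        apply Win.done
        · intro x hx
          simp at hx
          rw [hx]
        · intro x hx
          simp at hx
          rcases hx with rfl | rfl <;> rfl
    · have e1 : (s : ℤ) + s - m * b + (κ + m) * b = 2 * s + κ * b := by ring
      rw [e1]
      linarith
    · have e1 : (s : ℤ) + s - m * b + (κ + m) * b = 2 * s + κ * b := by ring
      rw [e1]
      linarith
  rcases le_or_gt (2 * (s : ℤ)) (3 * b) with h | h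
  · rcases Nat.even_or_odd a with h2 | h2
    · have := Nat.even_iff.1 h2
      exact key (-1) 1 (Or.inl rfl) (Or.inl rfl) (by push_cast; omega) (by linarith)
        (by linarith)
    · have := Nat.odd_iff.1 h2
      exact key (-1) 2 (Or.inl rfl) (Or.inr rfl) (by push_cast; omega) (by linarith)
        (by linarith)
  · rcases Nat.even_or_odd a with h2 | h2
    · have := Nat.even_iff.1 h2
      exact key (-2) 2 (Or.inr rfl) (Or.inr rfl) (by push_cast; omega) (by linarith)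
        (by linarith)
    · have := Nat.odd_iff.1 h2
      exact key (-2) 1 (Or.inr rfl) (Or.inl rfl) (by push_cast; omega) (by linarith)
        (by linarith)

end Pool.Agent.Lib.MP_404fd0_co
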