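import Mathlib
import Pool.Agent.Lib.MP_404fd0_co.Engines

namespace Pool.Agent.Lib.MP_404fd0_co

theorem split_cons {g : ℕ × ℕ} {G : Multiset (ℕ × ℕ)} (hmin : ∀ x ∈ G, g.1 ≤ x.1)
    {N M : List (ℕ × ℕ)} (h : Split G N M) : Split (g ::ₘ G) (g :: M) N := by
  obtain ⟨h1, h2⟩ := h
  refine ⟨?_, ?_⟩
  · rw [coe_cons_add, h1]
  · obtain ⟨b, n⟩ := g
    rw [sz_cons, alt_cons_min hmin, ← h2]
    ring

/-- Two blocks of equal size, even case, from a wide window. -/
theorem tieEvenW {e lo hi : ℤ} {y c d r : ℕ} {N M : List (ℕ × ℕ)} (hy : 1 ≤ y) (hr : 1 ≤ r)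
    (he : e = 1 - r * y) (hlo : lo ≤ 0) (hhi : 1 ≤ hi)
    (hc : c % 2 = r % 2) (hc2 : r + 2 ≤ c) (hd : d % 2 = 0) (hd2 : 2 ≤ d)
    (h : Win 1 1 1 (pos 0 N) (pos 0 M)) :
    Win e lo hi (pos 0 ((y, c) :: N)) (pos 0 ((y, d) :: M)) := by
  have hy' : (1 : ℤ) ≤ y := by exact_mod_cast hy
  have hr' : (1 : ℤ) ≤ r := by exact_mod_cast hr
  rw [pos_cons, pos_cons]
  obtain ⟨c', rfl⟩ : ∃ c', c = (0 + c') + r := ⟨c - r, by omega⟩
  apply Win.tops hy r _ _ (by linarith) (by linarith) hr
  have e0 : e + r * y = 1 := by rw [he]; ring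
  rw [e0]
  apply Win.swap' (lo' := 1 - y) (hi' := 1 - lo) _ (by linarith) (by linarith)
  obtain ⟨d', rfl⟩ : ∃ d', d = (0 + d') + 1 := ⟨d - 1, by omega⟩
  apply Win.top _ _ _ _ _ _ _ _ (by linarith) (by linarith)
  apply Win.swap' (lo' := 1) (hi' := 1) _ (by linarith) (by linarith)
  apply Win.net hy c' 0 (by omega) (by omega) (by omega) (by linarith) (by linarith)
  apply Win.swap' (lo' := 1) (hi' := y) _ (by linarith) (by linarith)
  apply Win.net1 hy d' 1 (by omega) (by omega) (by omega) (by omega) (by linarith) (by linarith)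
  apply Win.swap' (lo' := 1 + y) (hi' := 1 + y) _ (by linarith) (by linarith)
  apply Win.zeroA
  apply Win.zeroB
  have := h.shift y y
  rw [sh_pos, sh_pos] at this
  have e1 : (1 : ℤ) + y + 0 * y + 1 * y = 1 + y + y := by ring
  rw [e1]
  exact this

/-- Entering the chain from a wide window. -/
theorem tieOddW {e lo hi : ℤ} {y c d r : ℕ} {N M : List (ℕ × ℕ)} (hy : 1 ≤ y) (hr : 1 ≤ r)
    (he : e = 1 - r * y) (hlo : lo ≤ 0) (hhi : 1 ≤ hi)
    (h : Win (1 + y) 1 (2 * y) ((0, y, c) ::ₘ pos y N) ((0, y, d) ::ₘ pos y M)) :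
    Win e lo hi (pos 0 ((y, c + r) :: N)) (pos 0 ((y, d + 1) :: M)) := by
  have hy' : (1 : ℤ) ≤ y := by exact_mod_cast hy
  have hr' : (1 : ℤ) ≤ r := by exact_mod_cast hr
  rw [pos_cons, pos_cons]
  apply Win.tops hy r _ _ (by linarith) (by linarith) hr
  have e0 : e + r * y = 1 := by rw [he]; ring
  rw [e0]
  apply Win.swap' (lo' := 1 - y) (hi' := 1 - lo) _ (by linarith) (by linarith)
  apply Win.top _ _ _ _ _ _ _ _ (by linarith) (by linarith)
  apply Win.swap' (lo' := 1) (hi' := 2 * y) _ (by linarith) (by linarith)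
  have e1 : (0 : ℤ) + y = y := by ring
  rw [e1]
  exact h

/-- One block from a wide window, no bad residue. -/
theorem tryW {e lo hi : ℤ} {y n d : ℕ} {G : Multiset (ℕ × ℕ)} (hy : 1 ≤ y) (hn : 1 ≤ n)
    (hyd : y ≤ d) (hmin : ∀ x ∈ G, d ≤ x.1) (he : e ≤ 0) (hlo : lo ≤ 0) (hhi : 1 ≤ hi)
    (hny : lo - e + 1 ≤ n * y) (hnd : G.Nodup) (hok : ∀ x ∈ G, 1 ≤ x.1 ∧ 1 ≤ x.2)
    (hbad : d = y → ¬ ∃ k : ℤ, e = 1 - k * y ∧ k % 2 = n % 2 ∧ k ≤ (n : ℤ) - 2) :
    ∃ N M, Split ((y, n) ::ₘ G) N M ∧ Win e lo hi (pos 0 N) (pos 0 M) := by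
  have hy' : (1 : ℤ) ≤ y := by exact_mod_cast hy
  have hn' : (1 : ℤ) ≤ n := by exact_mod_cast hn
  have hyd' : (y : ℤ) ≤ d := by exact_mod_cast hyd
  have hmin' : ∀ x ∈ G, y ≤ x.1 := fun x hx => hyd.trans (hmin x hx)
  obtain ⟨D, hD1, hD2, hD3⟩ : ∃ D : ℤ, D ≤ d ∧ y ≤ D ∧ (D = y + 1 ∨ (D = y ∧ d = y)) := by
    rcases Nat.lt_or_ge y d with h | h
    · refine ⟨y + 1, ?_, by linarith, Or.inl rfl⟩
      have : (y : ℤ) < d := by exact_mod_cast h
      linarith
    · exact ⟨y, hyd', le_rfl, Or.inr ⟨rfl, by omega⟩⟩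
  set a : ℤ := e + ((n : ℤ) - 1) * y with ha
  set q : ℤ := (D - a) / (2 * y) with hq
  set r : ℤ := (D - a) % (2 * y) with hr
  have hr0 : 0 ≤ r := Int.emod_nonneg _ (by linarith)
  have hr1 : r < 2 * y := Int.emod_lt_of_pos _ (by linarith)
  have hqr : 2 * y * q + r = D - a := Int.mul_ediv_add_emod _ _
  have hGe : ∀ e' : ℤ, e' ≤ D → ∀ x ∈ G, e' ≤ x.1 := by
    intro e' h1 x hx
    have : (d : ℤ) ≤ x.1 := by exact_mod_cast hmin x hx
    linarith
  rcases le_or_gt 0 q with hq0 | hq0
  · have haD : a ≤ D := by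
      have : 0 ≤ 2 * y * q := by positivity
      linarith
    obtain ⟨N, M, h1, h2⟩ := asc' (e := a) hnd hok (hGe a haD)
    refine ⟨(y, n) :: M, N, split_cons hmin' h1, ?_⟩
    apply Win.visitTop hy hn (by linarith) hhi
    have e1 : e + (n : ℤ) * y = a + y := by rw [ha]; ring
    rw [e1]
    apply h2
    · exact le_rfl
    · linarith
    · linarith
  · have hk : e + ((n + 2 * q : ℤ) - 1) * y = D - r := by
      have : e + ((n + 2 * q : ℤ) - 1) * y = a + 2 * y * q := by rw [ha]; ring
      rw [this]; linarith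
    have hlow : 2 - (y : ℤ) ≤ D - r := by
      rcases hD3 with h | ⟨h, h'⟩
      · linarith
      · by_contra hcon
        apply hbad h'
        refine ⟨n + 2 * q, ?_, by omega, by omega⟩
        have : D - r = 1 - y := by
          have : r ≥ 2 * y - 1 := by linarith
          have : r = 2 * y - 1 := by omega
          linarith
        linarith
    have hkpos : 0 < n + 2 * q := by
      by_contra hcon
      have h1 : (n + 2 * q : ℤ) ≤ 0 := by linarith
      have h2 : ((n + 2 * q : ℤ) - 1) * y ≤ -y := by nlinarith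
      have h3 : e + ((n + 2 * q : ℤ) - 1) * y ≤ 1 - y := by linarith
      rw [hk] at h3
      linarith
    obtain ⟨N, M, h1, h2⟩ := asc' (e := D - r) hnd hok (hGe _ (by linarith))
    refine ⟨(y, n) :: M, N, split_cons hmin' h1, ?_⟩
    apply Win.visit hy hn (n + 2 * q) (by omega) (by omega) (by omega) (by linarith) hhi
    have e1 : e + (n + 2 * q) * (y : ℤ) = D - r + y := by rw [← hk]; ring
    rw [hk, e1]
    apply h2
    · exact le_rfl
    · linarith
    · linarith

/-- The ascending lemma from a wide window. -/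
theorem ascW {G : Multiset (ℕ × ℕ)} (hnd : G.Nodup) (hok : ∀ x ∈ G, 1 ≤ x.1 ∧ 1 ≤ x.2)
    {e lo hi : ℤ} (he : e ≤ 0) (hlo : lo ≤ 0) (hhi : 1 ≤ hi)
    (hny : ∀ g ∈ G, (∀ x ∈ G, g.1 ≤ x.1) → lo - e + 1 ≤ g.2 * g.1) :
    ∃ N M, Split G N M ∧ Win e lo hi (pos 0 N) (pos 0 M) := by
  classical
  by_cases h0 : G = 0
  · subst h0
    refine ⟨[], [], ⟨by simp, by simp [sz_nil, alt_zero]⟩, ?_⟩
    exact Win.done _ _ _ _ _ (by simp [pos_nil]) (by simp [pos_nil])
  obtain ⟨g, G', rfl, hg⟩ := exists_min h0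
  obtain ⟨y, n⟩ := g
  simp only at hg
  obtain ⟨hy, hn⟩ := hok (y, n) (Multiset.mem_cons_self _ _)
  simp only at hy hn
  have hy' : (1 : ℤ) ≤ y := by exact_mod_cast hy
  have hgmin : ∀ x ∈ (y, n) ::ₘ G', y ≤ x.1 := by
    intro x hx
    rcases Multiset.mem_cons.1 hx with rfl | hx
    · exact le_rfl
    · exact hg x hx
  have hG'le : G' ≤ (y, n) ::ₘ G' := Multiset.le_cons_self _ _
  have hnd' : G'.Nodup := Multiset.nodup_of_le hG'le hnd
  have hok' : ∀ x ∈ G', 1 ≤ x.1 ∧ 1 ≤ x.2 := fun x hx => hok x (Multiset.mem_cons_of_mem hx)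
  by_cases htie : ∀ x ∈ G', y + 1 ≤ x.1
  · exact tryW (d := y + 1) hy hn (by omega) htie he hlo hhi
      (hny (y, n) (Multiset.mem_cons_self _ _) hgmin) hnd' hok' (by intro h; omega)
  push Not at htie
  obtain ⟨h, hhG, hh⟩ := htie
  have hh1 : h.1 = y := by
    have := hg h hhG
    omega
  by_cases hB : ∀ x ∈ (y, n) ::ₘ G', x.1 = y →
      ∃ k : ℤ, e = 1 - k * y ∧ k % 2 = x.2 % 2 ∧ k ≤ (x.2 : ℤ) - 2
  · obtain ⟨k, hk1, hk2, hk3⟩ := hB (y, n) (Multiset.mem_cons_self _ _) rfl
    simp only at hk2 hk3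
    have hk0 : 1 ≤ k := by
      by_contra hcon
      have : k ≤ 0 := by omega
      have : k * y ≤ 0 := by nlinarith
      linarith
    lift k to ℕ using (by omega) with r hr
    have hr1 : 1 ≤ r := by exact_mod_cast hk0
    have hall : ∀ x ∈ (y, n) ::ₘ G', x.1 = y → x.2 % 2 = r % 2 ∧ r + 2 ≤ x.2 := by
      intro x hx hxy
      obtain ⟨k', h1, h2, h3⟩ := hB x hx hxy
      have : k' = r := by
        have h4 : (k' - r) * y = 0 := by linarith
        rcases mul_eq_zero.1 h4 with h5 | h5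
        · linarith
        · linarith
      subst this
      omega
    obtain ⟨G'', rfl⟩ := Multiset.exists_cons_of_mem hhG
    obtain ⟨y', d⟩ := h
    simp only at hh1
    subst hh1
    have hmin'' : ∀ x ∈ G'', y' ≤ x.1 := fun x hx => hg x (Multiset.mem_cons_of_mem hx)
    have hn1 := hall (y', n) (Multiset.mem_cons_self _ _) rfl
    have hd1 := hall (y', d) (Multiset.mem_cons_of_mem (Multiset.mem_cons_self _ _)) rfl
    simp only at hn1 hd1
    have halt : alt ((y', n) ::ₘ (y', d) ::ₘ G'') = alt G'' := by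
      rw [alt_cons_min hg, alt_cons_min hmin'']
      ring
    rcases Nat.even_or_odd r with hre | hro
    · have hre2 : r % 2 = 0 := Nat.even_iff.1 hre
      have hnd'' : G''.Nodup := Multiset.nodup_of_le (Multiset.le_cons_self _ _) hnd'
      obtain ⟨N, M, ⟨h1, h2⟩, h3⟩ := asc' (e := 1) hnd''
        (fun x hx => hok' x (Multiset.mem_cons_of_mem hx)) (by
        intro x hx
        have := hmin'' x hx
        have : (y' : ℤ) ≤ x.1 := by exact_mod_cast this
        linarith)
      refine ⟨(y', n) :: N, (y', d) :: M, ⟨?_, ?_⟩, ?_⟩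
      · rw [← h1, ← Multiset.cons_coe, ← Multiset.cons_coe, Multiset.cons_add,
          Multiset.add_cons]
      · rw [halt, ← h2, sz_cons, sz_cons]
        ring
      · apply tieEvenW hy hr1 hk1 hlo hhi (by omega) (by omega) (by omega) (by omega)
        exact h3 1 1 le_rfl le_rfl le_rfl
    · have hro2 : r % 2 = 1 := Nat.odd_iff.1 hro
      set F : Multiset (ℕ × ℕ) := (y', n) ::ₘ (y', d) ::ₘ G'' with hF
      set K0 := F.filter (fun x => x.1 = y') with hK0
      set R := F.filter (fun x => ¬ x.1 = y') with hR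
      have hsplit : K0 + R = F := Multiset.filter_add_not _ _
      have hK0f : K0 = (y', n) ::ₘ (y', d) ::ₘ G''.filter (fun x => x.1 = y') := by
        rw [hK0, hF, Multiset.filter_cons_of_pos, Multiset.filter_cons_of_pos]
        · rfl
        · rfl
      have hK0ne : K0 ≠ 0 := by
        rw [hK0f]; exact Multiset.cons_ne_zero
      obtain ⟨A, K1, hA1, hA2⟩ := exists_min2 hK0ne
      have hK1ne : K1 ≠ 0 := by
        rintro rfl
        have h5 : Multiset.card K0 = 1 := by rw [hA1]; rfl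
        rw [hK0f] at h5
        simp at h5
      obtain ⟨B, K, hB1, hB2⟩ := exists_min2 hK1ne
      rw [hB1] at hA1
      have hKnd : K0.Nodup := Multiset.nodup_of_le (Multiset.filter_le _ _) hnd
      have hKall : ∀ x ∈ K0, x.1 = y' ∧ x.2 % 2 = 1 ∧ r + 2 ≤ x.2 := by
        intro x hx
        rw [hK0, Multiset.mem_filter] at hx
        have := hall x hx.1 hx.2
        exact ⟨hx.2, by omega, this.2⟩
      obtain ⟨ya, a⟩ := A
      obtain ⟨yb, b⟩ := B
      obtain ⟨hya, ha2, ha3⟩ := hKall (ya, a) (by rw [hA1]; simp)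
      obtain ⟨hyb, hb2, hb3⟩ := hKall (yb, b) (by rw [hA1]; simp)
      simp only at hya ha2 ha3 hyb hb2 hb3
      subst hya
      subst hyb
      rw [hA1] at hKnd
      rw [Multiset.nodup_cons, Multiset.nodup_cons] at hKnd
      obtain ⟨hnd1, hnd2, hnd3⟩ := hKnd
      have hab : a + 2 ≤ b := by
        have h5 : a ≤ b := hA2 (yb, b) (by rw [hB1]; simp)
        have h6 : a ≠ b := by
          rintro rfl
          apply hnd1
          simp
        omega
      have hRge : ∀ x ∈ R, yb + 1 ≤ x.1 := by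
        intro x hx
        rw [hR, Multiset.mem_filter] at hx
        have h5 : yb ≤ x.1 := by
          rcases Multiset.mem_cons.1 hx.1 with rfl | h6
          · exact le_rfl
          · exact hg x h6
        have h6 := hx.2
        omega
      have hRgood : Good (1 + yb) R := by
        apply asc (Multiset.nodup_of_le (Multiset.filter_le _ _) hnd)
        · intro x hx
          exact hok x (Multiset.mem_of_le (Multiset.filter_le _ _) hx)
        · intro x hx
          have := hRge x hx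
          have : (yb : ℤ) + 1 ≤ x.1 := by exact_mod_cast this
          linarith
      obtain ⟨N, M, h1, h2, h3⟩ := chain hy (fun x hx => (by
          have := hRge x hx; omega : yb ≤ x.1)) hRgood (Multiset.card K) K (a - r) (b - 1)
        rfl hnd3 (by
          intro x hx
          have hx0 : x ∈ K0 := by rw [hA1]; simp [hx]
          obtain ⟨x1, x2, x3⟩ := hKall x hx0
          have h5 : b ≤ x.2 := hB2 x hx
          have h6 : b ≠ x.2 := by
            intro h
            apply hnd2
            have : ((yb, b) : ℕ × ℕ) = x := Prod.ext x1.symm h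
            rw [this]
            exact hx
          exact ⟨x1, x2, by omega, by omega⟩) (by omega) (by omega) (by omega) (by omega)
      refine ⟨(yb, a) :: N, (yb, b) :: M, ⟨?_, ?_⟩, ?_⟩
      · rw [← Multiset.cons_coe, ← Multiset.cons_coe, Multiset.cons_add,
          Multiset.add_cons, h1, ← hsplit, hA1, Multiset.cons_add, Multiset.cons_add]
      · have h5 : alt F = alt (K + R) := by
          rw [← hsplit, hA1, Multiset.cons_add, Multiset.cons_add]
          have hmin1 : ∀ x ∈ K + R, yb ≤ x.1 := by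
            intro x hx
            rcases Multiset.mem_add.1 hx with hx | hx
            · have hx0 : x ∈ K0 := by rw [hA1]; simp [hx]
              exact (hKall x hx0).1.ge
            · have := hRge x hx
              omega
          rw [alt_cons_min, alt_cons_min hmin1]
          · ring
          · intro x hx
            rcases Multiset.mem_cons.1 hx with rfl | hx
            · exact le_rfl
            · exact hmin1 x hx
        rw [h5, sz_cons, sz_cons, ← h2]
        ring
      · have h5 := tieOddW (r := r) hy hr1 hk1 hlo hhi h3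
        have e1 : a - r + r = a := by omega
        have e2 : b - 1 + 1 = b := by omega
        rw [e1, e2] at h5
        exact h5
  · push Not at hB
    obtain ⟨x, hx, hxy, hxb⟩ := hB
    obtain ⟨G1, hG1⟩ := Multiset.exists_cons_of_mem hx
    obtain ⟨y', n'⟩ := x
    simp only at hxy hxb
    subst hxy
    have hG1le : G1 ≤ (y', n) ::ₘ G' := by rw [hG1]; exact Multiset.le_cons_self _ _
    have hny' := hny (y', n') hx hgmin
    rw [hG1]
    apply tryW (d := y') hy (hok _ hx).2 le_rfl
    · intro z hz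
      exact hgmin z (Multiset.mem_of_le hG1le hz)
    · exact he
    · exact hlo
    · exact hhi
    · exact hny'
    · exact Multiset.nodup_of_le hG1le hnd
    · intro z hz
      exact hok z (Multiset.mem_of_le hG1le hz)
    · rintro - ⟨k, h1, h2, h3⟩
      have := hxb k h1 h2
      linarith

end Pool.Agent.Lib.MP_404fd0_co
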