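import Mathlib
import Pool.Agent.Lib.MP_404fd0_co.Wide

namespace Pool.Agent.Lib.MP_404fd0_co

/-- Net `k` with all `m` leaves, all tops only when the window starts low. -/
theorem Win.net4 {T lo hi s : ℤ} {b n : ℕ} {A B : Multiset Blk} (hb : 1 ≤ b) (m : ℕ) (k : ℤ)
    (hm : 1 ≤ m) (hpar : k % 2 = m % 2) (hk1 : k ≤ (m : ℤ)) (hk2 : -((m : ℤ) - 2) ≤ k)
    (h1 : s + 1 ≤ hi) (h2 : lo ≤ s + b) (hor : k ≤ (m : ℤ) - 2 ∨ lo ≤ s + 1)
    (h : Win (T + k * b) (s + 1) (s + b) ((s, b, n) ::ₘ A) B) :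
    Win T lo hi ((s, b, n + m) ::ₘ A) B := by
  rcases hor with h3 | h3
  · exact Win.net hb m k hpar h3 hk2 h1 h2 h
  · exact Win.net1 hb m k hm hpar hk1 hk2 h1 h3 h

theorem eng_ABcH {F : Multiset (ℕ × ℕ)} (hnd : F.Nodup) (hok : ∀ x ∈ F, 1 ≤ x.1 ∧ 1 ≤ x.2)
    {b n y a c s : ℕ} {d kA K : ℤ} (hy : 1 ≤ y) (hyb : y ≤ b) (hn1 : n % 2 = 0) (hn2 : 2 ≤ n)
    (hs : (s : ℤ) = b + d) (hd1 : 1 ≤ d) (hdy : d ≤ y)
    (hkA : kA = 0 ∨ kA = 1) (hkA2 : kA % 2 = a % 2) (ha2 : 2 ≤ a) (hkA0 : kA = 0 → 2 ≤ d)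
    (hK : K = 1 ∨ K = 2 ∨ K = 3) (hK1 : K = 1 → 2 ≤ d)
    (hc1 : (K - kA + 1) % 2 = ((c : ℤ) - 1) % 2) (hc2 : K - kA + 1 ≤ (c : ℤ) - 1)
    (hc3 : K - kA + 1 ≤ (c : ℤ) - 3 ∨ d + (kA - 1) * y ≤ 1)
    (he : ∀ x ∈ F, d + (K - 2) * y ≤ x.1) :
    ∃ N M, Split F N M ∧
      Win s s s (pos 0 ((b, n) :: (y, a) :: (s, 1) :: M)) (pos 0 ((y, c) :: N)) := by
  have hy' : (1 : ℤ) ≤ y := by exact_mod_cast hy
  have hyb' : (y : ℤ) ≤ b := by exact_mod_cast hyb
  have hb : 1 ≤ b := hy.trans hyb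
  have hs1 : (1 : ℤ) ≤ s := by linarith
  have hs2 : 1 ≤ s := by exact_mod_cast hs1
  obtain ⟨N, M, h1, h2⟩ := asc' (e := d + (K - 2) * y) hnd hok he
  refine ⟨N, M, h1, ?_⟩
  have hfin := h2 (d + (K - 2) * y) s le_rfl hs1 (by
    rcases hK with rfl | rfl | rfl
    · linarith
    · linarith
    · linarith)
  have hu0 : 0 ≤ kA * y := by
    rcases hkA with rfl | rfl
    · simp
    · linarith
  have hu1 : kA * y ≤ y := by
    rcases hkA with rfl | rfl
    · simp
    · linarith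
  have hu2 : 2 ≤ d + kA * y := by
    rcases hkA with rfl | rfl
    · have := hkA0 rfl
      linarith
    · linarith
  have hw1 : y + 2 ≤ d + K * y := by
    rcases hK with rfl | rfl | rfl
    · have := hK1 rfl
      linarith
    · linarith
    · linarith
  have hw2 : K * y ≤ b + 2 * y := by
    rcases hK with rfl | rfl | rfl
    · linarith
    · linarith
    · linarith
  simp only [pos_cons, zero_add]
  rw [Multiset.cons_swap]
  have ea : a = 0 + a := by omega
  rw [ea]
  apply Win.net hy a kA (by omega) (by omega) (by omega) (by linarith) (by linarith)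
  apply Win.zeroA
  apply Win.swap' (lo' := s + kA * y - b - y) (hi' := s + kA * y - b - 1) _ (by linarith)
    (by linarith)
  obtain ⟨c', rfl⟩ : ∃ c', c = (0 + c') + 1 := ⟨c - 1, by omega⟩
  apply Win.bot _ _ _ _ _ _ _ _ (by linarith) (by linarith)
  apply Win.swap' (lo' := b - y + 1) (hi' := s + kA * y - y - 1) _ (by linarith) (by linarith)
  have en : n = 0 + n := by omega
  rw [en]
  apply Win.net hb n 0 (by omega) (by omega) (by omega) (by linarith) (by linarith)
  apply Win.zeroA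
  apply Win.swap' (lo' := s + kA * y - y - b) (hi' := s + kA * y - y - 1) _ (by linarith)
    (by linarith)
  apply Win.net4 hy c' (K - kA + 1) (by omega) (by omega) (by omega) (by omega) (by linarith)
    (by linarith)
  · rcases hc3 with h3 | h3
    · left
      push_cast at h3
      linarith
    · right
      linarith
  apply Win.zeroA
  apply Win.swap' (lo' := s + K * y - y) (hi' := s + K * y - 1) _ (by linarith) (by linarith)
  have e1 : (1 : ℕ) = 0 + 1 := rfl
  rw [e1]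
  apply Win.top _ _ _ _ _ _ _ _ (by linarith) (by linarith)
  apply Win.zeroA
  apply Win.swap' (lo' := d + (K - 2) * y + y) (hi' := s + y) _ (by linarith) (by linarith)
  have := hfin.shift y (b + y + s)
  rw [sh_pos, sh_pos] at this
  have e2 : d + (K - 2) * y + y + (b + y + s) =
      (s : ℤ) + kA * y - y + 0 * b + (K - kA + 1) * y + s := by rw [hs]; ring
  rw [e2] at this
  simpa using this

theorem eng_ABcL {F : Multiset (ℕ × ℕ)} (hnd : F.Nodup) (hok : ∀ x ∈ F, 1 ≤ x.1 ∧ 1 ≤ x.2)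
    {b n y a c s : ℕ} (hy : 1 ≤ y) (hyb : y ≤ b) (hn1 : n % 2 = 0) (hn2 : 2 ≤ n)
    (hs : s = b + 1) (ha : a % 2 = 0) (ha2 : 2 ≤ a) (hc : c % 2 = 0) (hc2 : 2 ≤ c) :
    ∃ N M, Split F N M ∧
      Win s s s (pos 0 ((b, n) :: (y, a) :: M)) (pos 0 ((y, c) :: N)) := by
  have hy' : (1 : ℤ) ≤ y := by exact_mod_cast hy
  have hyb' : (y : ℤ) ≤ b := by exact_mod_cast hyb
  have hb : 1 ≤ b := hy.trans hyb
  have hs' : (s : ℤ) = b + 1 := by rw [hs]; push_cast; ring
  obtain ⟨N, M, h1, h2⟩ := asc' (e := 1) hnd hok (by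
    intro x hx
    have := (hok x hx).1
    exact_mod_cast this)
  refine ⟨N, M, h1, ?_⟩
  have hfin := h2 1 y le_rfl hy' hy'
  simp only [pos_cons, zero_add]
  rw [Multiset.cons_swap]
  obtain ⟨a', rfl⟩ : ∃ a', a = (0 + a') + 1 := ⟨a - 1, by omega⟩
  apply Win.top _ _ _ _ _ _ _ _ (by linarith) (by linarith)
  apply Win.swap' (lo' := 1) (hi' := y) _ (by linarith) (by linarith)
  obtain ⟨c', rfl⟩ : ∃ c', c = (0 + c') + 1 := ⟨c - 1, by omega⟩
  apply Win.bot _ _ _ _ _ _ _ _ (by linarith) (by linarith)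
  apply Win.swap' (lo' := b + 1 - y) (hi' := b) _ (by linarith) (by linarith)
  rw [Multiset.cons_swap]
  have en : n = 0 + n := by omega
  rw [en]
  apply Win.net hb n 0 (by omega) (by omega) (by omega) (by linarith) (by linarith)
  apply Win.zeroA
  apply Win.swap' (lo' := 1) (hi' := b) _ (by linarith) (by linarith)
  apply Win.net1 hy c' 1 (by omega) (by omega) (by omega) (by omega) (by linarith) (by linarith)
  apply Win.zeroA
  apply Win.swap' (lo' := b + 1) (hi' := b + y) _ (by linarith) (by linarith)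
  apply Win.net1 hy a' 1 (by omega) (by omega) (by omega) (by omega) (by linarith) (by linarith)
  apply Win.zeroA
  apply Win.swap' (lo' := 1 + y) (hi' := y + y) _ (by linarith) (by linarith)
  have := hfin.shift y (b + y)
  rw [sh_pos, sh_pos] at this
  have e2 : (1 : ℤ) + y + (b + y) = (s : ℤ) + y - y + 0 * b + 1 * y + 1 * y := by
    rw [hs']; ring
  rw [e2] at this
  simpa using this

/-- Three blocks, two of equal size `y` and one of size `v`. -/
theorem eng_BVA {F : Multiset (ℕ × ℕ)} (hnd : F.Nodup) (hok : ∀ x ∈ F, 1 ≤ x.1 ∧ 1 ≤ x.2)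
    {y a c v m f : ℕ} {κ : ℤ} (hy : 1 ≤ y) (hf : 1 ≤ f) (hf1 : f * y ≤ v) (hf2 : v < (f + 1) * y)
    (ha : a % 2 = 0) (ha2 : 2 ≤ a) (hc : c % 2 = f % 2) (hc2 : f + 2 ≤ c)
    (hF : ∀ x ∈ F, v ≤ x.1)
    (hκ : (κ = 2 ∧ m % 2 = 1 ∧ 3 ≤ m) ∨
      (κ = 1 ∧ m % 2 = 0 ∧ 2 ≤ m ∧ ((y < v) ∨ (2 ≤ y ∧ 4 ≤ m)))) :
    ∃ N M, Split F N M ∧
      Win (2 * y) (2 * y) (2 * y) (pos 0 ((y, a) :: (y, c) :: N)) (pos 0 ((v, m) :: M)) := by
  have hy' : (1 : ℤ) ≤ y := by exact_mod_cast hy
  have hf' : (1 : ℤ) ≤ f := by exact_mod_cast hf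
  have hf1' : (f : ℤ) * y ≤ v := by exact_mod_cast hf1
  have hf2' : (v : ℤ) < (f + 1) * y := by exact_mod_cast hf2
  have hfy : (y : ℤ) ≤ f * y := by nlinarith
  have hv : 1 ≤ v := by
    have : (1 : ℤ) ≤ v := by linarith
    exact_mod_cast this
  have hF' : ∀ x ∈ F, (v : ℤ) ≤ x.1 := fun x hx => by exact_mod_cast hF x hx
  have hκ12 : κ = 1 ∨ κ = 2 := by
    rcases hκ with h | h
    · exact Or.inr h.1
    · exact Or.inl h.1
  have hκv : κ * v = v ∨ κ * v = 2 * v := by
    rcases hκ12 with rfl | rfl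
    · left; ring
    · right; ring
  obtain ⟨N, M, h1, h2⟩ := asc' (e := f * y - v + (κ - 1) * v) hnd hok (by
    intro x hx
    have := hF' x hx
    rcases hκv with h | h
    · linarith
    · linarith)
  refine ⟨N, M, h1, ?_⟩
  simp only [pos_cons, zero_add]
  rw [Multiset.cons_swap]
  have ec : c = 0 + c := by omega
  rw [ec]
  apply Win.net hy c f (by omega) (by omega) (by omega) (by linarith) (by linarith)
  apply Win.zeroA
  apply Win.swap' (lo' := f * y) (hi' := f * y + y - 1) _ (by linarith) (by linarith)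
  obtain ⟨m', rfl⟩ : ∃ m', m = (0 + m') + 1 := ⟨m - 1, by omega⟩
  apply Win.bot _ _ _ _ _ _ _ _ (by linarith) (by linarith)
  apply Win.swap' (lo' := y - v + 1) (hi' := 2 * y + f * y - v - 1) _ (by linarith)
    (by linarith)
  have ea : a = 0 + a := by omega
  rw [ea]
  apply Win.net hy a 0 (by omega) (by omega) (by omega) (by linarith) (by linarith)
  apply Win.zeroA
  apply Win.swap' (lo' := y + f * y - v) (hi' := 2 * y + f * y - v - 1) _ (by linarith)
    (by linarith)
  have e2 : (f : ℤ) * y - v + (κ - 1) * v + (y + y) + v =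
      2 * y + f * y - v + 0 * y + κ * v := by ring
  by_cases hcase : κ ≤ (m' : ℤ) - 2
  · apply Win.net hv m' κ (by omega) hcase (by omega) (by linarith) (by linarith)
    apply Win.zeroA
    apply Win.swap' (lo' := f * y - v + (κ - 1) * v + (y + y))
      (hi' := f * y - v + κ * v - 1 + (y + y)) _ (by linarith) (by linarith)
    have := (h2 (f * y - v + (κ - 1) * v) (f * y - v + κ * v - 1) le_rfl (by
      rcases hκ with ⟨rfl, _⟩ | ⟨rfl, _, _, h | h⟩
      · linarith
      · have h' : (y : ℤ) + 1 ≤ v := by exact_mod_cast h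
        rcases Nat.eq_or_lt_of_le hf with h5 | h5
        · rw [← h5] at hf2'
          push_cast at hf2'
          linarith
        · have : (2 : ℤ) ≤ f := by exact_mod_cast h5
          nlinarith
      · have : (2 : ℤ) ≤ y := by exact_mod_cast h.1
        linarith) (by linarith)).shift (y + y) v
    rw [sh_pos, sh_pos, e2] at this
    simpa using this
  · have hκm : κ = m' := by omega
    subst hκm
    apply Win.tops hv m' _ _ (by linarith) (by linarith) (by omega)
    apply Win.zeroA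
    apply Win.swap' (lo' := f * y - v + ((m' : ℤ) - 1) * v + (y + y))
      (hi' := m' * v - y + (y + y)) _ (by linarith) (by linarith)
    have := (h2 (f * y - v + ((m' : ℤ) - 1) * v) (m' * v - y) le_rfl (by
      rcases hκ with ⟨h, _⟩ | ⟨h, _, _, h4 | h4⟩
      · rw [h]; linarith
      · have h' : (y : ℤ) + 1 ≤ v := by exact_mod_cast h4
        rw [h]; linarith
      · omega) (by linarith)).shift (y + y) v
    rw [sh_pos, sh_pos, e2] at this
    simpa using this

/-- The special state for blocks of size `1` with even counts. -/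
theorem eng_DFS {F : Multiset (ℕ × ℕ)} (hnd : F.Nodup) (hok : ∀ x ∈ F, 1 ≤ x.1 ∧ 1 ≤ x.2)
    {a c d v : ℕ} (ha : a % 2 = 0) (ha2 : 2 ≤ a) (hc : c % 2 = 0) (hc2 : 2 ≤ c)
    (hd : d % 2 = 0) (hd2 : 2 ≤ d) (hv : v % 2 = 0) (hv2 : 4 ≤ v)
    (hev : ∀ x ∈ F, x.1 = 1 → x.2 % 2 = 0) :
    ∃ N M, Split F N M ∧
      Win 2 2 2 (pos 0 ((1, a) :: (1, c) :: (1, d) :: M)) (pos 0 ((1, v) :: N)) := by
  have key : ∃ N M, Split F N M ∧ Win 0 1 1 (pos 0 N) (pos 0 M) := by
    by_cases h0 : F = 0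
    · subst h0
      refine ⟨[], [], ⟨by simp, by simp [sz_nil, alt_zero]⟩, ?_⟩
      exact Win.done _ _ _ _ _ (by simp [pos_nil]) (by simp [pos_nil])
    · obtain ⟨g, G, rfl, hg⟩ := exists_min h0
      obtain ⟨x, n⟩ := g
      simp only at hg
      obtain ⟨hx, hn⟩ := hok (x, n) (Multiset.mem_cons_self _ _)
      simp only at hx hn
      have hx' : (1 : ℤ) ≤ x := by exact_mod_cast hx
      have hnd' : G.Nodup := Multiset.nodup_of_le (Multiset.le_cons_self _ _) hnd
      have hok' : ∀ z ∈ G, 1 ≤ z.1 ∧ 1 ≤ z.2 := fun z hz => hok z (Multiset.mem_cons_of_mem hz)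
      have hg' : ∀ z ∈ G, (x : ℤ) ≤ z.1 := fun z hz => by exact_mod_cast hg z hz
      rcases Nat.even_or_odd n with he | ho
      · have hn2 := Nat.even_iff.1 he
        obtain ⟨N, M, h1, h2⟩ := asc' (e := x) hnd' hok' hg'
        refine ⟨(x, n) :: M, N, split_cons hg h1, ?_⟩
        apply Win.visit hx hn 2 (by omega) (by omega) (by omega) le_rfl le_rfl
        have e1 : (0 : ℤ) + (2 - 1) * x = x := by ring
        rw [e1]
        exact h2 _ _ le_rfl (by linarith) (by linarith)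
      · have hn2 := Nat.odd_iff.1 ho
        have hx1 : x ≠ 1 := by
          intro h
          have := hev (x, n) (Multiset.mem_cons_self _ _) h
          simp only at this
          omega
        have hx2 : (2 : ℤ) ≤ x := by
          have : 2 ≤ x := by omega
          exact_mod_cast this
        obtain ⟨N, M, h1, h2⟩ := asc' (e := 0) hnd' hok' (by
          intro z hz
          have := hg' z hz
          linarith)
        refine ⟨(x, n) :: M, N, split_cons hg h1, ?_⟩
        apply Win.visit hx hn 1 (by omega) (by omega) (by omega) le_rfl le_rfl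
        have e1 : (0 : ℤ) + (1 - 1) * x = 0 := by ring
        rw [e1]
        exact h2 _ _ le_rfl (by linarith) (by linarith)
  obtain ⟨N, M, h1, h2⟩ := key
  refine ⟨N, M, h1, ?_⟩
  simp only [pos_cons, zero_add, Nat.cast_one]
  -- B top
  rw [Multiset.cons_swap]
  obtain ⟨c', rfl⟩ : ∃ c', c = (0 + c') + 1 := ⟨c - 1, by omega⟩
  apply Win.top _ _ _ _ _ _ _ _ (by norm_num) (by norm_num)
  apply Win.swap' (lo' := 1) (hi' := 1) _ (by norm_num) (by norm_num)
  -- V bottom
  obtain ⟨v', rfl⟩ : ∃ v', v = ((0 + v') + 2) + 1 := ⟨v - 3, by omega⟩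
  apply Win.bot _ _ _ _ _ _ _ _ (by norm_num) (by norm_num)
  apply Win.swap' (lo' := 1) (hi' := 1) _ (by norm_num) (by norm_num)
  -- A
  rw [Multiset.cons_swap]
  obtain ⟨a', rfl⟩ : ∃ a', a = 0 + a' := ⟨a, by omega⟩
  apply Win.net le_rfl a' 0 (by omega) (by omega) (by omega) (by norm_num) (by norm_num)
  apply Win.zeroA
  apply Win.swap' (lo' := 1) (hi' := 1) _ (by norm_num) (by norm_num)
  -- V two tops
  apply Win.tops le_rfl 2 _ _ (by norm_num) (by norm_num) (by norm_num)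
  apply Win.swap' (lo' := 3) (hi' := 3) _ (by norm_num) (by norm_num)
  rw [Multiset.cons_swap]
  obtain ⟨d', rfl⟩ : ∃ d', d = 0 + d' := ⟨d, by omega⟩
  apply Win.net le_rfl d' 0 (by omega) (by omega) (by omega) (by norm_num) (by norm_num)
  apply Win.zeroA
  apply Win.swap' (lo' := 1) (hi' := 1) _ (by norm_num) (by norm_num)
  apply Win.net2 le_rfl v' (-1) (by omega) (by omega) (by omega) (by omega) (by norm_num)
    (by norm_num)
  apply Win.zeroA
  apply Win.swap' (lo' := 2) (hi' := 2) _ (by norm_num) (by norm_num)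
  apply Win.net1 le_rfl c' 1 (by omega) (by omega) (by omega) (by omega) (by norm_num)
    (by norm_num)
  apply Win.zeroA
  apply Win.swap' (lo' := 2) (hi' := 2) _ (by norm_num) (by norm_num)
  have := h2.shift 1 3
  rw [sh_pos, sh_pos] at this
  norm_num at this ⊢
  exact this

end Pool.Agent.Lib.MP_404fd0_co
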