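import Mathlib
import Pool.Agent.Lib.MP_404fd0_co.EngABc

namespace Pool.Agent.Lib.MP_404fd0_co

theorem eng_negX {F : Multiset (ℕ × ℕ)} (hnd : F.Nodup) (hok : ∀ x ∈ F, 1 ≤ x.1 ∧ 1 ≤ x.2)
    {b n x m : ℕ} {O : ℤ} (hO1 : 1 ≤ O) (hOx : O + 1 ≤ x) (hxb : x ≤ b)
    (hn1 : n % 2 = 0) (hn2 : 2 ≤ n) (hm1 : m % 2 = 0) (hm2 : 2 ≤ m)
    (hbig : ∀ g ∈ F, (∀ z ∈ F, g.1 ≤ z.1) → x + 2 ≤ g.2) :
    ∃ N M, Split F N M ∧
      Win (O - x + b) (O - x + b) (O - x + b) (pos 0 ((b, n) :: N))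
        ((-(x : ℤ) - 1, x, m) ::ₘ pos x M) := by
  have hx' : (2 : ℤ) ≤ x := by linarith
  have hx : 1 ≤ x := by
    have : (1 : ℤ) ≤ x := by linarith
    exact_mod_cast this
  have hxb' : (x : ℤ) ≤ b := by exact_mod_cast hxb
  have hb : 1 ≤ b := hx.trans hxb
  obtain ⟨N, M, h1, h2⟩ := ascW (e := O - 2 * x) (lo := O - x + 1) (hi := O) hnd hok
    (by linarith) (by linarith) hO1 (by
      intro g hg hmin
      have h3 := hbig g hg hmin
      have h4 := (hok g hg).1
      have h3' : (x : ℤ) + 2 ≤ g.2 := by exact_mod_cast h3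
      have h4' : (1 : ℤ) ≤ g.1 := by exact_mod_cast h4
      nlinarith)
  refine ⟨N, M, h1, ?_⟩
  simp only [pos_cons, zero_add]
  obtain ⟨n', rfl⟩ : ∃ n', n = 0 + n' := ⟨n, by omega⟩
  apply Win.net hb n' 0 (by omega) (by omega) (by omega) (by linarith) (by linarith)
  apply Win.zeroA
  apply Win.swap' (lo' := O - x) (hi' := O - x + b - 1) _ (by linarith) (by linarith)
  obtain ⟨m', rfl⟩ : ∃ m', m = 0 + m' := ⟨m, by omega⟩
  apply Win.net hx m' 0 (by omega) (by omega) (by omega) (by linarith) (by linarith)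
  apply Win.zeroA
  apply Win.swap' (lo' := O - x + 1 + b) (hi' := O + b) _ (by linarith) (by linarith)
  have := h2.shift b x
  rw [sh_pos, sh_pos] at this
  have e1 : O - 2 * (x : ℤ) + b + x = O - x + b + 0 * b + 0 * x := by ring
  rw [e1] at this
  simpa using this

/-- The core of the last engine. -/
theorem coreC {F : Multiset (ℕ × ℕ)} (hnd : F.Nodup) (hok : ∀ x ∈ F, 1 ≤ x.1 ∧ 1 ≤ x.2)
    {x m : ℕ} (hx : 2 ≤ x) (hm1 : m % 2 = 0) (hm2 : 2 ≤ m)
    (h1F : ∃ g ∈ F, g.1 = 1) (hbig : ∀ g ∈ F, g.1 = 1 → x + 1 ≤ g.2) :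
    ∃ N M, Split F N M ∧ Win 1 (1 - x) x (pos 0 N) ((0, x, m) ::ₘ pos x M) := by
  classical
  have hx' : (2 : ℤ) ≤ x := by exact_mod_cast hx
  -- first state
  have step1 : ∀ (k : ℕ) (N' : List (ℕ × ℕ)) (M : List (ℕ × ℕ)),
      Win 2 (2 - x) 1 ((0, 1, k) ::ₘ pos 1 N') (pos x M) →
      Win 1 (1 - x) x (pos 0 ((1, k + 1) :: N')) ((0, x, m) ::ₘ pos x M) := by
    intro k N' M h
    simp only [pos_cons, zero_add, Nat.cast_one]
    apply Win.top _ _ _ _ _ _ _ _ (by linarith) (by simp)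
    apply Win.swap' (lo' := 1) (hi' := x + 1) _ (by norm_num) (by push_cast; linarith)
    have em : m = 0 + m := by omega
    rw [em]
    apply Win.net (by omega) m 0 (by omega) (by omega) (by omega) (by linarith) (by linarith)
    apply Win.zeroA
    apply Win.swap' (lo' := 2 - x) (hi' := 1) _ (by push_cast; linarith)
      (by push_cast; linarith)
    have e1 : (1 : ℤ) + ((1 : ℕ) : ℤ) + 0 * x = 2 := by push_cast; ring
    rw [e1]
    exact h
  have one_le : ∀ {g : ℕ × ℕ}, g.1 = 1 → ∀ {G : Multiset (ℕ × ℕ)}, G ≤ F →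
      ∀ z ∈ G, g.1 ≤ z.1 := by
    intro g hg G hG z hz
    rw [hg]
    exact (hok z (Multiset.mem_of_le hG hz)).1
  -- direct
  have direct : ∀ (n : ℕ) (G : Multiset (ℕ × ℕ)) (κ : ℕ), F = (1, n) ::ₘ G →
      (κ = x ∨ (κ = x + 1 ∧ ∀ z ∈ G, 2 ≤ z.1)) → κ % 2 = (n - 1) % 2 →
      ∃ N M, Split F N M ∧ Win 1 (1 - x) x (pos 0 N) ((0, x, m) ::ₘ pos x M) := by
    intro n G κ hF hκ hpar
    have hGF : G ≤ F := by rw [hF]; exact Multiset.le_cons_self _ _
    have hn : x + 1 ≤ n := hbig (1, n) (by rw [hF]; exact Multiset.mem_cons_self _ _) rfl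
    obtain ⟨M, N, h1, h2⟩ := asc' (e := 1 + κ - x) (Multiset.nodup_of_le hGF hnd)
      (fun z hz => hok z (Multiset.mem_of_le hGF hz)) (by
        intro z hz
        rcases hκ with rfl | ⟨rfl, h⟩
        · have := (hok z (Multiset.mem_of_le hGF hz)).1
          have : (1 : ℤ) ≤ z.1 := by exact_mod_cast this
          linarith
        · have := h z hz
          have : (2 : ℤ) ≤ z.1 := by exact_mod_cast this
          push_cast
          linarith)
    have hκx : (x : ℤ) ≤ κ := by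
      rcases hκ with rfl | ⟨rfl, h⟩
      · exact le_rfl
      · push_cast; linarith
    refine ⟨(1, n) :: N, M, ?_, ?_⟩
    · rw [hF]
      exact split_cons (one_le rfl hGF) h1
    · obtain ⟨k, rfl⟩ : ∃ k, n = k + 1 := ⟨n - 1, by omega⟩
      apply step1
      have ek : k = 0 + k := by omega
      rw [ek]
      apply Win.net1 le_rfl k κ (by omega) (by omega) (by omega) (by omega) (by linarith)
        (by linarith)
      apply Win.zeroA
      apply Win.swap' (lo' := 1 + κ - x + x) (hi' := 1 + κ - x + x) _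
        (by push_cast; linarith) (by push_cast; linarith)
      have := (h2 (1 + κ - x) (1 + κ - x) le_rfl (by linarith) le_rfl).shift x 1
      rw [sh_pos, sh_pos] at this
      have e1 : (1 : ℤ) + κ - x + x + 1 = 2 + κ * ((1 : ℕ) : ℤ) := by push_cast; ring
      rw [e1] at this
      simpa using this
  -- the blocks of size one
  set K0 := F.filter (fun z => z.1 = 1) with hK0
  set R := F.filter (fun z => ¬ z.1 = 1) with hR
  have hsplit : K0 + R = F := Multiset.filter_add_not _ _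
  have hK0ne : K0 ≠ 0 := by
    obtain ⟨g, hg1, hg2⟩ := h1F
    intro h
    have : g ∈ K0 := by rw [hK0, Multiset.mem_filter]; exact ⟨hg1, hg2⟩
    rw [h] at this
    simp at this
  have hRge : ∀ z ∈ R, 2 ≤ z.1 := by
    intro z hz
    rw [hR, Multiset.mem_filter] at hz
    have := (hok z hz.1).1
    have := hz.2
    omega
  by_cases hgood : ∃ g ∈ F, g.1 = 1 ∧ (g.2 - 1) % 2 = x % 2
  · obtain ⟨⟨g1, n⟩, hg, hg1, hg2⟩ := hgood
    simp only at hg1 hg2
    subst hg1
    obtain ⟨G, hG⟩ := Multiset.exists_cons_of_mem hg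
    exact direct n G x hG (Or.inl rfl) hg2.symm
  push Not at hgood
  obtain ⟨A, K1, hA1, hA2⟩ := exists_min2 hK0ne
  have hKall : ∀ z ∈ K0, z.1 = 1 ∧ z.2 % 2 = x % 2 ∧ x + 2 ≤ z.2 := by
    intro z hz
    rw [hK0, Multiset.mem_filter] at hz
    have h1 := hgood z hz.1 hz.2
    have h2 := hbig z hz.1 hz.2
    refine ⟨hz.2, by omega, by omega⟩
  obtain ⟨ya, a⟩ := A
  obtain ⟨hya, ha2, ha3⟩ := hKall (ya, a) (by rw [hA1]; simp)
  simp only at hya ha2 ha3
  subst hya
  by_cases hK1 : K1 = 0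
  · subst hK1
    have hF : F = (1, a) ::ₘ R := by
      rw [← hsplit, hA1]
      rfl
    exact direct a R (x + 1) hF (Or.inr ⟨rfl, hRge⟩) (by omega)
  obtain ⟨B, K, hB1, hB2⟩ := exists_min2 hK1
  rw [hB1] at hA1
  obtain ⟨yb, b⟩ := B
  obtain ⟨hyb, hb2, hb3⟩ := hKall (yb, b) (by rw [hA1]; simp)
  simp only at hyb hb2 hb3
  subst hyb
  have hKnd : K0.Nodup := Multiset.nodup_of_le (Multiset.filter_le _ _) hnd
  rw [hA1] at hKnd
  rw [Multiset.nodup_cons, Multiset.nodup_cons] at hKnd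
  obtain ⟨hnd1, hnd2, hnd3⟩ := hKnd
  have hab : a + 2 ≤ b := by
    have h5 : a ≤ b := hA2 (1, b) (by rw [hB1]; simp)
    have h6 : a ≠ b := by
      rintro rfl
      apply hnd1
      simp
    omega
  have hFeq : F = (1, a) ::ₘ (1, b) ::ₘ (K + R) := by
    rw [← hsplit, hA1, Multiset.cons_add, Multiset.cons_add]
  have hKRF : K + R ≤ F := by
    rw [hFeq]
    exact (Multiset.le_cons_self _ _).trans (Multiset.le_cons_self _ _)
  have halt : alt F = alt (K + R) := by
    rw [hFeq, alt_cons_min, alt_cons_min (one_le (g := (1, b)) rfl hKRF)]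
    · ring
    · intro z hz
      apply one_le (g := (1, a)) rfl (G := (1, b) ::ₘ (K + R)) _ z hz
      rw [hFeq]
      exact Multiset.le_cons_self _ _
  have step2 : ∀ (N' M' : List (ℕ × ℕ)),
      Win 2 1 2 ((0, 1, a - x) ::ₘ pos 1 N') ((0, 1, b - 1) ::ₘ pos 1 M') →
      Win 1 (1 - x) x (pos 0 ((1, a) :: N')) ((0, x, m) ::ₘ pos x ((1, b) :: M')) := by
    intro N' M' h
    have ea : a = (a - 1) + 1 := by omega
    rw [ea]
    apply step1
    have ea2 : a - 1 = (a - x) + (x - 1) := by omega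
    rw [ea2]
    have hx1 : ((x - 1 : ℕ) : ℤ) = x - 1 := by
      rw [Nat.cast_sub (by omega)]
      rfl
    apply Win.tops le_rfl (x - 1) _ _ (by linarith) (by push_cast; linarith) (by omega)
    apply Win.swap' (lo' := x) (hi' := 2 * x - 1) _ (by rw [hx1]; push_cast; linarith)
      (by rw [hx1]; push_cast; linarith)
    rw [pos_cons]
    have eb : b = (b - 1) + 1 := by omega
    rw [eb]
    apply Win.top _ _ _ _ _ _ _ _ (by linarith) (by linarith)
    apply Win.swap' (lo' := 1) (hi' := 2) _ (by rw [hx1]; push_cast; linarith)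
      (by rw [hx1]; push_cast; linarith)
    have := h.shift 0 x
    rw [sh_cons, sh_cons, sh_pos, sh_pos] at this
    rw [hx1]
    have e1 : (2 : ℤ) + 0 + x = 2 + (x - 1) * ((1 : ℕ) : ℤ) + ((1 : ℕ) : ℤ) := by
      push_cast; ring
    have e2 : (1 : ℤ) + x = x + ((1 : ℕ) : ℤ) := by push_cast; ring
    rw [e1, e2] at this
    simpa using this
  rcases Nat.even_or_odd x with hxe | hxo
  · have hx2 := Nat.even_iff.1 hxe
    obtain ⟨N, M, ⟨h1, h2⟩, h3⟩ := asc' (e := 1) (Multiset.nodup_of_le hKRF hnd)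
      (fun z hz => hok z (Multiset.mem_of_le hKRF hz)) (by
        intro z hz
        have := (hok z (Multiset.mem_of_le hKRF hz)).1
        exact_mod_cast this)
    refine ⟨(1, a) :: N, (1, b) :: M, ⟨?_, ?_⟩, ?_⟩
    · rw [← Multiset.cons_coe, ← Multiset.cons_coe, Multiset.cons_add,
        Multiset.add_cons, h1, hFeq]
    · rw [halt, ← h2, sz_cons, sz_cons]
      ring
    · apply step2
      have ea : a - x = 0 + (a - x) := by omega
      rw [ea]
      apply Win.net le_rfl (a - x) 0 (by omega) (by omega) (by omega) (by linarith)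
        (by norm_num)
      apply Win.zeroA
      apply Win.swap' (lo' := 1) (hi' := 1) _ (by norm_num) (by norm_num)
      have eb : b - 1 = 0 + (b - 1) := by omega
      rw [eb]
      apply Win.net1 le_rfl (b - 1) 1 (by omega) (by omega) (by omega) (by omega)
        (by norm_num) (by norm_num)
      apply Win.zeroA
      apply Win.swap' (lo' := 2) (hi' := 2) _ (by norm_num) (by norm_num)
      have := (h3 1 1 le_rfl le_rfl le_rfl).shift 1 1
      rw [sh_pos, sh_pos] at this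
      norm_num at this ⊢
      exact this
  · have hx2 := Nat.odd_iff.1 hxo
    have hRF : R ≤ F := Multiset.filter_le _ _
    have hRgood : Good (1 + (1 : ℕ)) R := by
      apply asc (Multiset.nodup_of_le hRF hnd)
      · intro z hz
        exact hok z (Multiset.mem_of_le hRF hz)
      · intro z hz
        have := hRge z hz
        have : (2 : ℤ) ≤ z.1 := by exact_mod_cast this
        push_cast
        linarith
    obtain ⟨N, M, h1, h2, h3⟩ := chain le_rfl (fun z hz => (by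
        have := hRge z hz; omega : 1 ≤ z.1)) hRgood (Multiset.card K) K (a - x) (b - 1)
      rfl hnd3 (by
        intro z hz
        have hz0 : z ∈ K0 := by rw [hA1]; simp [hz]
        obtain ⟨x1, x2, x3⟩ := hKall z hz0
        have h5 : b ≤ z.2 := hB2 z hz
        have h6 : b ≠ z.2 := by
          intro h
          apply hnd2
          have : ((1, b) : ℕ × ℕ) = z := Prod.ext x1.symm h
          rw [this]
          exact hz
        exact ⟨x1, by omega, by omega, by omega⟩) (by omega) (by omega) (by omega) (by omega)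
    refine ⟨(1, a) :: N, (1, b) :: M, ⟨?_, ?_⟩, ?_⟩
    · rw [← Multiset.cons_coe, ← Multiset.cons_coe, Multiset.cons_add,
        Multiset.add_cons, h1, hFeq]
    · rw [halt, ← h2, sz_cons, sz_cons]
      ring
    · apply step2
      have e1 : (1 : ℤ) + ((1 : ℕ) : ℤ) = 2 := by norm_num
      have e2 : 2 * ((1 : ℕ) : ℤ) = 2 := by norm_num
      have e3 : ((1 : ℕ) : ℤ) = 1 := by norm_num
      rw [e1, e2, e3] at h3
      exact h3

theorem eng_C {F : Multiset (ℕ × ℕ)} (hnd : F.Nodup) (hok : ∀ x ∈ F, 1 ≤ x.1 ∧ 1 ≤ x.2)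
    {b n x m : ℕ} (hx : 2 ≤ x) (hxb : x + 1 ≤ b) (hn1 : n % 2 = 0) (hn2 : 2 ≤ n)
    (hm1 : m % 2 = 1) (hm2 : 3 ≤ m)
    (h1F : ∃ g ∈ F, g.1 = 1) (hbig : ∀ g ∈ F, g.1 = 1 → x + 1 ≤ g.2) :
    ∃ N M, Split F N M ∧
      Win (b - x + 1) (b - x + 1) (b - x + 1) (pos 0 ((b, n) :: N)) (pos 0 ((x, m) :: M)) := by
  have hx' : (2 : ℤ) ≤ x := by exact_mod_cast hx
  have hxb' : (x : ℤ) + 1 ≤ b := by exact_mod_cast hxb
  obtain ⟨m', rfl⟩ : ∃ m', m = m' + 1 := ⟨m - 1, by omega⟩
  obtain ⟨N, M, h1, h2⟩ := coreC hnd hok hx (m := m') (by omega) (by omega) h1F hbig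
  refine ⟨N, M, h1, ?_⟩
  simp only [pos_cons, zero_add]
  obtain ⟨n', rfl⟩ : ∃ n', n = 0 + n' := ⟨n, by omega⟩
  apply Win.net (by omega) n' 0 (by omega) (by omega) (by omega) (by linarith) (by linarith)
  apply Win.zeroA
  apply Win.swap' (lo' := 1 - x) (hi' := b - x) _ (by linarith) (by linarith)
  apply Win.top _ _ _ _ _ _ _ _ (by linarith) (by linarith)
  apply Win.swap' (lo' := 1 - x + b) (hi' := x + b) _ (by linarith) (by linarith)
  have := h2.shift b 0
  rw [sh_cons, sh_pos, sh_pos] at this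
  have e1 : (1 : ℤ) + b + 0 = b - x + 1 + 0 * b + x := by ring
  rw [e1] at this
  simpa using this

end Pool.Agent.Lib.MP_404fd0_co
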