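import Mathlib
import Pool.Agent.Lib.MP_404fd0_co.Game

namespace Pool.Agent.Lib.MP_404fd0_co

/-- A placed block together with its leaf labels. -/
abbrev PB := ℤ × ℕ × Multiset ℤ

def skel (r : PB) : Blk := (r.1, r.2.1, Multiset.card r.2.2)

/-- All leaf labels. -/
def lv (R : Multiset PB) : Multiset ℤ := (R.map (fun r => r.2.2)).sum

/-- All the differences between the labels in `Bs` and in `Ls`. -/
def dif (Bs Ls : Multiset ℤ) : Multiset ℤ := (Ls.map (fun x => Bs.map (fun p => |p - x|))).sum

/-- Base labels of a block on the high side. -/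
noncomputable def baH (q s : ℤ) (b : ℕ) : Multiset ℤ := (Finset.Ioc (q - s - b) (q - s - b + b)).val

/-- Base labels of a block on the low side. -/
noncomputable def baL (s : ℤ) (b : ℕ) : Multiset ℤ := (Finset.Ioc s (s + b)).val

noncomputable def edH (q : ℤ) (R : Multiset PB) : Multiset ℤ :=
  (R.map (fun r => dif (baH q r.1 r.2.1) r.2.2)).sum

noncomputable def edL (R : Multiset PB) : Multiset ℤ := (R.map (fun r => dif (baL r.1 r.2.1) r.2.2)).sum

theorem dif_zero (Bs : Multiset ℤ) : dif Bs 0 = 0 := by simp [dif]

theorem dif_cons (Bs Ls : Multiset ℤ) (x : ℤ) :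
    dif Bs (x ::ₘ Ls) = Bs.map (fun p => |p - x|) + dif Bs Ls := by
  simp [dif]

theorem lowleaf (c e : ℤ) (b : ℕ) (he : 0 ≤ e) :
    (Finset.Ioc c (c + b)).val.map (fun p => |p - (c - e)|) = (Finset.Ioc e (e + b)).val := by
  have h1 : ∀ p ∈ (Finset.Ioc c (c + b)).val, |p - (c - e)| = p - (c - e) := by
    intro p hp
    rw [Finset.mem_val, Finset.mem_Ioc] at hp
    apply abs_of_nonneg
    linarith [hp.1]
  rw [Multiset.map_congr rfl h1]
  apply (Multiset.Nodup.ext _ (Finset.nodup _)).2
  · intro a
    simp only [Multiset.mem_map, Finset.mem_val, Finset.mem_Ioc]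
    constructor
    · rintro ⟨p, hp, rfl⟩
      constructor
      · linarith [hp.1]
      · linarith [hp.2]
    · intro ha
      refine ⟨a + (c - e), ⟨by linarith [ha.1], by linarith [ha.2]⟩, by ring⟩
  · apply Multiset.Nodup.map _ (Finset.nodup _)
    intro a b hab
    simpa using hab

theorem highleaf (c e : ℤ) (b : ℕ) (he : 0 ≤ e) :
    (Finset.Ioc c (c + b)).val.map (fun p => |p - (c + b + 1 + e)|) =
      (Finset.Ioc e (e + b)).val := by
  have h1 : ∀ p ∈ (Finset.Ioc c (c + b)).val, |p - (c + b + 1 + e)| = (c + b + 1 + e) - p := by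
    intro p hp
    rw [Finset.mem_val, Finset.mem_Ioc] at hp
    rw [abs_sub_comm]
    apply abs_of_nonneg
    linarith [hp.2]
  rw [Multiset.map_congr rfl h1]
  apply (Multiset.Nodup.ext _ (Finset.nodup _)).2
  · intro a
    simp only [Multiset.mem_map, Finset.mem_val, Finset.mem_Ioc]
    constructor
    · rintro ⟨p, hp, rfl⟩
      constructor
      · linarith [hp.2]
      · linarith [hp.1]
    · intro ha
      refine ⟨(c + b + 1 + e) - a, ⟨by linarith [ha.2], by linarith [ha.1]⟩, by ring⟩
  · apply Multiset.Nodup.map _ (Finset.nodup _)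
    intro a b hab
    simpa using hab

theorem Ioc_add (a b c : ℤ) (h1 : a ≤ b) (h2 : b ≤ c) :
    (Finset.Ioc a b).val + (Finset.Ioc b c).val = (Finset.Ioc a c).val := by
  apply (Multiset.Nodup.ext _ (Finset.nodup _)).2
  · intro x
    simp only [Multiset.mem_add, Finset.mem_val, Finset.mem_Ioc]
    omega
  · rw [Multiset.nodup_add]
    refine ⟨Finset.nodup _, Finset.nodup _, ?_⟩
    rw [Multiset.disjoint_left]
    intro x hx hx'
    simp only [Finset.mem_val, Finset.mem_Ioc] at hx hx'
    omega

/-- Total number of remaining leaf edges. -/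
def wt (A : Multiset Blk) : ℤ := (A.map (fun a => (a.2.1 : ℤ) * a.2.2)).sum

theorem wt_nonneg (A : Multiset Blk) : 0 ≤ wt A := by
  apply Multiset.sum_nonneg
  intro x hx
  obtain ⟨a, _, rfl⟩ := Multiset.mem_map.1 hx
  positivity

theorem wt_cons (s : ℤ) (b n : ℕ) (A : Multiset Blk) : wt ((s, b, n) ::ₘ A) = b * n + wt A := by
  simp [wt]

/-- What a realisation on the two sides means. -/
def RealH (q eps E lam U : ℤ) (A B : Multiset Blk) : Prop :=
  ∃ RA RB : Multiset PB, RA.map skel = A ∧ RB.map skel = B ∧ (lv RA + lv RB).Nodup ∧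
    (∀ x ∈ lv RA + lv RB, lam < x ∧ x < U) ∧ edH q RA + edL RB = (Finset.Ioc eps E).val

def RealL (q eps E lam U : ℤ) (A B : Multiset Blk) : Prop :=
  ∃ RA RB : Multiset PB, RA.map skel = A ∧ RB.map skel = B ∧ (lv RA + lv RB).Nodup ∧
    (∀ x ∈ lv RA + lv RB, lam < x ∧ x < U) ∧ edL RA + edH q RB = (Finset.Ioc eps E).val

theorem realLH {q eps E lam U : ℤ} {A B : Multiset Blk} (h : RealL q eps E lam U B A) :
    RealH q eps E lam U A B := by
  obtain ⟨RA, RB, h1, h2, h3, h4, h5⟩ := h
  refine ⟨RB, RA, h2, h1, ?_, ?_, ?_⟩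
  · rw [add_comm]; exact h3
  · intro x hx
    rw [add_comm] at hx
    exact h4 x hx
  · rw [add_comm]; exact h5

theorem realHL {q eps E lam U : ℤ} {A B : Multiset Blk} (h : RealH q eps E lam U B A) :
    RealL q eps E lam U A B := by
  obtain ⟨RA, RB, h1, h2, h3, h4, h5⟩ := h
  refine ⟨RB, RA, h2, h1, ?_, ?_, ?_⟩
  · rw [add_comm]; exact h3
  · intro x hx
    rw [add_comm] at hx
    exact h4 x hx
  · rw [add_comm]; exact h5

theorem exists_skel {R : Multiset PB} {s : ℤ} {b n : ℕ} {A : Multiset Blk}
    (h : R.map skel = (s, b, n) ::ₘ A) :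
    ∃ ls R', R = (s, b, ls) ::ₘ R' ∧ Multiset.card ls = n ∧ R'.map skel = A := by
  have hmem : (s, b, n) ∈ R.map skel := by rw [h]; exact Multiset.mem_cons_self _ _
  obtain ⟨r, hr, hrs⟩ := Multiset.mem_map.1 hmem
  obtain ⟨R', rfl⟩ := Multiset.exists_cons_of_mem hr
  obtain ⟨s', b', ls⟩ := r
  simp only [skel, Prod.mk.injEq] at hrs
  obtain ⟨rfl, rfl, hc⟩ := hrs
  refine ⟨ls, R', rfl, hc, ?_⟩
  rw [Multiset.map_cons] at h
  simp only [skel, hc] at h
  exact (Multiset.cons_inj_right _).1 h

theorem lv_cons (r : PB) (R : Multiset PB) : lv (r ::ₘ R) = r.2.2 + lv R := by simp [lv]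

theorem edH_cons (q : ℤ) (r : PB) (R : Multiset PB) :
    edH q (r ::ₘ R) = dif (baH q r.1 r.2.1) r.2.2 + edH q R := by simp [edH]

theorem edL_cons (r : PB) (R : Multiset PB) :
    edL (r ::ₘ R) = dif (baL r.1 r.2.1) r.2.2 + edL R := by simp [edL]

/-- Add a leaf on the high side. -/
theorem addH {q eps E lam U eps' E' lam' U' s x : ℤ} {b n : ℕ} {A B : Multiset Blk}
    (h : RealH q eps E lam U ((s, b, n) ::ₘ A) B)
    (hx : x ≤ lam ∨ U ≤ x) (hlam : lam' ≤ lam) (hU : U ≤ U') (hx1 : lam' < x) (hx2 : x < U')
    (he : (baH q s b).map (fun p => |p - x|) + (Finset.Ioc eps E).val =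
      (Finset.Ioc eps' E').val) :
    RealH q eps' E' lam' U' ((s, b, n + 1) ::ₘ A) B := by
  obtain ⟨RA, RB, h1, h2, h3, h4, h5⟩ := h
  obtain ⟨ls, RA', rfl, hc, h6⟩ := exists_skel h1
  rw [lv_cons] at h3 h4
  refine ⟨(s, b, x ::ₘ ls) ::ₘ RA', RB, ?_, h2, ?_, ?_, ?_⟩
  · rw [Multiset.map_cons, h6]
    simp [skel, hc]
  · rw [lv_cons]
    simp only [Multiset.cons_add]
    rw [Multiset.nodup_cons]
    refine ⟨?_, h3⟩
    intro hmem
    have := h4 x hmem
    omega
  · intro z hz
    rw [lv_cons] at hz
    simp only [Multiset.cons_add, Multiset.mem_cons] at hz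
    rcases hz with rfl | hz
    · exact ⟨hx1, hx2⟩
    · have := h4 z hz
      exact ⟨by linarith [this.1], by linarith [this.2]⟩
  · rw [edH_cons] at h5 ⊢
    simp only at h5 ⊢
    rw [dif_cons, ← he, ← h5]
    abel

/-- Add a leaf on the low side. -/
theorem addL {q eps E lam U eps' E' lam' U' s x : ℤ} {b n : ℕ} {A B : Multiset Blk}
    (h : RealL q eps E lam U ((s, b, n) ::ₘ A) B)
    (hx : x ≤ lam ∨ U ≤ x) (hlam : lam' ≤ lam) (hU : U ≤ U') (hx1 : lam' < x) (hx2 : x < U')
    (he : (baL s b).map (fun p => |p - x|) + (Finset.Ioc eps E).val =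
      (Finset.Ioc eps' E').val) :
    RealL q eps' E' lam' U' ((s, b, n + 1) ::ₘ A) B := by
  obtain ⟨RA, RB, h1, h2, h3, h4, h5⟩ := h
  obtain ⟨ls, RA', rfl, hc, h6⟩ := exists_skel h1
  rw [lv_cons] at h3 h4
  refine ⟨(s, b, x ::ₘ ls) ::ₘ RA', RB, ?_, h2, ?_, ?_, ?_⟩
  · rw [Multiset.map_cons, h6]
    simp [skel, hc]
  · rw [lv_cons]
    simp only [Multiset.cons_add]
    rw [Multiset.nodup_cons]
    refine ⟨?_, h3⟩
    intro hmem
    have := h4 x hmem
    omega
  · intro z hz
    rw [lv_cons] at hz
    simp only [Multiset.cons_add, Multiset.mem_cons] at hz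
    rcases hz with rfl | hz
    · exact ⟨hx1, hx2⟩
    · have := h4 z hz
      exact ⟨by linarith [this.1], by linarith [this.2]⟩
  · rw [edL_cons] at h5 ⊢
    simp only at h5 ⊢
    rw [dif_cons, ← he, ← h5]
    abel

theorem real_main {T lo hi : ℤ} {A B : Multiset Blk} (h : Win T lo hi A B) :
    ∀ (q eps E : ℤ), 0 ≤ eps → T = q - eps - E → E - eps = wt A + wt B →
      RealH q eps E (q - E - hi) (q - eps - lo + 1) A B ∧
      RealL q eps E (eps + lo) (E + hi + 1) A B := by
  induction h with
  | done T lo hi A B hA hB =>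
      intro q eps E _ hT hE
      have key : ∀ C : Multiset Blk, (∀ a ∈ C, a.2.2 = 0) →
          ∃ R : Multiset PB, R.map skel = C ∧ lv R = 0 ∧ edH q R = 0 ∧ edL R = 0 ∧ wt C = 0 := by
        intro C hC
        refine ⟨C.map (fun a => (a.1, a.2.1, 0)), ?_, ?_, ?_, ?_, ?_⟩
        · rw [Multiset.map_map]
          have : ∀ a ∈ C, (skel ∘ fun a : Blk => ((a.1, a.2.1, 0) : PB)) a = a := by
            intro a ha
            obtain ⟨s, b, n⟩ := a
            have := hC (s, b, n) ha
            simp only at this
            subst this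
            simp [skel]
          rw [Multiset.map_congr rfl this, Multiset.map_id']
        · simp [lv, Multiset.map_map]
        · simp [edH, Multiset.map_map, dif_zero]
        · simp [edL, Multiset.map_map, dif_zero]
        · unfold wt
          apply Multiset.sum_eq_zero
          intro x hx
          obtain ⟨a, ha, rfl⟩ := Multiset.mem_map.1 hx
          rw [hC a ha]
          simp
      obtain ⟨RA, a1, a2, a3, a4, a5⟩ := key A hA
      obtain ⟨RB, b1, b2, b3, b4, b5⟩ := key B hB
      have hE' : E = eps := by linarith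
      subst hE'
      constructor
      · exact ⟨RA, RB, a1, b1, by simp [a2, b2], by simp [a2, b2], by simp [a3, b4]⟩
      · exact ⟨RA, RB, a1, b1, by simp [a2, b2], by simp [a2, b2], by simp [a4, b3]⟩
  | swap T lo hi A B h ih =>
      intro q eps E h0 hT hE
      obtain ⟨i1, i2⟩ := ih q eps E h0 hT (by rw [hE]; ring)
      constructor
      · have := realLH i2
        have e1 : eps + (T - hi) = q - E - hi := by rw [hT]; ring
        have e2 : E + (T - lo) + 1 = q - eps - lo + 1 := by rw [hT]; ring
        rw [e1, e2] at this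
        exact this
      · have := realHL i1
        have e1 : q - E - (T - lo) = eps + lo := by rw [hT]; ring
        have e2 : q - eps - (T - hi) + 1 = E + hi + 1 := by rw [hT]; ring
        rw [e1, e2] at this
        exact this
  | top T lo hi s b n A B h1 h2 h ih =>
      intro q eps E h0 hT hE
      have hwA := wt_nonneg A
      have hwB := wt_nonneg B
      rw [wt_cons] at hE
      have hbn : (0 : ℤ) ≤ b * n := by positivity
      push_cast at hE
      have hbE : E - eps ≥ b := by nlinarith
      obtain ⟨i1, i2⟩ := ih q eps (E - b) h0 (by rw [hT]; ring) (by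
        rw [wt_cons]; linarith)
      constructor
      · apply addH (x := q - s - E) i1
        · left; linarith
        · linarith
        · linarith
        · linarith
        · linarith
        · have := lowleaf (q - s - b) (E - b) b (by linarith)
          have e1 : q - s - b - (E - b) = q - s - E := by ring
          rw [e1] at this
          rw [baH, this]
          have e2 : E - (b : ℤ) + b = E := by ring
          rw [e2, add_comm]
          apply Ioc_add
          · linarith
          · have : (0 : ℤ) ≤ b := by positivity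
            linarith
      · apply addL (x := E + s + 1) i2
        · right; linarith
        · linarith
        · linarith
        · linarith
        · linarith
        · have := highleaf s (E - b) b (by linarith)
          have e1 : s + b + 1 + (E - b) = E + s + 1 := by ring
          rw [e1] at this
          rw [baL, this]
          have e2 : E - (b : ℤ) + b = E := by ring
          rw [e2, add_comm]
          apply Ioc_add
          · linarith
          · have : (0 : ℤ) ≤ b := by positivity
            linarith
  | bot T lo hi s b n A B h1 h2 h ih =>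
      intro q eps E h0 hT hE
      have hwA := wt_nonneg A
      have hwB := wt_nonneg B
      rw [wt_cons] at hE
      have hbn : (0 : ℤ) ≤ b * n := by positivity
      have hb0 : (0 : ℤ) ≤ b := by positivity
      push_cast at hE
      have hbE : E - eps ≥ b := by nlinarith
      obtain ⟨i1, i2⟩ := ih q (eps + b) E (by linarith) (by rw [hT]; ring) (by
        rw [wt_cons]; linarith)
      constructor
      · apply addH (x := q - s - b - eps) i1
        · right; linarith
        · linarith
        · linarith
        · linarith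
        · linarith
        · have := lowleaf (q - s - b) eps b h0
          rw [baH, this]
          apply Ioc_add
          · linarith
          · linarith
      · apply addL (x := s + b + 1 + eps) i2
        · left; linarith
        · linarith
        · linarith
        · linarith
        · linarith
        · have := highleaf s eps b h0
          rw [baL, this]
          apply Ioc_add
          · linarith
          · linarith

end Pool.Agent.Lib.MP_404fd0_co
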