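import Mathlib
import Pool.Agent.Lib.MP_404fd0_co.Real
import Pool.Agent.Lib.MP_404fd0_co.Alt

namespace Pool.Agent.Lib.MP_404fd0_co

/-- A labelled block: base labels and leaf labels. -/
abbrev RB := Multiset ℤ × Multiset ℤ

def shp (r : RB) : ℕ × ℕ := (Multiset.card r.1, Multiset.card r.2)

def lab (R : Multiset RB) : Multiset ℤ := (R.map (fun r => r.1 + r.2)).sum

def edg (R : Multiset RB) : Multiset ℤ :=
  (R.map (fun r => r.1.map (fun p => |p|) + dif r.1 r.2)).sum

theorem lab_cons (r : RB) (R : Multiset RB) : lab (r ::ₘ R) = r.1 + r.2 + lab R := by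
  simp [lab]

theorem edg_cons (r : RB) (R : Multiset RB) :
    edg (r ::ₘ R) = r.1.map (fun p => |p|) + dif r.1 r.2 + edg R := by
  simp [edg]

theorem lab_add (R S : Multiset RB) : lab (R + S) = lab R + lab S := by
  simp [lab]

theorem edg_add (R S : Multiset RB) : edg (R + S) = edg R + edg S := by
  simp [edg]

/-- Certificate: distinct labels in `[-μ, u]`, edge labels `1, ..., q`. -/
structure Cert (μ u q : ℤ) (R : Multiset RB) : Prop where
  nodup : (0 ::ₘ lab R).Nodup
  bd : ∀ x ∈ lab R, -μ ≤ x ∧ x ≤ u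
  edges : edg R = (Finset.Ioc 0 q).val
  hμ : 0 ≤ μ
  hu : 0 ≤ u
  hq : u ≤ q

/-- The family `F` has a graceful labelling. -/
def Final (F : Multiset (ℕ × ℕ)) : Prop :=
  ∃ R μ u q, R.map shp = F ∧ Cert μ u q R ∧ μ + u ≤ q

theorem cert_zero : Cert 0 0 0 0 := by
  refine ⟨by simp [lab], by simp [lab], by simp [edg], le_rfl, le_rfl, le_rfl⟩

theorem Cert.addBlock {μ u q μ' u' q' : ℤ} {R : Multiset RB} (h : Cert μ u q R)
    {Bs Ls : Multiset ℤ} (hnd : (Bs + Ls).Nodup)
    (hnew : ∀ x ∈ Bs + Ls, x ≠ 0 ∧ x ∉ lab R)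
    (hbd : ∀ x ∈ Bs + Ls, -μ' ≤ x ∧ x ≤ u') (hμ : μ ≤ μ') (hu : u ≤ u') (hq' : u' ≤ q')
    (hed : Bs.map (fun p => |p|) + dif Bs Ls = (Finset.Ioc q q').val) (hqq : q ≤ q') :
    Cert μ' u' q' ((Bs, Ls) ::ₘ R) := by
  obtain ⟨h1, h2, h3, h4, h5, h6⟩ := h
  rw [Multiset.nodup_cons] at h1
  refine ⟨?_, ?_, ?_, by linarith, by linarith, hq'⟩
  · rw [lab_cons, Multiset.nodup_cons]
    refine ⟨?_, ?_⟩
    · intro h0
      rcases Multiset.mem_add.1 h0 with h0 | h0
      · exact (hnew 0 h0).1 rfl
      · exact h1.1 h0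
    · rw [Multiset.nodup_add]
      refine ⟨hnd, h1.2, ?_⟩
      rw [Multiset.disjoint_left]
      intro x hx hx'
      exact (hnew x hx).2 hx'
  · intro x hx
    rw [lab_cons] at hx
    rcases Multiset.mem_add.1 hx with hx | hx
    · exact hbd x hx
    · have := h2 x hx
      exact ⟨by linarith [this.1], by linarith [this.2]⟩
  · rw [edg_cons, h3]
    simp only
    rw [hed, add_comm]
    exact Ioc_add _ _ _ (by linarith) hqq

theorem Cert.addLeaf {μ u q μ' u' : ℤ} {R : Multiset RB} {c x : ℤ} {b : ℕ} {ls : Multiset ℤ}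
    (h : Cert μ u q (((Finset.Ioc c (c + b)).val, ls) ::ₘ R))
    (hx : x = c - q) (hx0 : x ≠ 0)
    (hnew : x ∉ lab (((Finset.Ioc c (c + b)).val, ls) ::ₘ R))
    (hx1 : -μ' ≤ x) (hx2 : x ≤ u') (hμ : μ ≤ μ') (hu : u ≤ u') (hq' : u' ≤ q + b) :
    Cert μ' u' (q + b) (((Finset.Ioc c (c + b)).val, x ::ₘ ls) ::ₘ R) := by
  obtain ⟨h1, h2, h3, h4, h5, h6⟩ := h
  rw [Multiset.nodup_cons] at h1
  rw [lab_cons] at h1 h2 hnew
  simp only at h1 h2 hnew
  have hlab : lab (((Finset.Ioc c (c + b)).val, x ::ₘ ls) ::ₘ R) =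
      x ::ₘ ((Finset.Ioc c (c + b)).val + ls + lab R) := by
    rw [lab_cons]
    simp only [← Multiset.singleton_add]
    abel
  refine ⟨?_, ?_, ?_, by linarith, by linarith, hq'⟩
  · rw [hlab, Multiset.nodup_cons, Multiset.nodup_cons]
    refine ⟨?_, hnew, h1.2⟩
    intro h0
    rcases Multiset.mem_cons.1 h0 with h0 | h0
    · exact hx0 h0.symm
    · exact h1.1 h0
  · intro z hz
    rw [hlab] at hz
    rcases Multiset.mem_cons.1 hz with rfl | hz
    · exact ⟨hx1, hx2⟩
    · have := h2 z hz
      exact ⟨by linarith [this.1], by linarith [this.2]⟩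
  · rw [edg_cons] at h3 ⊢
    simp only at h3 ⊢
    rw [dif_cons]
    have h7 := lowleaf c q b (by linarith)
    rw [← hx] at h7
    rw [h7]
    have h8 : (Finset.Ioc 0 q).val + (Finset.Ioc q (q + b)).val =
        (Finset.Ioc 0 (q + b)).val := by
      apply Ioc_add
      · linarith
      · have : (0 : ℤ) ≤ b := by positivity
        linarith
    rw [← h8, ← h3]
    abel

theorem card_Ioc (c : ℤ) (b : ℕ) : Multiset.card (Finset.Ioc c (c + b)).val = b := by
  rw [Finset.card_val, Int.card_Ioc]
  simp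

theorem abs_Ioc (a b : ℤ) (ha : 0 ≤ a) :
    (Finset.Ioc a b).val.map (fun p => |p|) = (Finset.Ioc a b).val := by
  have : ∀ p ∈ (Finset.Ioc a b).val, |p| = p := by
    intro p hp
    rw [Finset.mem_val, Finset.mem_Ioc] at hp
    apply abs_of_nonneg
    linarith [hp.1]
  rw [Multiset.map_congr rfl this, Multiset.map_id']

/-- Add a block without leaves on top. -/
theorem Cert.addBase {μ u q : ℤ} {R : Multiset RB} (h : Cert μ u q R) (b : ℕ) :
    Cert μ (q + b) (q + b) (((Finset.Ioc q (q + b)).val, 0) ::ₘ R) := by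
  have hb : (0 : ℤ) ≤ b := by positivity
  have hu := h.hu
  have hq := h.hq
  have hμ := h.hμ
  apply h.addBlock
  · rw [add_zero]; exact Finset.nodup _
  · intro x hx
    rw [add_zero, Finset.mem_val, Finset.mem_Ioc] at hx
    refine ⟨by linarith [hx.1], ?_⟩
    intro hx'
    have := (h.bd x hx').2
    linarith [hx.1]
  · intro x hx
    rw [add_zero, Finset.mem_val, Finset.mem_Ioc] at hx
    exact ⟨by linarith [hx.1], hx.2⟩
  · exact le_rfl
  · linarith
  · exact le_rfl
  · rw [dif_zero, add_zero]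
    exact abs_Ioc _ _ (by linarith)
  · linarith

/-- Pendants. -/
theorem Cert.pend {μ u q : ℤ} {R : Multiset RB} (h : Cert μ u q R) (P : ℕ) :
    ∃ (R' : Multiset RB) (u' : ℤ), Cert μ u' (q + P) R' ∧
      R'.map shp = R.map shp + Multiset.replicate P (1, 0) := by
  induction P with
  | zero => exact ⟨R, u, by simpa using h, by simp⟩
  | succ P ih =>
      obtain ⟨R', u', h1, h2⟩ := ih
      refine ⟨((Finset.Ioc (q + P) (q + P + (1 : ℕ))).val, 0) ::ₘ R', q + P + (1 : ℕ), ?_, ?_⟩
      · have := h1.addBase 1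
        have e : q + ((P + 1 : ℕ) : ℤ) = q + P + (1 : ℕ) := by push_cast; ring
        rw [e]
        exact this
      · rw [Multiset.map_cons, h2]
        have : shp ((Finset.Ioc (q + P) (q + P + (1 : ℕ))).val, 0) = (1, 0) := by
          unfold shp
          simp only [Multiset.card_zero]
          rw [card_Ioc]
        rw [this, Multiset.replicate_succ, Multiset.add_cons]

/-- Add a block with all leaves multiples of its size. -/
theorem Cert.mtype {μ u q : ℤ} {R : Multiset RB} (h : Cert μ u q R) {b : ℕ} (hb : μ < b)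
    (n : ℕ) : ∃ ls : Multiset ℤ, Multiset.card ls = n ∧
      Cert (max μ (b * n)) (q + b) (q + b + b * n)
        (((Finset.Ioc q (q + b)).val, ls) ::ₘ R) := by
  have hμ := h.hμ
  have hu := h.hu
  have hq := h.hq
  induction n with
  | zero =>
      refine ⟨0, rfl, ?_⟩
      have e1 : max μ ((b : ℤ) * (0 : ℕ)) = μ := by
        rw [max_eq_left]
        simpa using hμ
      have e2 : q + (b : ℤ) + b * (0 : ℕ) = q + b := by push_cast; ring
      rw [e1, e2]
      exact h.addBase b
  | succ n ih =>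
      obtain ⟨ls, hc, h1⟩ := ih
      have hbn : (0 : ℤ) ≤ b * n := by positivity
      have e2 : q + (b : ℤ) + b * ((n + 1 : ℕ) : ℤ) = q + b + b * n + b := by push_cast; ring
      have e3 : (b : ℤ) * ((n + 1 : ℕ) : ℤ) = b * n + b := by push_cast; ring
      have hlt : max μ ((b : ℤ) * n) < b * n + b := by
        apply max_lt
        · linarith
        · linarith
      refine ⟨(q - (q + b + b * n)) ::ₘ ls, by rw [Multiset.card_cons, hc], ?_⟩
      rw [e2, e3]
      apply h1.addLeaf
      · rfl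
      · linarith
      · intro hmem
        have := (h1.bd _ hmem).1
        linarith
      · rw [max_eq_right (by linarith)]
        linarith
      · linarith
      · rw [max_eq_right (by linarith : μ ≤ (b : ℤ) * n + b)]
        exact hlt.le
      · exact le_rfl
      · linarith

/-- Peel blocks `(s, 1)`. -/
theorem Cert.peel : ∀ (S : Multiset (ℕ × ℕ)), ∀ {μ u q : ℤ} {R : Multiset RB},
    Cert μ u q R → S.Nodup → (∀ x ∈ S, x.2 = 1 ∧ μ < x.1) →
    ∃ R' μ' u' q', Cert μ' u' q' R' ∧ R'.map shp = R.map shp + S ∧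
      (μ' + u' ≤ q' ∨ (S = 0 ∧ μ' = μ ∧ u' = u ∧ q' = q)) := by
  refine min_induction ?_ ?_
  · intro μ u q R h _ _
    exact ⟨R, μ, u, q, h, by simp, Or.inr ⟨rfl, rfl, rfl, rfl⟩⟩
  · intro g S hg ih μ u q R h hnd hS
    obtain ⟨s, n⟩ := g
    obtain ⟨hn, hs⟩ := hS (s, n) (Multiset.mem_cons_self _ _)
    simp only at hn hs
    subst hn
    have hμ := h.hμ
    obtain ⟨ls, hc, h1⟩ := h.mtype hs 1
    have e1 : max μ ((s : ℤ) * (1 : ℕ)) = s := by
      rw [max_eq_right]
      · push_cast; ring
      · push_cast; linarith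
    have e2 : q + (s : ℤ) + s * (1 : ℕ) = q + s + s := by push_cast; ring
    rw [e1, e2] at h1
    rw [Multiset.nodup_cons] at hnd
    obtain ⟨R', μ', u', q', h2, h3, h4⟩ := ih h1 hnd.2 (by
      intro x hx
      have h5 := hS x (Multiset.mem_cons_of_mem hx)
      refine ⟨h5.1, ?_⟩
      have h6 : s ≤ x.1 := hg x hx
      have h7 : s ≠ x.1 := by
        intro h8
        apply hnd.1
        have : ((s, 1) : ℕ × ℕ) = x := Prod.ext h8 h5.1.symm
        rw [this]
        exact hx
      have h8 : s < x.1 := by omega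
      exact_mod_cast h8)
    refine ⟨R', μ', u', q', h2, ?_, ?_⟩
    · rw [h3, Multiset.map_cons]
      have : shp ((Finset.Ioc q (q + s)).val, ls) = (s, 1) := by
        unfold shp
        simp only
        rw [card_Ioc, hc]
      rw [this, Multiset.cons_add, Multiset.add_cons]
    · left
      rcases h4 with h4 | ⟨_, rfl, rfl, rfl⟩
      · exact h4
      · linarith

/-- Everything outside. -/
theorem Cert.finish {μ u q : ℤ} {R : Multiset RB} (h : Cert μ u q R) {S : Multiset (ℕ × ℕ)}
    (hnd : S.Nodup) (hS : ∀ x ∈ S, x.2 = 1 ∧ μ < x.1)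
    (hcl : S ≠ 0 ∨ μ + u ≤ q) : Final (R.map shp + S) := by
  obtain ⟨R', μ', u', q', h1, h2, h3⟩ := h.peel S hnd hS
  refine ⟨R', μ', u', q', h2, h1, ?_⟩
  rcases h3 with h3 | ⟨h3, rfl, rfl, rfl⟩
  · exact h3
  · rcases hcl with h4 | h4
    · exact absurd h3 h4
    · exact h4

/-- Base and leaves of a block with consecutive leaves. -/
def bsC (q : ℤ) (n y : ℕ) : Multiset ℤ :=
  (Multiset.range y).map (fun j : ℕ => q + 1 + (n + 1) * (j : ℤ))

def lsC (n : ℕ) : Multiset ℤ := (Multiset.range n).map (fun i : ℕ => -((i : ℤ) + 1))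

theorem dif_cons_left (p : ℤ) (Bs Ls : Multiset ℤ) :
    dif (p ::ₘ Bs) Ls = Ls.map (fun x => |p - x|) + dif Bs Ls := by
  induction Ls using Multiset.induction_on with
  | empty => simp [dif]
  | cons x Ls ih =>
      rw [dif_cons, dif_cons, ih, Multiset.map_cons, Multiset.map_cons]
      simp only [← Multiset.singleton_add]
      abel

theorem edC_one (p : ℤ) (n : ℕ) (hp : 1 ≤ p) :
    |p| ::ₘ (lsC n).map (fun x => |p - x|) = (Finset.Ioc (p - 1) (p - 1 + (n + 1))).val := by
  induction n with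
  | zero =>
      have : lsC 0 = 0 := by simp [lsC]
      rw [this, abs_of_nonneg (by linarith)]
      apply (Multiset.Nodup.ext (by simp) (Finset.nodup _)).2
      intro a
      simp only [Multiset.map_zero, Multiset.mem_cons, Multiset.notMem_zero, or_false,
        Finset.mem_val, Finset.mem_Ioc]
      push_cast
      omega
  | succ n ih =>
      have h1 : lsC (n + 1) = (-((n : ℤ) + 1)) ::ₘ lsC n := by
        simp [lsC, Multiset.range_succ]
      rw [h1, Multiset.map_cons, Multiset.cons_swap, ih]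
      have h2 : |p - -((n : ℤ) + 1)| = p - 1 + (n + 1) + 1 := by
        rw [abs_of_nonneg (by
          have : (0 : ℤ) ≤ n := by positivity
          linarith)]
        ring
      rw [h2]
      have h3 := Ioc_add (p - 1) (p - 1 + (n + 1)) (p - 1 + ((n + 1 : ℕ) + 1))
        (by have : (0 : ℤ) ≤ n := by positivity
            linarith) (by push_cast; linarith)
      rw [← h3]
      have h4 : (Finset.Ioc (p - 1 + ((n : ℤ) + 1)) (p - 1 + ((n + 1 : ℕ) + 1))).val =
          {p - 1 + ((n : ℤ) + 1) + 1} := by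
        apply (Multiset.Nodup.ext (Finset.nodup _) (by simp)).2
        intro a
        simp only [Finset.mem_val, Finset.mem_Ioc, Multiset.mem_singleton]
        push_cast
        omega
      rw [h4, ← Multiset.singleton_add, add_comm]

theorem edC (q : ℤ) (n y : ℕ) (hq : 0 ≤ q) :
    (bsC q n y).map (fun p => |p|) + dif (bsC q n y) (lsC n) =
      (Finset.Ioc q (q + (n + 1) * y)).val := by
  induction y with
  | zero => simp [bsC, dif]
  | succ y ih =>
      have h1 : bsC q n (y + 1) = (q + 1 + (n + 1) * (y : ℤ)) ::ₘ bsC q n y := by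
        simp [bsC, Multiset.range_succ]
      have hny : (0 : ℤ) ≤ (n + 1) * y := by positivity
      rw [h1, Multiset.map_cons, dif_cons_left]
      have h2 := edC_one (q + 1 + (n + 1) * (y : ℤ)) n (by linarith)
      have h3 := Ioc_add q (q + (n + 1) * y) (q + (n + 1) * ((y + 1 : ℕ) : ℤ))
        (by linarith) (by push_cast; nlinarith [(by positivity : (0 : ℤ) ≤ n)])
      rw [← h3, ← ih]
      have e1 : q + 1 + (n + 1) * (y : ℤ) - 1 = q + (n + 1) * y := by ring
      have e2 : q + (n + 1) * (y : ℤ) + (n + 1) = q + (n + 1) * ((y + 1 : ℕ) : ℤ) := by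
        push_cast; ring
      rw [e1, e2] at h2
      rw [← h2]
      simp only [← Multiset.singleton_add]
      abel

theorem Cert.ctype {μ u q : ℤ} {R : Multiset RB} (h : Cert μ u q R) {y n : ℕ} (hy : 1 ≤ y)
    (hnew : ∀ j : ℤ, 1 ≤ j → j ≤ n → -j ∉ lab R) :
    ∃ r : RB, shp r = (y, n) ∧
      Cert (max μ n) (q + 1 + (n + 1) * (y - 1)) (q + (n + 1) * y) (r ::ₘ R) := by
  have hμ := h.hμ
  have hu := h.hu
  have hq := h.hq
  have hy' : (1 : ℤ) ≤ y := by exact_mod_cast hy
  have hn' : (0 : ℤ) ≤ n := by positivity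
  have hbs : ∀ x ∈ bsC q n y, q + 1 ≤ x ∧ x ≤ q + 1 + (n + 1) * ((y : ℤ) - 1) := by
    intro x hx
    obtain ⟨j, hj, rfl⟩ := Multiset.mem_map.1 hx
    rw [Multiset.mem_range] at hj
    have hj1 : (j : ℤ) ≤ y - 1 := by
      have : (j : ℤ) + 1 ≤ y := by exact_mod_cast hj
      linarith
    have hj0 : (0 : ℤ) ≤ j := by positivity
    constructor
    · have : 0 ≤ ((n : ℤ) + 1) * j := by positivity
      linarith
    · have : ((n : ℤ) + 1) * j ≤ (n + 1) * (y - 1) := by
        apply mul_le_mul_of_nonneg_left hj1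
        linarith
      linarith
  have hls : ∀ x ∈ lsC n, -(n : ℤ) ≤ x ∧ x ≤ -1 := by
    intro x hx
    obtain ⟨j, hj, rfl⟩ := Multiset.mem_map.1 hx
    rw [Multiset.mem_range] at hj
    have : (j : ℤ) + 1 ≤ n := by exact_mod_cast hj
    have hj0 : (0 : ℤ) ≤ j := by positivity
    constructor
    · linarith
    · linarith
  refine ⟨(bsC q n y, lsC n), ?_, ?_⟩
  · simp [shp, bsC, lsC]
  · have hprod : (0 : ℤ) ≤ (n + 1) * (y - 1) := by
      apply mul_nonneg
      · linarith
      · linarith
    apply h.addBlock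
    · rw [Multiset.nodup_add]
      refine ⟨?_, ?_, ?_⟩
      · apply Multiset.Nodup.map _ (Multiset.nodup_range _)
        intro a b hab
        simp only at hab
        have h1 : ((n : ℤ) + 1) * a = (n + 1) * b := by linarith
        have h2 : (a : ℤ) = b := mul_left_cancel₀ (by linarith) h1
        exact_mod_cast h2
      · apply Multiset.Nodup.map _ (Multiset.nodup_range _)
        intro a b hab
        simp only at hab
        have h2 : (a : ℤ) = b := by linarith
        exact_mod_cast h2
      · rw [Multiset.disjoint_left]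
        intro x hx hx'
        have := (hbs x hx).1
        have := (hls x hx').2
        linarith
    · intro x hx
      rcases Multiset.mem_add.1 hx with hx | hx
      · have h1 := (hbs x hx).1
        refine ⟨by linarith, ?_⟩
        intro hx'
        have := (h.bd x hx').2
        linarith
      · have h1 := hls x hx
        refine ⟨by linarith [h1.2], ?_⟩
        have := hnew (-x) (by linarith [h1.2]) (by linarith [h1.1])
        rw [neg_neg] at this
        exact this
    · intro x hx
      rcases Multiset.mem_add.1 hx with hx | hx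
      · have h1 := hbs x hx
        have := le_max_left μ (n : ℤ)
        exact ⟨by linarith [h1.1], h1.2⟩
      · have h1 := hls x hx
        have := le_max_right μ (n : ℤ)
        exact ⟨by linarith [h1.1], by linarith [h1.2]⟩
    · exact le_max_left _ _
    · linarith
    · nlinarith
    · exact edC q n y (by linarith)
    · nlinarith

end Pool.Agent.Lib.MP_404fd0_co
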