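import Mathlib
import Pool.Agent.Lib.MP_404fd0_co.Cert

namespace Pool.Agent.Lib.MP_404fd0_co

noncomputable def toH (q : ℤ) (r : PB) : RB := (baH q r.1 r.2.1, r.2.2)

noncomputable def toL (r : PB) : RB := (baL r.1 r.2.1, r.2.2)

theorem shp_toH (q : ℤ) (r : PB) : shp (toH q r) = (skel r).2 := by
  obtain ⟨s, b, ls⟩ := r
  simp only [shp, toH, skel, baH]
  rw [card_Ioc]

theorem shp_toL (r : PB) : shp (toL r) = (skel r).2 := by
  obtain ⟨s, b, ls⟩ := r
  simp only [shp, toL, skel, baL]
  rw [card_Ioc]

theorem map_snd_pos : ∀ (h : ℤ) (N : List (ℕ × ℕ)),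
    (pos h N).map (fun a => a.2) = (N : Multiset (ℕ × ℕ)) := by
  intro h N
  induction N generalizing h with
  | nil => simp [pos]
  | cons a N ih =>
      obtain ⟨b, n⟩ := a
      rw [pos_cons, Multiset.map_cons, ih, Multiset.cons_coe]

theorem sz_nonneg (N : List (ℕ × ℕ)) : 0 ≤ sz N := by
  unfold sz
  apply List.sum_nonneg
  intro x hx
  obtain ⟨a, _, rfl⟩ := List.mem_map.1 hx
  positivity

theorem sum_baH (q : ℤ) : ∀ (h : ℤ) (N : List (ℕ × ℕ)),
    ((pos h N).map (fun a => baH q a.1 a.2.1)).sum =
      (Finset.Ioc (q - h - sz N) (q - h)).val := by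
  intro h N
  induction N generalizing h with
  | nil => simp [pos, sz_nil]
  | cons a N ih =>
      obtain ⟨b, n⟩ := a
      rw [pos_cons, Multiset.map_cons, Multiset.sum_cons, ih, sz_cons]
      simp only [baH]
      have e1 : q - h - (b : ℤ) + b = q - h := by ring
      have e2 : q - (h + (b : ℤ)) = q - h - b := by ring
      have e3 : q - h - ((b : ℤ) + sz N) = q - h - b - sz N := by ring
      rw [e1, e2, e3, add_comm]
      have h1 := sz_nonneg N
      have h2 : (0 : ℤ) ≤ b := by positivity
      exact Ioc_add _ _ _ (by linarith) (by linarith)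

theorem sum_baL : ∀ (h : ℤ) (N : List (ℕ × ℕ)),
    ((pos h N).map (fun a => baL a.1 a.2.1)).sum =
      (Finset.Ioc h (h + sz N)).val := by
  intro h N
  induction N generalizing h with
  | nil => simp [pos, sz_nil]
  | cons a N ih =>
      obtain ⟨b, n⟩ := a
      rw [pos_cons, Multiset.map_cons, Multiset.sum_cons, ih, sz_cons]
      simp only [baL]
      have e3 : h + ((b : ℤ) + sz N) = h + b + sz N := by ring
      rw [e3]
      have h1 := sz_nonneg N
      have h2 : (0 : ℤ) ≤ b := by positivity
      exact Ioc_add _ _ _ (by linarith) (by linarith)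

theorem sum_map_abs (R : Multiset (Multiset ℤ)) :
    (R.map (fun s => s.map (fun p => |p|))).sum = R.sum.map (fun p => |p|) := by
  induction R using Multiset.induction_on with
  | empty => simp
  | cons a R ih => rw [Multiset.map_cons, Multiset.sum_cons, ih, Multiset.sum_cons,
      Multiset.map_add]

theorem lab_toH (q : ℤ) (RA : Multiset PB) :
    lab (RA.map (toH q)) = ((RA.map skel).map (fun a => baH q a.1 a.2.1)).sum + lv RA := by
  induction RA using Multiset.induction_on with
  | empty => simp [lab, lv]
  | cons a R ih =>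
      rw [Multiset.map_cons, lab_cons, ih, lv_cons, Multiset.map_cons, Multiset.map_cons,
        Multiset.sum_cons]
      simp only [toH, skel]
      abel

theorem lab_toL (RA : Multiset PB) :
    lab (RA.map toL) = ((RA.map skel).map (fun a => baL a.1 a.2.1)).sum + lv RA := by
  induction RA using Multiset.induction_on with
  | empty => simp [lab, lv]
  | cons a R ih =>
      rw [Multiset.map_cons, lab_cons, ih, lv_cons, Multiset.map_cons, Multiset.map_cons,
        Multiset.sum_cons]
      simp only [toL, skel]
      abel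

theorem edg_toH (q : ℤ) (RA : Multiset PB) :
    edg (RA.map (toH q)) =
      (((RA.map skel).map (fun a => baH q a.1 a.2.1)).sum).map (fun p => |p|) + edH q RA := by
  induction RA using Multiset.induction_on with
  | empty => simp [edg, edH]
  | cons a R ih =>
      rw [Multiset.map_cons, edg_cons, ih, edH_cons, Multiset.map_cons, Multiset.map_cons,
        Multiset.sum_cons, Multiset.map_add]
      simp only [toH, skel]
      abel

theorem edg_toL (RA : Multiset PB) :
    edg (RA.map toL) =
      (((RA.map skel).map (fun a => baL a.1 a.2.1)).sum).map (fun p => |p|) + edL RA := by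
  induction RA using Multiset.induction_on with
  | empty => simp [edg, edL]
  | cons a R ih =>
      rw [Multiset.map_cons, edg_cons, ih, edL_cons, Multiset.map_cons, Multiset.map_cons,
        Multiset.sum_cons, Multiset.map_add]
      simp only [toL, skel]
      abel

/-- Pendants at the labels in `(c, c + k]`. -/
noncomputable def pb (c : ℤ) (k : ℕ) : Multiset RB :=
  (Finset.Ioc c (c + k)).val.map (fun x => (({x} : Multiset ℤ), (0 : Multiset ℤ)))

theorem lab_pb (c : ℤ) (k : ℕ) : lab (pb c k) = (Finset.Ioc c (c + k)).val := by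
  unfold lab pb
  rw [Multiset.map_map]
  simp only [Function.comp_def, add_zero]
  exact Multiset.sum_map_singleton _

theorem edg_pb (c : ℤ) (k : ℕ) (hc : 0 ≤ c) : edg (pb c k) = (Finset.Ioc c (c + k)).val := by
  unfold edg pb
  rw [Multiset.map_map]
  simp only [Function.comp_def, dif_zero, add_zero, Multiset.map_singleton]
  have : (Multiset.map (fun x : ℤ => ({|x|} : Multiset ℤ)) (Finset.Ioc c (c + k)).val) =
      (((Finset.Ioc c (c + k)).val.map (fun p => |p|)).map (fun x : ℤ => ({x} : Multiset ℤ))) := by
    rw [Multiset.map_map]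
    rfl
  rw [this, Multiset.sum_map_singleton]
  exact abs_Ioc _ _ hc

theorem shp_pb (c : ℤ) (k : ℕ) : (pb c k).map shp = Multiset.replicate k (1, 0) := by
  unfold pb
  rw [Multiset.map_map]
  have : ∀ x ∈ (Finset.Ioc c (c + k)).val,
      (shp ∘ fun x : ℤ => (({x} : Multiset ℤ), (0 : Multiset ℤ))) x = (1, 0) := by
    intro x _
    simp [shp]
  rw [Multiset.map_congr rfl this, Multiset.map_const', card_Ioc]

theorem nodup_add_lt {A B : Multiset ℤ} (c : ℤ) (hA : A.Nodup) (hB : B.Nodup)
    (h1 : ∀ x ∈ A, x ≤ c) (h2 : ∀ x ∈ B, c < x) : (A + B).Nodup := by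
  rw [Multiset.nodup_add]
  refine ⟨hA, hB, ?_⟩
  rw [Multiset.disjoint_left]
  intro x hx hx'
  have := h1 x hx
  have := h2 x hx'
  linarith

theorem inner {z σ μ : ℤ} {HL : List (ℕ × ℕ)} {B : Multiset Blk} {BB : Multiset ℤ} {h l : ℕ}
    (hw : Win z z z (pos 0 HL) B) (hz : z = sz HL - σ + h - l) (hσ : 0 ≤ σ) (hμ : 0 ≤ μ)
    (hBB : (B.map (fun a => baL a.1 a.2.1)).sum = BB) (hBnd : BB.Nodup)
    (hBb : ∀ x ∈ BB, -μ ≤ x ∧ x ≤ σ ∧ x ≠ 0)
    (hBabs : BB.map (fun p => |p|) = (Finset.Ioc 0 σ).val) :
    ∃ (q : ℤ) (RA : Multiset PB) (R2 : Multiset RB), RA.map skel = pos 0 HL ∧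
      Cert μ q q (RA.map (toH q) + R2) ∧
      R2.map shp = B.map (fun a => a.2) + Multiset.replicate (h + l) (1, 0) := by
  have hszH := sz_nonneg HL
  have hwA := wt_nonneg (pos 0 HL)
  have hwB := wt_nonneg B
  have hh : (0 : ℤ) ≤ h := by positivity
  have hl : (0 : ℤ) ≤ l := by positivity
  obtain ⟨w, hwdef⟩ : ∃ w, w = wt (pos 0 HL) + wt B := ⟨_, rfl⟩
  have hw0 : 0 ≤ w := by linarith
  obtain ⟨⟨RA, RB, h1, h2, h3, h4, h5⟩, -⟩ := real_main hw (w + σ + l + sz HL + h) (σ + l)
    (w + σ + l) (by linarith) (by linarith) (by linarith)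
  refine ⟨w + σ + l + sz HL + h, RA, RB.map toL + (pb (w + σ + l) h + pb σ l), h1, ?_, ?_⟩
  · have hlab : lab (RA.map (toH (w + σ + l + sz HL + h)) +
        (RB.map toL + (pb (w + σ + l) h + pb σ l))) =
        BB + (Finset.Ioc σ (σ + l)).val + (lv RA + lv RB) +
          (Finset.Ioc (w + σ + l) (w + σ + l + h)).val +
          (Finset.Ioc (w + σ + l + h) (w + σ + l + sz HL + h)).val := by
      rw [lab_add, lab_add, lab_add, lab_toH, lab_toL, lab_pb, lab_pb, h1, h2, hBB, sum_baH]
      have e1 : w + σ + l + sz HL + h - 0 - sz HL = w + σ + l + h := by ring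
      have e2 : w + σ + l + sz HL + h - 0 = w + σ + l + sz HL + h := by ring
      rw [e1, e2]
      abel
    have hed : edg (RA.map (toH (w + σ + l + sz HL + h)) +
        (RB.map toL + (pb (w + σ + l) h + pb σ l))) =
        (Finset.Ioc 0 (w + σ + l + sz HL + h)).val := by
      rw [edg_add, edg_add, edg_add, edg_toH, edg_toL, edg_pb _ _ (by linarith),
        edg_pb _ _ hσ, h1, h2, hBB, sum_baH, hBabs]
      have e1 : w + σ + l + sz HL + h - 0 - sz HL = w + σ + l + h := by ring
      have e2 : w + σ + l + sz HL + h - 0 = w + σ + l + sz HL + h := by ring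
      rw [e1, e2, abs_Ioc _ _ (by linarith)]
      rw [← Ioc_add 0 σ (w + σ + l + sz HL + h) hσ (by linarith),
        ← Ioc_add σ (σ + l) (w + σ + l + sz HL + h) (by linarith) (by linarith),
        ← Ioc_add (σ + l) (w + σ + l) (w + σ + l + sz HL + h) (by linarith) (by linarith),
        ← Ioc_add (w + σ + l) (w + σ + l + h) (w + σ + l + sz HL + h) (by linarith)
          (by linarith), ← h5]
      abel
    have hb1 : ∀ x ∈ lv RA + lv RB, σ + l < x ∧ x ≤ w + σ + l := by
      intro x hx
      have := h4 x hx
      constructor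
      · linarith [this.1]
      · have := this.2
        have : x < w + σ + l + 1 := by linarith
        linarith
    refine ⟨?_, ?_, hed, hμ, by linarith, le_rfl⟩
    · rw [hlab]
      have n1 : (BB + (Finset.Ioc σ (σ + l)).val).Nodup := by
        apply nodup_add_lt σ hBnd (Finset.nodup _)
        · intro x hx
          exact (hBb x hx).2.1
        · intro x hx
          rw [Finset.mem_val, Finset.mem_Ioc] at hx
          exact hx.1
      have n2 : (BB + (Finset.Ioc σ (σ + l)).val + (lv RA + lv RB)).Nodup := by
        apply nodup_add_lt (σ + l) n1 h3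
        · intro x hx
          rcases Multiset.mem_add.1 hx with hx | hx
          · linarith [(hBb x hx).2.1]
          · rw [Finset.mem_val, Finset.mem_Ioc] at hx
            exact hx.2
        · intro x hx
          exact (hb1 x hx).1
      have b2 : ∀ x ∈ BB + (Finset.Ioc σ (σ + l)).val + (lv RA + lv RB), x ≤ w + σ + l := by
        intro x hx
        rcases Multiset.mem_add.1 hx with hx | hx
        · rcases Multiset.mem_add.1 hx with hx | hx
          · linarith [(hBb x hx).2.1]
          · rw [Finset.mem_val, Finset.mem_Ioc] at hx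
            linarith [hx.2]
        · exact (hb1 x hx).2
      have n3 : (BB + (Finset.Ioc σ (σ + l)).val + (lv RA + lv RB) +
          (Finset.Ioc (w + σ + l) (w + σ + l + h)).val).Nodup := by
        apply nodup_add_lt (w + σ + l) n2 (Finset.nodup _) b2
        intro x hx
        rw [Finset.mem_val, Finset.mem_Ioc] at hx
        exact hx.1
      rw [Multiset.nodup_cons]
      refine ⟨?_, ?_⟩
      · intro h0
        rcases Multiset.mem_add.1 h0 with h0 | h0
        · rcases Multiset.mem_add.1 h0 with h0 | h0
          · rcases Multiset.mem_add.1 h0 with h0 | h0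
            · rcases Multiset.mem_add.1 h0 with h0 | h0
              · exact (hBb 0 h0).2.2 rfl
              · rw [Finset.mem_val, Finset.mem_Ioc] at h0
                linarith [h0.1]
            · linarith [(hb1 0 h0).1]
          · rw [Finset.mem_val, Finset.mem_Ioc] at h0
            linarith [h0.1]
        · rw [Finset.mem_val, Finset.mem_Ioc] at h0
          linarith [h0.1]
      · apply nodup_add_lt (w + σ + l + h) n3 (Finset.nodup _)
        · intro x hx
          rcases Multiset.mem_add.1 hx with hx | hx
          · linarith [b2 x hx]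
          · rw [Finset.mem_val, Finset.mem_Ioc] at hx
            exact hx.2
        · intro x hx
          rw [Finset.mem_val, Finset.mem_Ioc] at hx
          exact hx.1
    · intro x hx
      rw [hlab] at hx
      rcases Multiset.mem_add.1 hx with hx | hx
      · rcases Multiset.mem_add.1 hx with hx | hx
        · rcases Multiset.mem_add.1 hx with hx | hx
          · rcases Multiset.mem_add.1 hx with hx | hx
            · have := hBb x hx
              exact ⟨this.1, by linarith [this.2.1]⟩
            · rw [Finset.mem_val, Finset.mem_Ioc] at hx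
              exact ⟨by linarith [hx.1], by linarith [hx.2]⟩
          · have := hb1 x hx
            exact ⟨by linarith [this.1], by linarith [this.2]⟩
        · rw [Finset.mem_val, Finset.mem_Ioc] at hx
          exact ⟨by linarith [hx.1], by linarith [hx.2]⟩
      · rw [Finset.mem_val, Finset.mem_Ioc] at hx
        exact ⟨by linarith [hx.1], by linarith [hx.2]⟩
  · rw [Multiset.map_add, Multiset.map_add, shp_pb, shp_pb, Multiset.map_map]
    have : (shp ∘ toL) = (fun a : Blk => a.2) ∘ skel := by
      funext r
      exact shp_toL r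
    rw [this, ← Multiset.map_map, h2, Multiset.replicate_add]

end Pool.Agent.Lib.MP_404fd0_co
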