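import Mathlib
import Pool.Agent.Lib.MP_404fd0_co.Inner

namespace Pool.Agent.Lib.MP_404fd0_co

/-- A closed certificate whose only negative label can be `-b`. -/
def Out (b : ℕ) (F : Multiset (ℕ × ℕ)) : Prop :=
  ∃ R μ u q, R.map shp = F ∧ Cert μ u q R ∧ μ ≤ b ∧ μ + u ≤ q ∧
    (∀ x ∈ lab R, x < 0 → x = -(b : ℤ))

/-- A certificate with labels at least `-b`. -/
def OutW (b : ℕ) (F : Multiset (ℕ × ℕ)) : Prop :=
  ∃ R μ u q, R.map shp = F ∧ Cert μ u q R ∧ μ ≤ b

/-- A certificate with nonnegative labels. -/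
def Out0 (F : Multiset (ℕ × ℕ)) : Prop := ∃ R u q, R.map shp = F ∧ Cert 0 u q R

theorem Out.weak {b : ℕ} {F : Multiset (ℕ × ℕ)} (h : Out b F) : OutW b F := by
  obtain ⟨R, μ, u, q, h1, h2, h3, _, _⟩ := h
  exact ⟨R, μ, u, q, h1, h2, h3⟩

theorem Out.r1 {b : ℕ} {F S : Multiset (ℕ × ℕ)} (h : Out b F) (hnd : S.Nodup)
    (hS : ∀ x ∈ S, x.2 = 1 ∧ b < x.1) : Final (F + S) := by
  obtain ⟨R, μ, u, q, h1, h2, h3, h4, _⟩ := h
  rw [← h1]
  apply h2.finish hnd _ (Or.inr h4)
  intro x hx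
  have := hS x hx
  have h5 : (b : ℤ) < x.1 := by exact_mod_cast this.2
  exact ⟨this.1, by linarith⟩

theorem OutW.r2 {b : ℕ} {F S : Multiset (ℕ × ℕ)} (h : OutW b F) (hnd : S.Nodup)
    (hS : ∀ x ∈ S, x.2 = 1 ∧ b < x.1) (hne : S ≠ 0) (P : ℕ) :
    Final (F + Multiset.replicate P (1, 0) + S) := by
  obtain ⟨R, μ, u, q, h1, h2, h3⟩ := h
  obtain ⟨R', u', h4, h5⟩ := h2.pend P
  rw [← h1, ← h5]
  apply h4.finish hnd _ (Or.inl hne)
  intro x hx
  have := hS x hx
  have h5 : (b : ℤ) < x.1 := by exact_mod_cast this.2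
  exact ⟨this.1, by linarith⟩

theorem Out0.r3 {F S : Multiset (ℕ × ℕ)} (h : Out0 F) (hnd : S.Nodup)
    (hS : ∀ x ∈ S, x.2 = 1 ∧ 1 ≤ x.1) (P : ℕ) :
    Final (F + Multiset.replicate P (1, 0) + S) := by
  obtain ⟨R, u, q, h1, h2⟩ := h
  obtain ⟨R', u', h4, h5⟩ := h2.pend P
  rw [← h1, ← h5]
  apply h4.finish hnd _ (Or.inr (by linarith [h4.hq]))
  intro x hx
  have := hS x hx
  have h5 : (1 : ℤ) ≤ x.1 := by exact_mod_cast this.2
  exact ⟨this.1, by linarith⟩

theorem Out.r4 {x b n : ℕ} {F : Multiset (ℕ × ℕ)} (h : Out x F) (hxb : x < b) (hn : 1 ≤ n)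
    (P : ℕ) : Final ((b, n) ::ₘ (F + Multiset.replicate P (1, 0))) := by
  obtain ⟨R, μ, u, q, h1, h2, h3, h4, _⟩ := h
  obtain ⟨R', u', h5, h6⟩ := h2.pend P
  have hxb' : (x : ℤ) < b := by exact_mod_cast hxb
  have hn' : (1 : ℤ) ≤ n := by exact_mod_cast hn
  have hx0 : (0 : ℤ) ≤ x := by positivity
  obtain ⟨ls, hc, h7⟩ := h5.mtype (b := b) (by linarith) n
  refine ⟨_, _, _, _, ?_, h7, ?_⟩
  · rw [Multiset.map_cons, h6, h1]
    have : shp ((Finset.Ioc (q + P) (q + P + b)).val, ls) = (b, n) := by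
      unfold shp
      simp only
      rw [card_Ioc, hc]
    rw [this]
  · have : (b : ℤ) ≤ b * n := by nlinarith
    rw [max_eq_right (by linarith)]
    linarith

theorem Out.r5 {b y n : ℕ} {F : Multiset (ℕ × ℕ)} (h : Out b F) (hy : 1 ≤ y) (hn : n < b) :
    OutW b ((y, n) ::ₘ F) := by
  obtain ⟨R, μ, u, q, h1, h2, h3, h4, h5⟩ := h
  have hn' : (n : ℤ) < b := by exact_mod_cast hn
  obtain ⟨r, h6, h7⟩ := h2.ctype hy (n := n) (by
    intro j hj1 hj2 hmem
    have := h5 (-j) hmem (by linarith)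
    linarith)
  refine ⟨r ::ₘ R, _, _, _, ?_, h7, ?_⟩
  · rw [Multiset.map_cons, h6, h1]
  · apply max_le h3
    linarith

theorem Out0.r6 {y n : ℕ} {F S : Multiset (ℕ × ℕ)} (h : Out0 F) (hy : 1 ≤ y)
    (hnd : S.Nodup) (hS : ∀ x ∈ S, x.2 = 1 ∧ n < x.1) :
    Final (((y, n) ::ₘ F) + S) := by
  obtain ⟨R, u, q, h1, h2⟩ := h
  have hn0 : (0 : ℤ) ≤ n := by positivity
  obtain ⟨r, h6, h7⟩ := h2.ctype hy (n := n) (by
    intro j hj1 hj2 hmem
    have := (h2.bd (-j) hmem).1
    linarith)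
  have h8 : ((y, n) ::ₘ F) = (r ::ₘ R).map shp := by rw [Multiset.map_cons, h6, h1]
  rw [h8]
  rw [max_eq_right hn0] at h7
  apply h7.finish hnd
  · intro x hx
    have := hS x hx
    have h5 : (n : ℤ) < x.1 := by exact_mod_cast this.2
    exact ⟨this.1, by linarith⟩
  · right
    ring_nf
    exact le_rfl

theorem innerN {z : ℤ} {HL LL : List (ℕ × ℕ)} {h l : ℕ}
    (hw : Win z z z (pos 0 HL) (pos 0 LL)) (hz : z = sz HL - sz LL + h - l) :
    ∃ (q : ℤ) (RA : Multiset PB) (R2 : Multiset RB), RA.map skel = pos 0 HL ∧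
      Cert 0 q q (RA.map (toH q) + R2) ∧
      R2.map shp = (LL : Multiset (ℕ × ℕ)) + Multiset.replicate (h + l) (1, 0) := by
  have h1 := sz_nonneg LL
  have h2 := sum_baL 0 LL
  rw [zero_add] at h2
  have := inner (μ := 0) hw hz h1 le_rfl h2 (Finset.nodup _) (by
    intro x hx
    rw [Finset.mem_val, Finset.mem_Ioc] at hx
    exact ⟨by linarith [hx.1], hx.2, by linarith [hx.1]⟩) (abs_Ioc _ _ le_rfl)
  rw [map_snd_pos] at this
  exact this

theorem map_shp_toH {q : ℤ} {RA : Multiset PB} {h : ℤ} {HL : List (ℕ × ℕ)}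
    (hRA : RA.map skel = pos h HL) :
    (RA.map (toH q)).map shp = (HL : Multiset (ℕ × ℕ)) := by
  rw [Multiset.map_map]
  have : (shp ∘ toH q) = (fun a : Blk => a.2) ∘ skel := by
    funext r
    exact shp_toH q r
  rw [this, ← Multiset.map_map, hRA, map_snd_pos]

theorem outN0 {z : ℤ} {HL LL : List (ℕ × ℕ)} {h l : ℕ}
    (hw : Win z z z (pos 0 HL) (pos 0 LL)) (hz : z = sz HL - sz LL + h - l) :
    Out0 ((HL : Multiset (ℕ × ℕ)) + (LL : Multiset (ℕ × ℕ)) +
      Multiset.replicate (h + l) (1, 0)) := by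
  obtain ⟨q, RA, R2, h1, h2, h3⟩ := innerN hw hz
  refine ⟨_, _, _, ?_, h2⟩
  rw [Multiset.map_add, h3, map_shp_toH h1, add_assoc]

theorem Out0.out {b : ℕ} {F : Multiset (ℕ × ℕ)} (h : Out0 F) : Out b F := by
  obtain ⟨R, u, q, h1, h2⟩ := h
  refine ⟨R, 0, u, q, h1, h2, by positivity, by linarith [h2.hq], ?_⟩
  intro x hx hx0
  have := (h2.bd x hx).1
  linarith

/-- Adding an extra leaf to the first block. -/
theorem extra_head {q : ℤ} {b n : ℕ} {H' : List (ℕ × ℕ)} {RA : Multiset PB} {R2 : Multiset RB}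
    {μ : ℤ} (hμb : μ < b) (h1 : RA.map skel = pos 0 ((b, n) :: H'))
    (h2 : Cert μ q q (RA.map (toH q) + R2)) :
    ∃ (ls : Multiset ℤ) (RA' : Multiset PB), Multiset.card ls = n ∧
      RA'.map skel = pos b H' ∧ RA.map (toH q) = (baH q 0 b, ls) ::ₘ RA'.map (toH q) ∧
      Cert b q (q + b) ((baH q 0 b, -(b : ℤ) ::ₘ ls) ::ₘ (RA'.map (toH q) + R2)) := by
  rw [pos_cons, zero_add] at h1
  obtain ⟨ls, RA', rfl, hc, h3⟩ := exists_skel h1
  have hμ := h2.hμ
  refine ⟨ls, RA', hc, h3, ?_, ?_⟩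
  · rw [Multiset.map_cons]
    rfl
  · rw [Multiset.map_cons, Multiset.cons_add] at h2
    have h4 := h2.addLeaf (μ' := b) (u' := q) (x := -(b : ℤ)) (by ring) (by
        intro h
        have : (b : ℤ) = 0 := by linarith
        linarith) (by
        intro hmem
        have := (h2.bd _ hmem).1
        linarith) le_rfl (by linarith [h2.hu]) hμb.le le_rfl (by linarith)
    exact h4

theorem outN {z : ℤ} {b n n' : ℕ} {H' LL : List (ℕ × ℕ)} {h l : ℕ} (hb : 1 ≤ b)
    (hn : n' = n ∨ n' = n + 1)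
    (hw : Win z z z (pos 0 ((b, n) :: H')) (pos 0 LL))
    (hz : z = sz ((b, n) :: H') - sz LL + h - l) :
    Out b ((b, n') ::ₘ ((H' : Multiset (ℕ × ℕ)) + (LL : Multiset (ℕ × ℕ)) +
      Multiset.replicate (h + l) (1, 0))) := by
  rcases hn with rfl | rfl
  · have := (outN0 hw hz).out (b := b)
    rw [← Multiset.cons_coe, Multiset.cons_add, Multiset.cons_add] at this
    exact this
  · obtain ⟨q, RA, R2, h1, h2, h3⟩ := innerN hw hz
    have hb' : (0 : ℤ) < b := by exact_mod_cast hb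
    obtain ⟨ls, RA', h4, h5, h6, h7⟩ := extra_head hb' h1 h2
    refine ⟨_, _, _, _, ?_, h7, le_rfl, by linarith, ?_⟩
    · rw [Multiset.map_cons, Multiset.map_add, h3, map_shp_toH h5, ← add_assoc]
      congr 1
      simp only [shp, Multiset.card_cons, h4, baH]
      rw [card_Ioc]
    · intro x hx hx0
      rw [lab_cons, Multiset.add_cons, Multiset.cons_add, Multiset.mem_cons] at hx
      rcases hx with hx | hx
      · exact hx
      · exfalso
        have h8 : x ∈ lab (RA.map (toH q) + R2) := by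
          rw [h6, Multiset.cons_add, lab_cons]
          exact hx
        have := (h2.bd x h8).1
        linarith

theorem outX {z : ℤ} {b n n' x m : ℕ} {H' M : List (ℕ × ℕ)} (hxb : x < b)
    (hn : n' = n ∨ n' = n + 1)
    (hw : Win z z z (pos 0 ((b, n) :: H')) ((-(x : ℤ) - 1, x, m) ::ₘ pos x M))
    (hz : z = sz ((b, n) :: H') - (x + sz M)) :
    OutW b ((b, n') ::ₘ (x, m) ::ₘ ((H' : Multiset (ℕ × ℕ)) + (M : Multiset (ℕ × ℕ)))) := by
  have hxb' : (x : ℤ) < b := by exact_mod_cast hxb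
  have hx0 : (0 : ℤ) ≤ x := by positivity
  have hM := sz_nonneg M
  have key : ∃ (q : ℤ) (RA : Multiset PB) (R2 : Multiset RB),
      RA.map skel = pos 0 ((b, n) :: H') ∧
      Cert x q q (RA.map (toH q) + R2) ∧
      R2.map shp = (x, m) ::ₘ (M : Multiset (ℕ × ℕ)) := by
    have := inner (σ := x + sz M) (μ := x) (h := 0) (l := 0) (BB :=
      (Finset.Ioc (-(x : ℤ) - 1) (-(x : ℤ) - 1 + x)).val + (Finset.Ioc (x : ℤ) (x + sz M)).val)
      hw (by rw [hz]; push_cast; ring) (by linarith) hx0 (by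
        rw [Multiset.map_cons, Multiset.sum_cons, sum_baL]
        rfl) (by
        apply nodup_add_lt 0 (Finset.nodup _) (Finset.nodup _)
        · intro a ha
          rw [Finset.mem_val, Finset.mem_Ioc] at ha
          linarith [ha.2]
        · intro a ha
          rw [Finset.mem_val, Finset.mem_Ioc] at ha
          linarith [ha.1]) (by
        intro a ha
        rcases Multiset.mem_add.1 ha with ha | ha
        · rw [Finset.mem_val, Finset.mem_Ioc] at ha
          exact ⟨by linarith [ha.1], by linarith [ha.2], by linarith [ha.2]⟩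
        · rw [Finset.mem_val, Finset.mem_Ioc] at ha
          exact ⟨by linarith [ha.1], by linarith [ha.2], by linarith [ha.1]⟩) (by
        rw [Multiset.map_add, abs_Ioc _ _ hx0]
        have h1 := highleaf (-(x : ℤ) - 1) 0 x le_rfl
        have e1 : -(x : ℤ) - 1 + x + 1 + 0 = 0 := by ring
        rw [e1] at h1
        simp only [sub_zero, zero_add] at h1
        rw [h1]
        exact Ioc_add _ _ _ hx0 (by linarith))
    obtain ⟨q, RA, R2, h1, h2, h3⟩ := this
    refine ⟨q, RA, R2, h1, h2, ?_⟩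
    rw [h3, Multiset.map_cons, map_snd_pos]
    simp
  obtain ⟨q, RA, R2, h1, h2, h3⟩ := key
  rcases hn with rfl | rfl
  · refine ⟨_, _, _, _, ?_, h2, by linarith⟩
    rw [Multiset.map_add, h3, map_shp_toH h1, ← Multiset.cons_coe]
    simp only [← Multiset.singleton_add]
    abel
  · obtain ⟨ls, RA', h4, h5, h6, h7⟩ := extra_head hxb' h1 h2
    refine ⟨_, _, _, _, ?_, h7, le_rfl⟩
    rw [Multiset.map_cons, Multiset.map_add, h3, map_shp_toH h5]
    have : shp (baH q 0 b, -(b : ℤ) ::ₘ ls) = (b, n + 1) := by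
      simp only [shp, Multiset.card_cons, h4, baH]
      rw [card_Ioc]
    rw [this]
    simp only [← Multiset.singleton_add]
    abel

/-- Extra leaves on the first two blocks of equal size. -/
theorem outB {z : ℤ} {y a c a' c' : ℕ} {H' LL : List (ℕ × ℕ)} (hy : 1 ≤ y)
    (ha : a' = a ∨ a' = a + 1) (hc : c' = c ∨ c' = c + 1)
    (hw : Win z z z (pos 0 ((y, a) :: (y, c) :: H')) (pos 0 LL))
    (hz : z = sz ((y, a) :: (y, c) :: H') - sz LL) {μ : ℕ} (hμ : 2 * y ≤ μ)
    (hμ2 : a' = a + 1 → c' = c + 1 → 3 * y ≤ μ) :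
    OutW μ ((y, a') ::ₘ (y, c') ::ₘ ((H' : Multiset (ℕ × ℕ)) + (LL : Multiset (ℕ × ℕ)))) := by
  obtain ⟨q, RA, R2, h1, h2, h3⟩ := innerN (h := 0) (l := 0) hw (by rw [hz]; push_cast; ring)
  have h3' : R2.map shp = (LL : Multiset (ℕ × ℕ)) := by simpa using h3
  have hy' : (1 : ℤ) ≤ y := by exact_mod_cast hy
  have hμ' : 2 * (y : ℤ) ≤ μ := by exact_mod_cast hμ
  have hq := h2.hq
  have hu := h2.hu
  have h1' := h1
  rw [pos_cons, pos_cons, zero_add] at h1'
  obtain ⟨ls1, RA1, hRA1, hc1, h4⟩ := exists_skel h1'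
  obtain ⟨ls2, RA2, hRA2, hc2, h5⟩ := exists_skel h4
  have hR : RA.map (toH q) + R2 = (baH q 0 y, ls1) ::ₘ (baH q y y, ls2) ::ₘ
      (RA2.map (toH q) + R2) := by
    rw [hRA1, hRA2, Multiset.map_cons, Multiset.map_cons, Multiset.cons_add, Multiset.cons_add]
    rfl
  rw [hR] at h2
  have hshp : (RA2.map (toH q) + R2).map shp =
      (H' : Multiset (ℕ × ℕ)) + (LL : Multiset (ℕ × ℕ)) := by
    rw [Multiset.map_add, h3', map_shp_toH h5]
  have s1 : ∀ (s : ℤ) (ls : Multiset ℤ), shp (baH q s y, ls) = (y, Multiset.card ls) := by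
    intro s ls
    simp only [shp, baH]
    rw [card_Ioc]
  -- extra on the first one
  have stepA : Cert y q (q + y) ((baH q 0 y, -(y : ℤ) ::ₘ ls1) ::ₘ (baH q y y, ls2) ::ₘ
      (RA2.map (toH q) + R2)) := by
    have h6 := h2.addLeaf (μ' := y) (u' := q) (x := -(y : ℤ)) (by ring) (by
        intro h
        have : (y : ℤ) = 0 := by linarith
        linarith) (by
        intro hmem
        have := (h2.bd _ hmem).1
        linarith) le_rfl (by linarith) (by linarith) le_rfl (by linarith)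
    exact h6
  rcases ha with rfl | rfl
  · rcases hc with rfl | rfl
    · refine ⟨_, _, _, _, ?_, h2, by positivity⟩
      rw [Multiset.map_cons, Multiset.map_cons, hshp, s1, s1, hc1, hc2]
    · rw [Multiset.cons_swap] at h2
      have h6 := h2.addLeaf (μ' := 2 * y) (u' := q) (x := -(2 * (y : ℤ))) (by ring) (by
          intro h
          have : (y : ℤ) = 0 := by linarith
          linarith) (by
          intro hmem
          have := (h2.bd _ hmem).1
          linarith) le_rfl (by linarith) (by linarith) le_rfl (by linarith)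
      refine ⟨_, _, _, _, ?_, h6, hμ'⟩
      rw [Multiset.map_cons, Multiset.map_cons, hshp]
      have e1 := s1 0 ls1
      have e2 := s1 y (-(2 * (y : ℤ)) ::ₘ ls2)
      unfold baH at e1 e2
      unfold baH
      rw [e1, e2, Multiset.cons_swap, hc1, Multiset.card_cons, hc2]
  · rcases hc with rfl | rfl
    · refine ⟨_, _, _, _, ?_, stepA, by linarith⟩
      rw [Multiset.map_cons, Multiset.map_cons, hshp, s1, s1, Multiset.card_cons, hc1, hc2]
    · have hμ3 := hμ2 rfl rfl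
      have hμ3' : 3 * (y : ℤ) ≤ μ := by exact_mod_cast hμ3
      rw [Multiset.cons_swap] at stepA
      have h6 := stepA.addLeaf (μ' := 3 * y) (u' := q) (x := -(3 * (y : ℤ))) (by ring) (by
          intro h
          have : (y : ℤ) = 0 := by linarith
          linarith) (by
          intro hmem
          have := (stepA.bd _ hmem).1
          linarith) le_rfl (by linarith) (by linarith) le_rfl (by linarith)
      refine ⟨_, _, _, _, ?_, h6, hμ3'⟩
      rw [Multiset.map_cons, Multiset.map_cons, hshp]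
      have e1 := s1 0 (-(y : ℤ) ::ₘ ls1)
      have e2 := s1 y (-(3 * (y : ℤ)) ::ₘ ls2)
      unfold baH at e1 e2
      unfold baH
      rw [e1, e2, Multiset.cons_swap, Multiset.card_cons, hc1, Multiset.card_cons, hc2]

end Pool.Agent.Lib.MP_404fd0_co
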