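import Mathlib
import Pool.Agent.Lib.MP_404fd0_co.Outcome
import Pool.Agent.Lib.MP_404fd0_co.EngC

namespace Pool.Agent.Lib.MP_404fd0_co

/-- Leaves at the high side, one after another. -/
theorem Cert.addLeavesHigh {μ u q c d : ℤ} {R : Multiset RB} {b : ℕ} {ls : Multiset ℤ}
    (hb : 1 ≤ b) (h : Cert μ u q (((Finset.Ioc c (c + b)).val, ls) ::ₘ R))
    (hc : c + b + 1 = -d) (hd : 0 ≤ d) (hud : u + d < q) (n : ℕ) :
    ∃ (ls' : Multiset ℤ) (u' : ℤ), Multiset.card ls' = Multiset.card ls + n ∧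
      Cert μ u' (q + b * n) (((Finset.Ioc c (c + b)).val, ls') ::ₘ R) ∧ u' + d < q + b * n := by
  have hb' : (1 : ℤ) ≤ b := by exact_mod_cast hb
  induction n with
  | zero => exact ⟨ls, u, by simp, by simpa using h, by simpa using hud⟩
  | succ n ih =>
      obtain ⟨ls', u', h1, h2, h3⟩ := ih
      obtain ⟨g1, g2, g3, g4, g5, g6⟩ := h2
      have hbn : (0 : ℤ) ≤ b * n := by positivity
      set q' : ℤ := q + b * n with hq'
      have e2 : q + (b : ℤ) * ((n + 1 : ℕ) : ℤ) = q' + b := by rw [hq']; push_cast; ring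
      have hlab : lab (((Finset.Ioc c (c + b)).val, (q' - d) ::ₘ ls') ::ₘ R) =
          (q' - d) ::ₘ lab (((Finset.Ioc c (c + b)).val, ls') ::ₘ R) := by
        rw [lab_cons, lab_cons]
        simp only [← Multiset.singleton_add]
        abel
      rw [Multiset.nodup_cons] at g1
      refine ⟨(q' - d) ::ₘ ls', q' - d, by rw [Multiset.card_cons, h1, add_assoc], ?_, ?_⟩
      · rw [e2]
        refine ⟨?_, ?_, ?_, g4, by linarith, by linarith⟩
        · rw [hlab, Multiset.nodup_cons, Multiset.nodup_cons]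
          refine ⟨?_, ?_, g1.2⟩
          · intro h0
            rcases Multiset.mem_cons.1 h0 with h0 | h0
            · linarith
            · exact g1.1 h0
          · intro h0
            have := (g2 _ h0).2
            linarith
        · intro x hx
          rw [hlab] at hx
          rcases Multiset.mem_cons.1 hx with rfl | hx
          · exact ⟨by linarith, le_rfl⟩
          · have := g2 x hx
            exact ⟨this.1, by linarith [this.2]⟩
        · rw [edg_cons] at g3 ⊢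
          simp only at g3 ⊢
          rw [dif_cons]
          have h7 := highleaf c q' b (by linarith)
          have e3 : c + b + 1 + q' = q' - d := by rw [hc]; ring
          rw [e3] at h7
          rw [h7]
          have h8 : (Finset.Ioc 0 q').val + (Finset.Ioc q' (q' + b)).val =
              (Finset.Ioc 0 (q' + b)).val := by
            apply Ioc_add
            · linarith
            · linarith
          rw [← h8, ← g3]
          abel
      · rw [e2]
        linarith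

theorem outK {b nA nB : ℕ} (hb : 1 ≤ b) : OutW (2 * b) {(b, nA), (b, nB)} := by
  have hb' : (1 : ℤ) ≤ b := by exact_mod_cast hb
  have h1 : Cert b 0 b (((Finset.Ioc (-(b : ℤ) - 1) (-(b : ℤ) - 1 + b)).val, 0) ::ₘ 0) := by
    apply cert_zero.addBlock
    · rw [add_zero]; exact Finset.nodup _
    · intro x hx
      rw [add_zero, Finset.mem_val, Finset.mem_Ioc] at hx
      refine ⟨by linarith [hx.2], by simp [lab]⟩
    · intro x hx
      rw [add_zero, Finset.mem_val, Finset.mem_Ioc] at hx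
      exact ⟨by linarith [hx.1], by linarith [hx.2]⟩
    · linarith
    · exact le_rfl
    · linarith
    · rw [dif_zero, add_zero]
      have h1 := highleaf (-(b : ℤ) - 1) 0 b le_rfl
      have e1 : -(b : ℤ) - 1 + b + 1 + 0 = 0 := by ring
      rw [e1] at h1
      simp only [sub_zero, zero_add] at h1
      exact h1
    · linarith
  have h2 : Cert (2 * b) 0 (2 * b) (((Finset.Ioc (-2 * (b : ℤ) - 1) (-2 * (b : ℤ) - 1 + b)).val, 0)
      ::ₘ ((Finset.Ioc (-(b : ℤ) - 1) (-(b : ℤ) - 1 + b)).val, 0) ::ₘ 0) := by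
    apply h1.addBlock
    · rw [add_zero]; exact Finset.nodup _
    · intro x hx
      rw [add_zero, Finset.mem_val, Finset.mem_Ioc] at hx
      refine ⟨by linarith [hx.2], ?_⟩
      intro hx'
      have := (h1.bd x hx').1
      linarith [hx.2]
    · intro x hx
      rw [add_zero, Finset.mem_val, Finset.mem_Ioc] at hx
      exact ⟨by linarith [hx.1], by linarith [hx.2]⟩
    · linarith
    · exact le_rfl
    · linarith
    · rw [dif_zero, add_zero]
      have h1 := highleaf (-2 * (b : ℤ) - 1) b b (by linarith)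
      have e1 : -2 * (b : ℤ) - 1 + b + 1 + b = 0 := by ring
      have e2 : (b : ℤ) + b = 2 * b := by ring
      rw [e1, e2] at h1
      simp only [sub_zero] at h1
      exact h1
    · linarith
  obtain ⟨l1, u1, h3, h4, h5⟩ := h2.addLeavesHigh hb (d := b) (by ring) (by linarith)
    (by linarith) nB
  rw [Multiset.cons_swap] at h4
  have hu1 := h4.hu
  obtain ⟨l2, u2, h6, h7, h8⟩ := h4.addLeavesHigh hb (d := 0) (by ring) le_rfl
    (by linarith) nA
  refine ⟨_, _, _, _, ?_, h7, by push_cast; linarith⟩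
  rw [Multiset.map_cons, Multiset.map_cons]
  simp only [shp, Multiset.map_zero]
  rw [card_Ioc, card_Ioc, h6, h3]
  simp

section cases

variable {F : Multiset (ℕ × ℕ)} (hnd : F.Nodup) (hok : ∀ x ∈ F, 1 ≤ x.1 ∧ 1 ≤ x.2)

include hnd hok

theorem case_start {z : ℤ} {h l : ℕ} (h1 : 1 ≤ z) (hz : z = alt F + h - l)
    (hF : ∀ x ∈ F, z ≤ x.1) : Out0 (F + Multiset.replicate (h + l) (1, 0)) := by
  obtain ⟨N, M, ⟨h2, h3⟩, h4⟩ := eng_start hnd hok h1 hF
  have := outN0 (h := h) (l := l) h4 (by rw [h3]; exact hz)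
  rw [h2] at this
  exact this

theorem case_E1 {b n : ℕ} {z : ℤ} {h l : ℕ} (hb : 1 ≤ b) (hn : 2 ≤ n) (h1 : 1 ≤ z)
    (h2 : z ≤ b) (hz : z = b - alt F + h - l) :
    Out b ((b, n) ::ₘ (F + Multiset.replicate (h + l) (1, 0))) := by
  obtain ⟨n', hn', hn2⟩ : ∃ n', (n = n' ∨ n = n' + 1) ∧
      ((2 ≤ z ∧ n' % 2 = 0 ∧ 2 ≤ n') ∨ (z = 1 ∧ n' % 2 = 1)) := by
    rcases eq_or_lt_of_le h1 with h3 | h3
    · rcases Nat.even_or_odd n with h4 | h4
      · have := Nat.even_iff.1 h4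
        exact ⟨n - 1, by omega, Or.inr ⟨h3.symm, by omega⟩⟩
      · have := Nat.odd_iff.1 h4
        exact ⟨n, by omega, Or.inr ⟨h3.symm, by omega⟩⟩
    · rcases Nat.even_or_odd n with h4 | h4
      · have := Nat.even_iff.1 h4
        exact ⟨n, by omega, Or.inl ⟨by omega, by omega, by omega⟩⟩
      · have := Nat.odd_iff.1 h4
        exact ⟨n - 1, by omega, Or.inl ⟨by omega, by omega, by omega⟩⟩
  obtain ⟨N, M, ⟨h3, h4⟩, h5⟩ := eng_E1 hnd hok hb h1 h2 hn2
  have := outN (n' := n) (h := h) (l := l) hb hn' h5 (by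
    rw [sz_cons, hz, ← h4]; ring)
  rw [add_comm (M : Multiset (ℕ × ℕ)), h3] at this
  exact this

theorem case_I3 {b n x m : ℕ} {z : ℤ} {h l : ℕ} (hx : 1 ≤ x) (hn : 2 ≤ n) (h1 : 2 ≤ z)
    (h2 : z ≤ b) (hm : m % 2 = 1) (hzx : m = 1 ∨ 2 ≤ z - b + x)
    (hz : z = b - x + alt F + h - l) :
    Out b ((b, n) ::ₘ (x, m) ::ₘ (F + Multiset.replicate (h + l) (1, 0))) := by
  have hb : 1 ≤ b := by
    have : (1 : ℤ) ≤ b := by linarith
    exact_mod_cast this
  obtain ⟨n', hn', hn2, hn3⟩ : ∃ n', (n = n' ∨ n = n' + 1) ∧ n' % 2 = 0 ∧ 2 ≤ n' := by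
    rcases Nat.even_or_odd n with h4 | h4
    · have := Nat.even_iff.1 h4
      exact ⟨n, by omega, by omega, by omega⟩
    · have := Nat.odd_iff.1 h4
      exact ⟨n - 1, by omega, by omega, by omega⟩
  obtain ⟨N, M, ⟨h3, h4⟩, h5⟩ := eng_I3 hnd hok hx h1 h2 hn2 hn3 hm hzx
  have := outN (n' := n) (h := h) (l := l) hb hn' h5 (by
    rw [sz_cons, sz_cons, hz, ← h4]; ring)
  rw [← Multiset.cons_coe, Multiset.add_cons, h3, Multiset.cons_add] at this
  exact this

theorem case_I5 {b n x m : ℕ} {z : ℤ} {h l : ℕ} (hn : 2 ≤ n) (h1 : 2 ≤ z)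
    (h2 : z ≤ x) (hxb : x ≤ b) (hm : m % 2 = 0) (hm2 : 2 ≤ m)
    (hz : z = b - x + alt F + h - l) :
    Out b ((b, n) ::ₘ (x, m) ::ₘ (F + Multiset.replicate (h + l) (1, 0))) := by
  have hx : 1 ≤ x := by
    have : (1 : ℤ) ≤ x := by linarith
    exact_mod_cast this
  obtain ⟨n', hn', hn2⟩ : ∃ n', (n = n' ∨ n = n' + 1) ∧ n' % 2 = 1 := by
    rcases Nat.even_or_odd n with h4 | h4
    · have := Nat.even_iff.1 h4
      exact ⟨n - 1, by omega, by omega⟩
    · have := Nat.odd_iff.1 h4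
      exact ⟨n, by omega, by omega⟩
  obtain ⟨N, M, ⟨h3, h4⟩, h5⟩ := eng_I5 hnd hok h1 h2 hxb hn2 hm hm2
  have := outN (n' := n) (h := h) (l := l) (hx.trans hxb) hn' h5 (by
    rw [sz_cons, sz_cons, hz, ← h4]; ring)
  rw [← Multiset.cons_coe, Multiset.add_cons, h3, Multiset.cons_add] at this
  exact this

theorem case_negX {b n x m : ℕ} (hO1 : 1 ≤ alt F) (hOx : alt F + 1 ≤ x) (hxb : x < b)
    (hn : 2 ≤ n) (hm1 : m % 2 = 0) (hm2 : 2 ≤ m)
    (hbig : ∀ g ∈ F, (∀ z ∈ F, g.1 ≤ z.1) → x + 2 ≤ g.2) :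
    OutW b ((b, n) ::ₘ (x, m) ::ₘ F) := by
  obtain ⟨n', hn', hn2, hn3⟩ : ∃ n', (n = n' ∨ n = n' + 1) ∧ n' % 2 = 0 ∧ 2 ≤ n' := by
    rcases Nat.even_or_odd n with h4 | h4
    · have := Nat.even_iff.1 h4
      exact ⟨n, by omega, by omega, by omega⟩
    · have := Nat.odd_iff.1 h4
      exact ⟨n - 1, by omega, by omega, by omega⟩
  obtain ⟨N, M, ⟨h3, h4⟩, h5⟩ := eng_negX hnd hok hO1 hOx hxb.le hn2 hn3 hm1 hm2 hbig
  have := outX (n' := n) hxb hn' h5 (by rw [sz_cons, ← h4]; ring)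
  rw [h3] at this
  exact this

theorem case_C {b n x m : ℕ} (hF : alt F = 1) (hx : 2 ≤ x) (hxb : x + 1 ≤ b) (hn : 2 ≤ n)
    (hm1 : m % 2 = 1) (hm2 : 3 ≤ m)
    (h1F : ∃ g ∈ F, g.1 = 1) (hbig : ∀ g ∈ F, g.1 = 1 → x + 1 ≤ g.2) :
    Out b ((b, n) ::ₘ (x, m) ::ₘ F) := by
  obtain ⟨n', hn', hn2, hn3⟩ : ∃ n', (n = n' ∨ n = n' + 1) ∧ n' % 2 = 0 ∧ 2 ≤ n' := by
    rcases Nat.even_or_odd n with h4 | h4
    · have := Nat.even_iff.1 h4
      exact ⟨n, by omega, by omega, by omega⟩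
    · have := Nat.odd_iff.1 h4
      exact ⟨n - 1, by omega, by omega, by omega⟩
  obtain ⟨N, M, ⟨h3, h4⟩, h5⟩ := eng_C hnd hok hx hxb hn2 hn3 hm1 hm2 h1F hbig
  have := outN (n' := n) (h := 0) (l := 0) (by omega) hn' h5 (by
    rw [sz_cons, sz_cons]
    have : sz N - sz M = 1 := by rw [h4, hF]
    push_cast
    linarith)
  rw [← Multiset.cons_coe, Multiset.add_cons, h3, Multiset.cons_add] at this
  simpa using this

end cases

end Pool.Agent.Lib.MP_404fd0_co
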