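import Mathlib
import Pool.Agent.Lib.MP_404fd0_co.Cases

namespace Pool.Agent.Lib.MP_404fd0_co

theorem case_k1 {b a c s p : ℕ} (hb : 1 ≤ b) (ha : 2 ≤ a) (hc : 2 ≤ c) (hs1 : b + 1 ≤ s)
    (hs2 : s ≤ 2 * b) :
    Out b ((b, a) ::ₘ (b, c) ::ₘ (s, 1) ::ₘ Multiset.replicate (p + p) (1, 0)) := by
  have h1 := eng_k1 hb ha hc hs1 hs2
  have := outN (n' := a) (h := p) (l := p) hb (Or.inl rfl) h1 (by
    simp only [sz_cons, sz_nil]; ring)
  have e : ((b, a) ::ₘ (b, c) ::ₘ (s, 1) ::ₘ Multiset.replicate (p + p) (1, 0)) =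
      (b, a) ::ₘ (((([(s, 1)] : List (ℕ × ℕ)) : Multiset (ℕ × ℕ))) +
        ((([(b, c)] : List (ℕ × ℕ)) : Multiset (ℕ × ℕ))) +
          Multiset.replicate (p + p) (1, 0)) := by
    simp only [← Multiset.cons_coe, ← Multiset.singleton_add, Multiset.coe_nil]
    abel
  rw [e]
  exact this

section cases

variable {F : Multiset (ℕ × ℕ)} (hnd : F.Nodup) (hok : ∀ x ∈ F, 1 ≤ x.1 ∧ 1 ≤ x.2)

include hnd hok

theorem case_DFS {a c d v : ℕ} (ha : a % 2 = 0) (ha2 : 2 ≤ a) (hc : c % 2 = 0) (hc2 : 2 ≤ c)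
    (hd : d % 2 = 0) (hd2 : 2 ≤ d) (hv : v % 2 = 0) (hv2 : 4 ≤ v)
    (hev : ∀ x ∈ F, x.1 = 1 → x.2 % 2 = 0) (halt : alt F = 0) (b : ℕ) :
    OutW b ((1, a) ::ₘ (1, c) ::ₘ (1, d) ::ₘ (1, v) ::ₘ F) := by
  obtain ⟨N, M, ⟨h3, h4⟩, h5⟩ := eng_DFS hnd hok ha ha2 hc hc2 hd hd2 hv hv2 hev
  have := ((outN0 (h := 0) (l := 0) h5 (by
    simp only [sz_cons]
    have : sz N - sz M = 0 := by rw [h4, halt]
    push_cast
    linarith)).out (b := b)).weak
  have e : ((1, a) ::ₘ (1, c) ::ₘ (1, d) ::ₘ (1, v) ::ₘ F) =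
      ((((1, a) :: (1, c) :: (1, d) :: M : List (ℕ × ℕ)) : Multiset (ℕ × ℕ))) +
        ((((1, v) :: N : List (ℕ × ℕ)) : Multiset (ℕ × ℕ))) +
          Multiset.replicate (0 + 0) (1, 0) := by
    rw [← h3]
    simp only [← Multiset.cons_coe, ← Multiset.singleton_add, add_zero,
      Multiset.replicate_zero]
    abel
  rw [e]
  exact this

theorem case_ABcH {b n y a c s p : ℕ} {kA K : ℤ} (hy : 1 ≤ y) (hyb : y ≤ b) (hn : 2 ≤ n)
    (hs1 : b + 1 ≤ s) (hs2 : s ≤ b + y) (halt : alt F = b)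
    (hkA : kA = 0 ∨ kA = 1) (hkA2 : kA % 2 = a % 2) (ha2 : 2 ≤ a)
    (hkA0 : kA = 0 → b + 2 ≤ s)
    (hK : K = 1 ∨ K = 2 ∨ K = 3) (hK1 : K = 1 → b + 2 ≤ s)
    (hc1 : (K - kA + 1) % 2 = ((c : ℤ) - 1) % 2) (hc2 : K - kA + 1 ≤ (c : ℤ) - 1)
    (hc3 : K - kA + 1 ≤ (c : ℤ) - 3 ∨ kA = 0 ∨ s = b + 1)
    (he : K = 3 → s = b + 1 ∧ ∀ x ∈ F, y + 1 ≤ x.1) (hyF : ∀ x ∈ F, y ≤ x.1) :
    Out b ((b, n) ::ₘ (y, a) ::ₘ (y, c) ::ₘ (s, 1) ::ₘ
      (F + Multiset.replicate (p + p) (1, 0))) := by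
  obtain ⟨n', hn', hn2, hn3⟩ : ∃ n', (n = n' ∨ n = n' + 1) ∧ n' % 2 = 0 ∧ 2 ≤ n' := by
    rcases Nat.even_or_odd n with h4 | h4
    · have := Nat.even_iff.1 h4
      exact ⟨n, by omega, by omega, by omega⟩
    · have := Nat.odd_iff.1 h4
      exact ⟨n - 1, by omega, by omega, by omega⟩
  have hs1' : (b : ℤ) + 1 ≤ s := by exact_mod_cast hs1
  have hs2' : (s : ℤ) ≤ b + y := by exact_mod_cast hs2
  have hy' : (1 : ℤ) ≤ y := by exact_mod_cast hy
  obtain ⟨N, M, ⟨h3, h4⟩, h5⟩ := eng_ABcH (F := F) (b := b) (n := n') (y := y) (a := a)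
    (c := c) (s := s) (d := (s : ℤ) - b) (kA := kA) (K := K) hnd hok hy hyb hn2 hn3 (by ring)
    (by linarith) (by linarith) hkA hkA2 ha2 (by
      intro h
      have := hkA0 h
      have : (b : ℤ) + 2 ≤ s := by exact_mod_cast this
      linarith) hK (by
      intro h
      have := hK1 h
      have : (b : ℤ) + 2 ≤ s := by exact_mod_cast this
      linarith) hc1 hc2 (by
      rcases hc3 with h | h | h
      · left; exact h
      · right
        rw [h]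
        linarith
      · right
        have hs : (s : ℤ) = b + 1 := by rw [h]; push_cast; ring
        rcases hkA with rfl | rfl
        · linarith
        · linarith) (by
      intro x hx
      have h6 : (y : ℤ) ≤ x.1 := by exact_mod_cast hyF x hx
      rcases hK with rfl | rfl | rfl
      · linarith
      · linarith
      · obtain ⟨h7, h8⟩ := he rfl
        have h9 : (y : ℤ) + 1 ≤ x.1 := by exact_mod_cast h8 x hx
        have hs : (s : ℤ) = b + 1 := by rw [h7]; push_cast; ring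
        linarith)
  have := outN (n' := n) (h := p) (l := p) (hy.trans hyb) hn' h5 (by
    simp only [sz_cons]
    have : sz N - sz M = b := by rw [h4, halt]
    push_cast
    linarith)
  have e : ((b, n) ::ₘ (y, a) ::ₘ (y, c) ::ₘ (s, 1) ::ₘ
      (F + Multiset.replicate (p + p) (1, 0))) =
      (b, n) ::ₘ (((((y, a) :: (s, 1) :: M : List (ℕ × ℕ)) : Multiset (ℕ × ℕ))) +
        ((((y, c) :: N : List (ℕ × ℕ)) : Multiset (ℕ × ℕ))) +
          Multiset.replicate (p + p) (1, 0)) := by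
    rw [← h3]
    simp only [← Multiset.cons_coe, ← Multiset.singleton_add]
    abel
  rw [e]
  exact this

theorem case_ABcL {b n y a c s p : ℕ} (hy : 1 ≤ y) (hyb : y ≤ b) (hn : 2 ≤ n)
    (hs : s = b + 1) (hFb : ∀ x ∈ F, x.1 ≤ b) (hodd : ¬ Even (Multiset.card F))
    (halt : alt F = b) (ha : a % 2 = 0) (ha2 : 2 ≤ a) (hc : c % 2 = 0) (hc2 : 2 ≤ c) :
    Out b ((b, n) ::ₘ (y, a) ::ₘ (y, c) ::ₘ (s, 1) ::ₘ
      (F + Multiset.replicate (p + p) (1, 0))) := by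
  obtain ⟨n', hn', hn2, hn3⟩ : ∃ n', (n = n' ∨ n = n' + 1) ∧ n' % 2 = 0 ∧ 2 ≤ n' := by
    rcases Nat.even_or_odd n with h4 | h4
    · have := Nat.even_iff.1 h4
      exact ⟨n, by omega, by omega, by omega⟩
    · have := Nat.odd_iff.1 h4
      exact ⟨n - 1, by omega, by omega, by omega⟩
  have hnd' : ((s, 1) ::ₘ F).Nodup := by
    rw [Multiset.nodup_cons]
    refine ⟨?_, hnd⟩
    intro h
    have := hFb _ h
    simp only at this
    omega
  have hok' : ∀ x ∈ (s, 1) ::ₘ F, 1 ≤ x.1 ∧ 1 ≤ x.2 := by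
    intro x hx
    rcases Multiset.mem_cons.1 hx with rfl | hx
    · exact ⟨by simp only; omega, le_rfl⟩
    · exact hok x hx
  have halt' : alt ((s, 1) ::ₘ F) = b - s := by
    rw [alt_cons_max, if_neg hodd, halt]
    · simp only
      ring
    · intro x hx
      have := hFb x hx
      simp only
      omega
  obtain ⟨N, M, ⟨h3, h4⟩, h5⟩ := eng_ABcL hnd' hok' hy hyb hn2 hn3 hs ha ha2 hc hc2
  have := outN (n' := n) (h := p) (l := p) (hy.trans hyb) hn' h5 (by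
    simp only [sz_cons]
    have : sz N - sz M = b - s := by rw [h4, halt']
    push_cast
    linarith)
  have e : ((b, n) ::ₘ (y, a) ::ₘ (y, c) ::ₘ (s, 1) ::ₘ
      (F + Multiset.replicate (p + p) (1, 0))) =
      (b, n) ::ₘ (((((y, a) :: M : List (ℕ × ℕ)) : Multiset (ℕ × ℕ))) +
        ((((y, c) :: N : List (ℕ × ℕ)) : Multiset (ℕ × ℕ))) +
          Multiset.replicate (p + p) (1, 0)) := by
    have : ((b, n) ::ₘ (y, a) ::ₘ (y, c) ::ₘ (s, 1) ::ₘ
      (F + Multiset.replicate (p + p) (1, 0))) = ((b, n) ::ₘ (y, a) ::ₘ (y, c) ::ₘ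
      (((s, 1) ::ₘ F) + Multiset.replicate (p + p) (1, 0))) := by
      rw [Multiset.cons_add]
    rw [this, ← h3]
    simp only [← Multiset.cons_coe, ← Multiset.singleton_add]
    abel
  rw [e]
  exact this

theorem case_ABc {b n y a c s p : ℕ} (hy : 1 ≤ y) (hyb : y ≤ b) (hn : 2 ≤ n)
    (hs1 : b + 1 ≤ s) (hs2 : s ≤ b + y) (ha : s ≤ a) (hc : s ≤ c)
    (halt : alt F = b) (hyF : ∀ x ∈ F, y ≤ x.1) (hFb : ∀ x ∈ F, x.1 ≤ b)
    (hodd : ¬ Even (Multiset.card F))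
    (hmode : b + 2 ≤ s ∨ (a % 2 = c % 2) ∨
      (a % 2 = 1 ∧ c % 2 = 0 ∧ (∀ x ∈ F, y + 1 ≤ x.1) ∧ y < b)) :
    Out b ((b, n) ::ₘ (y, a) ::ₘ (y, c) ::ₘ (s, 1) ::ₘ
      (F + Multiset.replicate (p + p) (1, 0))) := by
  by_cases hd : b + 2 ≤ s
  · have hy2 : 2 ≤ y := by omega
    rcases Nat.even_or_odd a with ha1 | ha1
    · have ha2 := Nat.even_iff.1 ha1
      rcases Nat.even_or_odd c with hc1 | hc1
      · have hc2 := Nat.even_iff.1 hc1
        exact case_ABcH hnd hok (kA := 0) (K := 2) hy hyb hn hs1 hs2 halt (Or.inl rfl)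
          (by omega) (by omega) (fun _ => hd) (Or.inr (Or.inl rfl)) (fun _ => hd)
          (by omega) (by omega) (Or.inr (Or.inl rfl)) (by intro h; omega) hyF
      · have hc2 := Nat.odd_iff.1 hc1
        exact case_ABcH hnd hok (kA := 0) (K := 1) hy hyb hn hs1 hs2 halt (Or.inl rfl)
          (by omega) (by omega) (fun _ => hd) (Or.inl rfl) (fun _ => hd)
          (by omega) (by omega) (Or.inr (Or.inl rfl)) (by intro h; omega) hyF
    · have ha2 := Nat.odd_iff.1 ha1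
      rcases Nat.even_or_odd c with hc1 | hc1
      · have hc2 := Nat.even_iff.1 hc1
        exact case_ABcH hnd hok (kA := 1) (K := 1) hy hyb hn hs1 hs2 halt (Or.inr rfl)
          (by omega) (by omega) (fun _ => hd) (Or.inl rfl) (fun _ => hd)
          (by omega) (by omega) (Or.inl (by omega)) (by intro h; omega) hyF
      · have hc2 := Nat.odd_iff.1 hc1
        exact case_ABcH hnd hok (kA := 1) (K := 2) hy hyb hn hs1 hs2 halt (Or.inr rfl)
          (by omega) (by omega) (fun _ => hd) (Or.inr (Or.inl rfl)) (fun _ => hd)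
          (by omega) (by omega) (Or.inl (by omega)) (by intro h; omega) hyF
  · have hsb : s = b + 1 := by omega
    rcases hmode with h | h | ⟨h1, h2, h3, h4⟩
    · exact absurd h hd
    · rcases Nat.even_or_odd a with ha1 | ha1
      · have ha2 := Nat.even_iff.1 ha1
        exact case_ABcL hnd hok hy hyb hn hsb hFb hodd halt ha2 (by omega) (by omega)
          (by omega)
      · have ha2 := Nat.odd_iff.1 ha1
        exact case_ABcH hnd hok (kA := 1) (K := 2) hy hyb hn hs1 hs2 halt (Or.inr rfl)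
          (by omega) (by omega) (by intro h; omega) (Or.inr (Or.inl rfl))
          (by intro h; omega) (by omega) (by omega) (Or.inr (Or.inr hsb))
          (by intro h; omega) hyF
    · exact case_ABcH hnd hok (kA := 1) (K := 3) hy hyb hn hs1 hs2 halt (Or.inr rfl)
          (by omega) (by omega) (by intro h; omega) (Or.inr (Or.inr rfl))
          (by intro h; omega) (by omega) (by omega) (Or.inr (Or.inr hsb))
          (fun _ => ⟨hsb, h3⟩) hyF

theorem case_BVA1 {b y a c v m f : ℕ} (hy : 1 ≤ y) (hyv : y ≤ v) (hvb : v ≤ b)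
    (ha : b + y + 1 ≤ a) (hc : b + y + 1 ≤ c) (hvF : ∀ x ∈ F, v ≤ x.1) (halt : alt F = v)
    (hm : (3 ≤ m ∧ m % 2 = 1) ∨ (2 ≤ m ∧ m % 2 = 0 ∧ (y < v ∨ (2 ≤ y ∧ 4 ≤ m))))
    (hf : f = v / y) (h3 : a % 2 = 1 → c % 2 ≠ f % 2 → 2 * y ≤ b) :
    OutW (b + y) ((y, a) ::ₘ (y, c) ::ₘ (v, m) ::ₘ F) := by
  have hf1 : f * y ≤ v := by rw [hf]; exact Nat.div_mul_le_self v y
  have hf2 : v < (f + 1) * y := by
    rw [hf]
    have := Nat.lt_div_mul_add (a := v) (b := y) (by omega)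
    have e : (v / y + 1) * y = v / y * y + y := by ring
    omega
  have hf0 : 1 ≤ f := by
    rw [hf]
    exact (Nat.one_le_div_iff (by omega)).2 hyv
  have hfv : f ≤ v := by nlinarith
  obtain ⟨a', ha', ha2, ha3⟩ : ∃ a', (a = a' ∨ a = a' + 1) ∧ a' % 2 = 0 ∧ 2 ≤ a' := by
    rcases Nat.even_or_odd a with h4 | h4
    · have := Nat.even_iff.1 h4
      exact ⟨a, by omega, by omega, by omega⟩
    · have := Nat.odd_iff.1 h4
      exact ⟨a - 1, by omega, by omega, by omega⟩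
  obtain ⟨c', hc', hc2, hc3⟩ : ∃ c', (c = c' ∨ c = c' + 1) ∧ c' % 2 = f % 2 ∧ f + 2 ≤ c' := by
    by_cases h4 : c % 2 = f % 2
    · exact ⟨c, by omega, by omega, by omega⟩
    · exact ⟨c - 1, by omega, by omega, by omega⟩
  have hκ : ∃ κ : ℤ, (κ = 2 ∧ m % 2 = 1 ∧ 3 ≤ m) ∨
      (κ = 1 ∧ m % 2 = 0 ∧ 2 ≤ m ∧ ((y < v) ∨ (2 ≤ y ∧ 4 ≤ m))) := by
    rcases hm with h | h
    · exact ⟨2, Or.inl ⟨rfl, h.2, h.1⟩⟩
    · exact ⟨1, Or.inr ⟨rfl, h.2.1, h.1, h.2.2⟩⟩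
  obtain ⟨κ, hκ⟩ := hκ
  obtain ⟨N, M, ⟨h5, h6⟩, h7⟩ := eng_BVA hnd hok hy hf0 hf1 hf2 ha2 ha3 hc2 hc3 hvF hκ
  have := outB (a' := a) (c' := c) (μ := b + y) hy ha' hc' h7 (by
    simp only [sz_cons]
    have : sz N - sz M = v := by rw [h6, halt]
    linarith) (by omega) (by
    intro h8 h9
    have := h3 (by omega) (by omega)
    omega)
  have e : ((y, a) ::ₘ (y, c) ::ₘ (v, m) ::ₘ F) =
      ((y, a) ::ₘ (y, c) ::ₘ ((N : Multiset (ℕ × ℕ)) +
        ((((v, m) :: M : List (ℕ × ℕ)) : Multiset (ℕ × ℕ))))) := by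
    rw [← h5]
    simp only [← Multiset.cons_coe, ← Multiset.singleton_add]
    abel
  rw [e]
  exact this

theorem case_BVA {b y a c v m : ℕ} (hy : 1 ≤ y) (hyv : y ≤ v) (hvb : v ≤ b)
    (ha : b + y + 1 ≤ a) (hc : b + y + 1 ≤ c) (hvF : ∀ x ∈ F, v ≤ x.1) (halt : alt F = v)
    (hm : (3 ≤ m ∧ m % 2 = 1) ∨ (2 ≤ m ∧ m % 2 = 0 ∧ (y < v ∨ (2 ≤ y ∧ 4 ≤ m)))) :
    OutW (b + y) ((y, a) ::ₘ (y, c) ::ₘ (v, m) ::ₘ F) := by
  by_cases hodd : (v / y) % 2 = 1 ∧ a % 2 = 1 ∧ c % 2 = 0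
  · rw [Multiset.cons_swap]
    apply case_BVA1 hnd hok hy hyv hvb hc ha hvF halt hm rfl
    intro h1 h2
    omega
  · apply case_BVA1 hnd hok hy hyv hvb ha hc hvF halt hm rfl
    intro h1 h2
    have h3 : (v / y) % 2 = 0 := by
      by_contra h4
      apply hodd
      refine ⟨by omega, h1, by omega⟩
    have h4 : 1 ≤ v / y := (Nat.one_le_div_iff (by omega)).2 hyv
    have h5 : 2 ≤ v / y := by omega
    have h6 : v / y * y ≤ v := Nat.div_mul_le_self v y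
    have h7 : 2 * y ≤ v / y * y := Nat.mul_le_mul_right y h5
    omega

end cases

end Pool.Agent.Lib.MP_404fd0_co
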