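import Mathlib
import Pool.Agent.Lib.MP_404fd0_co.Cases2

namespace Pool.Agent.Lib.MP_404fd0_co

theorem paired {F S : Multiset (ℕ × ℕ)} {b n p : ℕ}
    (hnd : F.Nodup) (hok : ∀ x ∈ F, 1 ≤ x.1 ∧ 1 ≤ x.2) (hev : Even (Multiset.card F))
    (h0 : alt F = 0) (hFb : ∀ x ∈ F, x.1 ≤ b) (hc1 : (b, n) ∈ F) (hn : 2 ≤ n)
    (hndS : S.Nodup) (hS : ∀ x ∈ S, x.2 = 1 ∧ b < x.1) :
    Final (F + Multiset.replicate (p + p) (1, 0) + S) := by
  have hFne : F ≠ 0 := by
    rintro rfl
    simp at hc1
  obtain ⟨⟨y, na⟩, ⟨y2, nb⟩, F3, hF, hya, hF3, hev3, halt3⟩ := paired_cons hFne hev h0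
  simp only at hya hF3
  subst hya
  have hmin : ∀ x ∈ F, y ≤ x.1 := by
    intro x hx
    rw [hF] at hx
    rcases Multiset.mem_cons.1 hx with rfl | hx
    · exact le_rfl
    · rcases Multiset.mem_cons.1 hx with rfl | hx
      · exact le_rfl
      · exact hF3 x hx
  have haF : (y, na) ∈ F := by rw [hF]; simp
  have hbF : (y, nb) ∈ F := by rw [hF]; simp
  have hy : 1 ≤ y := (hok _ haF).1
  have hy' : (1 : ℤ) ≤ y := by exact_mod_cast hy
  have hyb : y ≤ b := hFb _ haF
  have hb1 : 1 ≤ b := hy.trans hyb
  by_cases hZ : ∃ Z ∈ F, Z.1 = y ∧ ∀ s ∈ S, Z.2 < s.1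
  · obtain ⟨⟨zy, zn⟩, hZF, hZy, hZS⟩ := hZ
    simp only at hZy hZS
    subst hZy
    obtain ⟨G, hG⟩ := Multiset.exists_cons_of_mem hZF
    have hGF : G ≤ F := by rw [hG]; exact Multiset.le_cons_self _ _
    have hGmin : ∀ x ∈ G, zy ≤ x.1 := fun x hx => hmin x (Multiset.mem_of_le hGF hx)
    have haltG : alt G = zy := by
      have : alt F = zy - alt G := by rw [hG, alt_cons_min hGmin]
      linarith
    have h1 := case_start (Multiset.nodup_of_le hGF hnd)
      (fun x hx => hok x (Multiset.mem_of_le hGF hx)) (z := zy) (h := p) (l := p) hy'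
      (by rw [haltG]; ring) (fun x hx => by exact_mod_cast hGmin x hx)
    have h2 := h1.r6 (y := zy) (n := zn) hy hndS (fun x hx => ⟨(hS x hx).1, hZS x hx⟩)
    rw [hG, Multiset.cons_add]
    exact h2
  push Not at hZ
  have hSne : S ≠ 0 := by
    rintro rfl
    obtain ⟨s, hs, _⟩ := hZ _ haF rfl
    simp at hs
  obtain ⟨⟨s, sn⟩, S1, hSeq, hSmin⟩ := exists_min hSne
  simp only at hSmin
  have hsS := hS (s, sn) (by rw [hSeq]; simp)
  simp only at hsS
  obtain ⟨hsn, hsb⟩ := hsS
  subst hsn
  have hbig : ∀ Z ∈ F, Z.1 = y → s ≤ Z.2 := by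
    intro Z hZF hZy
    obtain ⟨s', hs', hs2⟩ := hZ Z hZF hZy
    have : s ≤ s'.1 := by
      rw [hSeq] at hs'
      rcases Multiset.mem_cons.1 hs' with rfl | hs'
      · exact le_rfl
      · exact hSmin s' hs'
    omega
  have hS1 : ∀ x ∈ S1, x.2 = 1 ∧ b < x.1 := fun x hx => hS x (by
    rw [hSeq]; exact Multiset.mem_cons_of_mem hx)
  have hndS1 : S1.Nodup := by
    rw [hSeq, Multiset.nodup_cons] at hndS
    exact hndS.2
  have hna : s ≤ na := hbig _ haF rfl
  have hnb : s ≤ nb := hbig _ hbF rfl
  by_cases hF30 : F3 = 0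
  · subst hF30
    have hby : b = y := by
      rw [hF] at hc1
      simp only [Multiset.mem_cons, Prod.mk.injEq, Multiset.notMem_zero, or_false] at hc1
      rcases hc1 with h | h
      · exact h.1
      · exact h.1
    subst hby
    by_cases hs2 : s ≤ 2 * b
    · have h1 := (case_k1 (p := p) hb1 (by omega : 2 ≤ na) (by omega : 2 ≤ nb)
        (by omega : b + 1 ≤ s) hs2).r1 hndS1 hS1
      have e : F + Multiset.replicate (p + p) (1, 0) + S =
          ((b, na) ::ₘ (b, nb) ::ₘ (s, 1) ::ₘ Multiset.replicate (p + p) (1, 0)) + S1 := by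
        rw [hF, hSeq]
        simp only [← Multiset.singleton_add]
        abel
      rw [e]
      exact h1
    · have h1 := (outK (nA := na) (nB := nb) hb1).r2 hndS (fun x hx => by
        have h2 := hS x hx
        refine ⟨h2.1, ?_⟩
        have h3 : s ≤ x.1 := by
          rw [hSeq] at hx
          rcases Multiset.mem_cons.1 hx with rfl | hx
          · exact le_rfl
          · exact hSmin x hx
        omega) hSne (p + p)
      have e : F + Multiset.replicate (p + p) (1, 0) + S =
          ({(b, na), (b, nb)} : Multiset (ℕ × ℕ)) + Multiset.replicate (p + p) (1, 0) + S := by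
        rw [hF]
        rfl
      rw [e]
      exact h1
  by_cases hsby : s ≤ b + y
  · -- the blocks A, B, c
    have fin : ∀ (a c : ℕ) (R2 : Multiset (ℕ × ℕ)), F = (y, a) ::ₘ (y, c) ::ₘ R2 →
        (b + 2 ≤ s ∨ a % 2 = c % 2 ∨ (a % 2 = 1 ∧ c % 2 = 0 ∧ (∀ x ∈ R2, y + 1 ≤ x.1))) →
        Final (F + Multiset.replicate (p + p) (1, 0) + S) := by
      intro a c R2 hFeq hmode
      have hR2F : R2 ≤ F := by
        rw [hFeq]
        exact (Multiset.le_cons_self _ _).trans (Multiset.le_cons_self _ _)
      have hR2min : ∀ x ∈ R2, y ≤ x.1 := fun x hx => hmin x (Multiset.mem_of_le hR2F hx)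
      have haltR : alt R2 = 0 := by
        have : alt F = alt R2 := by
          rw [hFeq, alt_cons_min, alt_cons_min hR2min]
          · ring
          · intro x hx
            rcases Multiset.mem_cons.1 hx with rfl | hx
            · exact le_rfl
            · exact hR2min x hx
        rw [← this, h0]
      have hcardR : Even (Multiset.card R2) := by
        rw [hFeq, Multiset.card_cons, Multiset.card_cons, Nat.even_add_one,
          Nat.even_add_one, not_not] at hev
        exact hev
      have hR2ne : R2 ≠ 0 := by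
        rintro rfl
        apply hF30
        rw [← Multiset.card_eq_zero]
        have h5 : Multiset.card F = 2 := by rw [hFeq]; rfl
        rw [hF] at h5
        simpa using h5
      have hpick : ∃ n' : ℕ, (b, n') ∈ R2 ∧ 2 ≤ n' := by
        by_cases hyb2 : y = b
        · obtain ⟨x, hx⟩ := Multiset.exists_mem_of_ne_zero hR2ne
          have hxF := Multiset.mem_of_le hR2F hx
          have hx1 : x.1 = b := by
            have := hFb x hxF
            have := hmin x hxF
            omega
          refine ⟨x.2, ?_, ?_⟩
          · have : (b, x.2) = x := Prod.ext hx1.symm rfl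
            rw [this]
            exact hx
          · have := hbig x hxF (by omega)
            omega
        · refine ⟨n, ?_, hn⟩
          rw [hFeq] at hc1
          rcases Multiset.mem_cons.1 hc1 with h | h
          · exfalso
            apply hyb2
            exact (Prod.mk.inj h).1.symm
          · rcases Multiset.mem_cons.1 h with h | h
            · exfalso
              apply hyb2
              exact (Prod.mk.inj h).1.symm
            · exact h
      obtain ⟨n', hn'R, hn'2⟩ := hpick
      obtain ⟨rest, hrest⟩ := Multiset.exists_cons_of_mem hn'R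
      have hrestF : rest ≤ F := by
        have : rest ≤ R2 := by rw [hrest]; exact Multiset.le_cons_self _ _
        exact this.trans hR2F
      have hodd : ¬ Even (Multiset.card rest) := by
        rw [hrest, Multiset.card_cons, Nat.even_add_one] at hcardR
        exact hcardR
      have halt : alt rest = b := by
        have h5 : alt R2 = alt rest - b := by
          rw [hrest, alt_cons_max, if_neg hodd]
          · rfl
          · intro x hx
            exact hFb x (Multiset.mem_of_le hrestF hx)
        linarith
      have haF2 : s ≤ a := hbig (y, a) (by rw [hFeq]; simp) rfl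
      have hcF2 : s ≤ c := hbig (y, c) (by rw [hFeq]; simp) rfl
      have h1 := (case_ABc (F := rest) (p := p) (Multiset.nodup_of_le hrestF hnd)
        (fun x hx => hok x (Multiset.mem_of_le hrestF hx)) hy hyb hn'2 (by omega : b + 1 ≤ s)
        hsby haF2 hcF2 halt (fun x hx => hmin x (Multiset.mem_of_le hrestF hx))
        (fun x hx => hFb x (Multiset.mem_of_le hrestF hx)) hodd (by
          rcases hmode with h | h | ⟨h1, h2, h3⟩
          · exact Or.inl h
          · exact Or.inr (Or.inl h)
          · refine Or.inr (Or.inr ⟨h1, h2, ?_, ?_⟩)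
            · intro x hx
              apply h3 x
              rw [hrest]
              exact Multiset.mem_cons_of_mem hx
            · have := h3 _ hn'R
              simp only at this
              omega)).r1 hndS1 hS1
      have e : F + Multiset.replicate (p + p) (1, 0) + S =
          ((b, n') ::ₘ (y, a) ::ₘ (y, c) ::ₘ (s, 1) ::ₘ
            (rest + Multiset.replicate (p + p) (1, 0))) + S1 := by
        rw [hFeq, hrest, hSeq]
        simp only [← Multiset.singleton_add]
        abel
      rw [e]
      exact h1
    by_cases hd : b + 2 ≤ s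
    · exact fin na nb F3 hF (Or.inl hd)
    by_cases hpar : na % 2 = nb % 2
    · exact fin na nb F3 hF (Or.inr (Or.inl hpar))
    by_cases hthird : ∃ e ∈ F3, e.1 = y
    · obtain ⟨⟨y', ne⟩, heF, hey⟩ := hthird
      simp only at hey
      subst hey
      obtain ⟨F5, hF5⟩ := Multiset.exists_cons_of_mem heF
      by_cases hpe : na % 2 = ne % 2
      · apply fin na ne ((y', nb) ::ₘ F5) _ (Or.inr (Or.inl hpe))
        rw [hF, hF5, Multiset.cons_swap (y', nb)]
      · apply fin nb ne ((y', na) ::ₘ F5) _ (Or.inr (Or.inl (by omega)))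
        rw [hF, hF5, Multiset.cons_swap (y', na), Multiset.cons_swap (y', na)]
    · push Not at hthird
      have hF3' : ∀ x ∈ F3, y + 1 ≤ x.1 := by
        intro x hx
        have h1 := hF3 x hx
        have h2 := hthird x hx
        omega
      rcases Nat.even_or_odd na with h1 | h1
      · have h2 := Nat.even_iff.1 h1
        apply fin nb na F3 _ (Or.inr (Or.inr ⟨by omega, by omega, hF3'⟩))
        rw [hF, Multiset.cons_swap]
      · have h2 := Nat.odd_iff.1 h1
        exact fin na nb F3 hF (Or.inr (Or.inr ⟨by omega, by omega, hF3'⟩))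
  · -- the blocks A, B, V
    have hS' : ∀ x ∈ S, x.2 = 1 ∧ b + y < x.1 := by
      intro x hx
      have h2 := hS x hx
      refine ⟨h2.1, ?_⟩
      have h3 : s ≤ x.1 := by
        rw [hSeq] at hx
        rcases Multiset.mem_cons.1 hx with rfl | hx
        · exact le_rfl
        · exact hSmin x hx
      omega
    obtain ⟨⟨v, n0⟩, ⟨v2, n1⟩, F4, hF4, hv, hF4min, hev4, halt4⟩ :=
      paired_cons hF30 hev3 halt3
    simp only at hv hF4min
    subst hv
    have hV0 : (v, n0) ∈ F := by rw [hF, hF4]; simp
    have hV1 : (v, n1) ∈ F := by rw [hF, hF4]; simp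
    have hyv : y ≤ v := hmin _ hV0
    have hvb : v ≤ b := hFb _ hV0
    have hF4F : F4 ≤ F := by
      rw [hF, hF4]
      exact (((Multiset.le_cons_self _ _).trans (Multiset.le_cons_self _ _)).trans
        (Multiset.le_cons_self _ _)).trans (Multiset.le_cons_self _ _)
    have fin2 : ∀ (a c m : ℕ) (rest : Multiset (ℕ × ℕ)),
        F = (y, a) ::ₘ (y, c) ::ₘ (v, m) ::ₘ rest → (∀ x ∈ rest, v ≤ x.1) → alt rest = v →
        ((3 ≤ m ∧ m % 2 = 1) ∨ (2 ≤ m ∧ m % 2 = 0 ∧ (y < v ∨ (2 ≤ y ∧ 4 ≤ m)))) →
        Final (F + Multiset.replicate (p + p) (1, 0) + S) := by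
      intro a c m rest hFeq hrmin hralt hm
      have hrF : rest ≤ F := by
        rw [hFeq]
        exact ((Multiset.le_cons_self _ _).trans (Multiset.le_cons_self _ _)).trans
          (Multiset.le_cons_self _ _)
      have haF2 : s ≤ a := hbig (y, a) (by rw [hFeq]; simp) rfl
      have hcF2 : s ≤ c := hbig (y, c) (by rw [hFeq]; simp) rfl
      have h1 := (case_BVA (F := rest) (Multiset.nodup_of_le hrF hnd)
        (fun x hx => hok x (Multiset.mem_of_le hrF hx)) hy hyv hvb (by omega : b + y + 1 ≤ a)
        (by omega : b + y + 1 ≤ c) hrmin hralt hm).r2 hndS hS' hSne (p + p)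
      rw [← hFeq] at h1
      exact h1
    have haltV1 : alt ((v, n1) ::ₘ F4) = v := by
      rw [alt_cons_min hF4min, halt4, sub_zero]
    have haltV0 : alt ((v, n0) ::ₘ F4) = v := by
      rw [alt_cons_min hF4min, halt4, sub_zero]
    have hminV : ∀ k, ∀ x ∈ (v, k) ::ₘ F4, v ≤ x.1 := by
      intro k x hx
      rcases Multiset.mem_cons.1 hx with rfl | hx
      · exact le_rfl
      · exact hF4min x hx
    by_cases hyv2 : y < v
    · by_cases hn0 : 2 ≤ n0
      · apply fin2 na nb n0 ((v, n1) ::ₘ F4) (by rw [hF, hF4]) (hminV n1) haltV1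
        rcases Nat.even_or_odd n0 with h1 | h1
        · have h2 := Nat.even_iff.1 h1
          exact Or.inr ⟨hn0, h2, Or.inl hyv2⟩
        · have h2 := Nat.odd_iff.1 h1
          exact Or.inl ⟨by omega, h2⟩
      · have hn1 : 2 ≤ n1 := by
          by_contra hn1
          have h1 := (hok _ hV0).2
          have h2 := (hok _ hV1).2
          simp only at h1 h2
          have h3 : n0 = n1 := by omega
          subst h3
          rw [hF, hF4] at hnd
          simp at hnd
        apply fin2 na nb n1 ((v, n0) ::ₘ F4) (by rw [hF, hF4, Multiset.cons_swap (v, n1)])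
          (hminV n0) haltV0
        rcases Nat.even_or_odd n1 with h1 | h1
        · have h2 := Nat.even_iff.1 h1
          exact Or.inr ⟨hn1, h2, Or.inl hyv2⟩
        · have h2 := Nat.odd_iff.1 h1
          exact Or.inl ⟨by omega, h2⟩
    · have hyv3 : y = v := by omega
      subst hyv3
      have hn0 : s ≤ n0 := hbig _ hV0 rfl
      have hn1 : s ≤ n1 := hbig _ hV1 rfl
      by_cases hy2 : 2 ≤ y
      · apply fin2 na nb n0 ((y, n1) ::ₘ F4) (by rw [hF, hF4]) (hminV n1) haltV1
        rcases Nat.even_or_odd n0 with h1 | h1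
        · have h2 := Nat.even_iff.1 h1
          exact Or.inr ⟨by omega, h2, Or.inr ⟨hy2, by omega⟩⟩
        · have h2 := Nat.odd_iff.1 h1
          exact Or.inl ⟨by omega, h2⟩
      have hy1 : y = 1 := by omega
      subst hy1
      by_cases hex : ∃ V ∈ F, V.1 = 1 ∧ V.2 % 2 = 1
      · obtain ⟨⟨v', m⟩, hVF, hv1, hm2⟩ := hex
        simp only at hv1 hm2
        subst hv1
        have hm : s ≤ m := hbig _ hVF rfl
        have hmm : (3 ≤ m ∧ m % 2 = 1) ∨
            (2 ≤ m ∧ m % 2 = 0 ∧ (1 < 1 ∨ (2 ≤ 1 ∧ 4 ≤ m))) := Or.inl ⟨by omega, hm2⟩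
        have hVF' := hVF
        rw [hF, hF4] at hVF'
        rcases Multiset.mem_cons.1 hVF' with h | h
        · have hm3 : m = na := (Prod.mk.inj h).2
          subst hm3
          apply fin2 nb n0 m ((1, n1) ::ₘ F4) _ (hminV n1) haltV1 hmm
          rw [hF, hF4]
          simp only [← Multiset.singleton_add]
          abel
        rcases Multiset.mem_cons.1 h with h | h
        · have hm3 : m = nb := (Prod.mk.inj h).2
          subst hm3
          apply fin2 na n0 m ((1, n1) ::ₘ F4) _ (hminV n1) haltV1 hmm
          rw [hF, hF4]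
          simp only [← Multiset.singleton_add]
          abel
        rcases Multiset.mem_cons.1 h with h | h
        · have hm3 : m = n0 := (Prod.mk.inj h).2
          subst hm3
          exact fin2 na nb m ((1, n1) ::ₘ F4) (by rw [hF, hF4]) (hminV n1) haltV1 hmm
        rcases Multiset.mem_cons.1 h with h | h
        · have hm3 : m = n1 := (Prod.mk.inj h).2
          subst hm3
          exact fin2 na nb m ((1, n0) ::ₘ F4) (by rw [hF, hF4, Multiset.cons_swap (1, m)])
            (hminV n0) haltV0 hmm
        · obtain ⟨F5, hF5⟩ := Multiset.exists_cons_of_mem h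
          have hF5min : ∀ x ∈ F5, 1 ≤ x.1 := by
            intro x hx
            apply hF4min x
            rw [hF5]
            exact Multiset.mem_cons_of_mem hx
          have halt5 : alt F5 = 1 := by
            have : alt F4 = 1 - alt F5 := by
              rw [hF5, alt_cons_min (by simpa using hF5min)]
              simp
            linarith
          have hmin5 : ∀ x ∈ (1, n1) ::ₘ F5, 1 ≤ x.1 := by
            intro x hx
            rcases Multiset.mem_cons.1 hx with rfl | hx
            · exact le_rfl
            · exact hF5min x hx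
          apply fin2 na nb m ((1, n0) ::ₘ (1, n1) ::ₘ F5) _ _ _ hmm
          · rw [hF, hF4, hF5]
            simp only [← Multiset.singleton_add]
            abel
          · intro x hx
            rcases Multiset.mem_cons.1 hx with rfl | hx
            · exact le_rfl
            · exact hmin5 x hx
          · rw [alt_cons_min (by simpa using hmin5), alt_cons_min (by simpa using hF5min),
              halt5]
            simp
      · push Not at hex
        have hevall : ∀ V ∈ F, V.1 = 1 → V.2 % 2 = 0 := by
          intro V hV hV1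
          have := hex V hV hV1
          omega
        have e1 := hevall _ haF rfl
        have e2 := hevall _ hbF rfl
        have e3 := hevall _ hV0 rfl
        have e4 := hevall _ hV1 rfl
        simp only at e1 e2 e3 e4
        have h1 := (case_DFS (F := F4) (Multiset.nodup_of_le hF4F hnd)
          (fun x hx => hok x (Multiset.mem_of_le hF4F hx)) e1 (by omega) e2 (by omega) e3
          (by omega) e4 (by omega) (fun x hx => hevall x (Multiset.mem_of_le hF4F hx))
          halt4 b).r2 hndS hS hSne (p + p)
        rw [← hF4, ← hF] at h1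
        exact h1

end Pool.Agent.Lib.MP_404fd0_co
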