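import Mathlib
import Pool.Agent.Lib.MP_404fd0_co.Paired

namespace Pool.Agent.Lib.MP_404fd0_co

/-- An odd number of blocks. -/
theorem oddCase {F S : Multiset (ℕ × ℕ)} {F1 : Multiset (ℕ × ℕ)} {b n P : ℕ}
    (hnd : F.Nodup) (hok : ∀ x ∈ F, 1 ≤ x.1 ∧ 1 ≤ x.2) (hF : F = (b, n) ::ₘ F1)
    (hev : Even (Multiset.card F1)) (hFb : ∀ x ∈ F, x.1 ≤ b) (hn : 2 ≤ n)
    (hndS : S.Nodup) (hS : ∀ x ∈ S, x.2 = 1 ∧ b < x.1) :
    Final (F + Multiset.replicate P (1, 0) + S) := by
  have hb : 1 ≤ b := (hok (b, n) (by rw [hF]; simp)).1
  have hF1F : F1 ≤ F := by rw [hF]; exact Multiset.le_cons_self _ _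
  have hF1b : ∀ x ∈ F1, x.1 ≤ b := fun x hx => hFb x (Multiset.mem_of_le hF1F hx)
  have hFne : F ≠ 0 := by rw [hF]; exact Multiset.cons_ne_zero
  have hFodd : ¬ Even (Multiset.card F) := by
    rw [hF, Multiset.card_cons, Nat.even_add_one, not_not]
    exact hev
  obtain ⟨⟨y, zn⟩, G, hG, hGmin⟩ := exists_min hFne
  simp only at hGmin
  have hyn : (y, zn) ∈ F := by rw [hG]; simp
  have hmin : ∀ x ∈ F, y ≤ x.1 := by
    intro x hx
    rw [hG] at hx
    rcases Multiset.mem_cons.1 hx with rfl | hx
    · exact le_rfl
    · exact hGmin x hx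
  have hy : 1 ≤ y := (hok _ hyn).1
  have hy' : (1 : ℤ) ≤ y := by exact_mod_cast hy
  have hyb : y ≤ b := hFb _ hyn
  have hS1 : ∀ x ∈ S, x.2 = 1 ∧ 1 ≤ x.1 := fun x hx => ⟨(hS x hx).1, by
    have := (hS x hx).2
    omega⟩
  have hal : alt F = alt F1 + b := by
    rw [hF, alt_cons_max hF1b, if_pos hev]
  have haly : (y : ℤ) ≤ alt F := alt_odd_ge hFodd hmin
  by_cases haleq : alt F = y
  · have h1 := case_start hnd hok (z := y) (h := 0) (l := 0) hy' (by rw [haleq]; ring)
      (fun x hx => by exact_mod_cast hmin x hx)
    have h2 := h1.r3 hndS hS1 P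
    simpa using h2
  have halgt : (y : ℤ) + 1 ≤ alt F := by
    rcases lt_or_eq_of_le haly with h | h
    · linarith
    · exact absurd h.symm haleq
  have halb : alt F ≤ b := alt_le hFb
  have hyltb : y < b := by
    have : (y : ℤ) < b := by linarith
    exact_mod_cast this
  have hF1ne : F1 ≠ 0 := by
    rintro rfl
    rw [hF] at hyn
    simp only [Multiset.mem_cons, Prod.mk.injEq, Multiset.notMem_zero, or_false] at hyn
    omega
  obtain ⟨⟨x, m⟩, F2, hF1, hF2x⟩ := exists_max hF1ne
  simp only at hF2x
  have hF2F1 : F2 ≤ F1 := by rw [hF1]; exact Multiset.le_cons_self _ _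
  have hF2F : F2 ≤ F := hF2F1.trans hF1F
  have hxF : (x, m) ∈ F := by rw [hF, hF1]; simp
  have hxb : x ≤ b := hFb _ hxF
  obtain ⟨hx1, hm1⟩ := hok _ hxF
  simp only at hx1 hm1
  have hF2odd : ¬ Even (Multiset.card F2) := by
    rw [hF1, Multiset.card_cons, Nat.even_add_one] at hev
    exact hev
  have hnd2 := Multiset.nodup_of_le hF2F hnd
  have hok2 : ∀ x ∈ F2, 1 ≤ x.1 ∧ 1 ≤ x.2 := fun x hx => hok x (Multiset.mem_of_le hF2F hx)
  have hnd1 := Multiset.nodup_of_le hF1F hnd
  have hok1 : ∀ x ∈ F1, 1 ≤ x.1 ∧ 1 ≤ x.2 := fun x hx => hok x (Multiset.mem_of_le hF1F hx)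
  have hO1 : (y : ℤ) ≤ alt F2 :=
    alt_odd_ge hF2odd (fun x hx => hmin x (Multiset.mem_of_le hF2F hx))
  have hOx : alt F2 ≤ x := alt_le hF2x
  have halt1 : alt F1 = alt F2 - x := by
    rw [hF1, alt_cons_max, if_neg hF2odd]
    · rfl
    · exact hF2x
  obtain ⟨O, hO⟩ : ∃ O, O = alt F2 := ⟨_, rfl⟩
  rw [← hO] at hO1 hOx halt1
  rw [halt1] at hal
  have hb' : (1 : ℤ) ≤ b := by exact_mod_cast hb
  have hxb' : (x : ℤ) ≤ b := by exact_mod_cast hxb
  by_cases hS0 : S = 0
  · subst hS0
    rw [add_zero]
    by_cases hOeq : O = x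
    · -- the others are paired
      rcases Nat.even_or_odd' P with ⟨p, hp | hp⟩
      · have h1 := case_E1 hnd1 hok1 (b := b) (n := n) (z := b) (h := p) (l := p) hb hn hb'
          le_rfl (by rw [halt1, hOeq]; ring)
        have h2 := h1.r1 (S := 0) (by simp) (by simp)
        rw [add_zero] at h2
        have e : P = p + p := by omega
        rw [e, hF, Multiset.cons_add]
        exact h2
      · have h1 := case_E1 hnd1 hok1 (b := b) (n := n) (z := b - 1) (h := p) (l := p + 1) hb hn
          (by linarith) (by linarith) (by rw [halt1, hOeq]; push_cast; ring)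
        have h2 := h1.r1 (S := 0) (by simp) (by simp)
        rw [add_zero] at h2
        have e : P = p + (p + 1) := by omega
        rw [e, hF, Multiset.cons_add]
        exact h2
    have hOlt : O + 1 ≤ x := by
      rcases lt_or_eq_of_le hOx with h | h
      · linarith
      · exact absurd h hOeq
    by_cases hpeel : x < b ∧ 2 ≤ m
    · have h1 := case_E1 hnd2 hok2 (b := x) (n := m) (z := x - O) (h := 0) (l := 0) hx1
        hpeel.2 (by linarith) (by linarith) (by rw [← hO]; push_cast; ring)
      have h2 := h1.r4 hpeel.1 (by omega : 1 ≤ n) P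
      rw [hF, hF1]
      simpa using h2
    · obtain ⟨p, δ, hP, hδ⟩ : ∃ p δ : ℕ, P = p + δ + p ∧ (δ = 0 ∨ δ = 1) := by
        rcases Nat.even_or_odd' P with ⟨p, hp | hp⟩
        · exact ⟨p, 0, by omega, Or.inl rfl⟩
        · exact ⟨p, 1, by omega, Or.inr rfl⟩
      have hδ0 : (0 : ℤ) ≤ δ := by positivity
      have hδ1 : (δ : ℤ) ≤ 1 := by
        rcases hδ with rfl | rfl
        · norm_num
        · norm_num
      have hfin : Out b ((b, n) ::ₘ (x, m) ::ₘ (F2 + Multiset.replicate (p + δ + p) (1, 0))) →
          Final (F + Multiset.replicate P (1, 0)) := by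
        intro h1
        have h2 := h1.r1 (S := 0) (by simp) (by simp)
        rw [add_zero] at h2
        rw [hP, hF, hF1, Multiset.cons_add, Multiset.cons_add]
        exact h2
      apply hfin
      rcases Nat.even_or_odd m with h1 | h1
      · have h2 := Nat.even_iff.1 h1
        have hxb2 : x = b := by
          by_contra h3
          apply hpeel
          exact ⟨by omega, by omega⟩
        have hxb3 : (x : ℤ) = b := by exact_mod_cast hxb2
        apply case_I5 hnd2 hok2 (z := b - x + O + δ) hn (by linarith) (by linarith) hxb h2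
          (by omega)
        rw [← hO]
        push_cast
        ring
      · have h2 := Nat.odd_iff.1 h1
        apply case_I3 hnd2 hok2 (z := b - x + O + δ) hx1 hn (by linarith) (by linarith) h2
        · by_cases hm : m = 1
          · exact Or.inl hm
          · right
            have hxb2 : x = b := by
              by_contra h3
              apply hpeel
              exact ⟨by omega, by omega⟩
            have hxb3 : (x : ℤ) = b := by exact_mod_cast hxb2
            linarith
        · rw [← hO]
          push_cast
          ring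
  · -- some blocks are outside
    have hfinW : OutW b F → Final (F + Multiset.replicate P (1, 0) + S) :=
      fun h => h.r2 hndS hS hS0 P
    apply hfinW
    by_cases hOeq : O = x
    · have h1 := case_E1 hnd1 hok1 (b := b) (n := n) (z := b) (h := 0) (l := 0) hb hn hb'
        le_rfl (by rw [halt1, hOeq]; ring)
      rw [hF]
      simpa using h1.weak
    have hOlt : O + 1 ≤ x := by
      rcases lt_or_eq_of_le hOx with h | h
      · linarith
      · exact absurd h hOeq
    by_cases hZ : ∃ Z ∈ F, Z.1 = y ∧ Z.2 < b
    · obtain ⟨⟨zy, zn'⟩, hZF, hZy, hZn⟩ := hZ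
      simp only at hZy hZn
      subst hZy
      obtain ⟨G', hG'⟩ := Multiset.exists_cons_of_mem hZF
      have hG'F : G' ≤ F := by rw [hG']; exact Multiset.le_cons_self _ _
      have hcG : (b, n) ∈ G' := by
        have h1 : (b, n) ∈ F := by rw [hF]; simp
        rw [hG'] at h1
        rcases Multiset.mem_cons.1 h1 with h | h
        · exfalso
          have := (Prod.mk.inj h).1
          omega
        · exact h
      obtain ⟨G2, hG2⟩ := Multiset.exists_cons_of_mem hcG
      have hG2F : G2 ≤ F := by
        have : G2 ≤ G' := by rw [hG2]; exact Multiset.le_cons_self _ _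
        exact this.trans hG'F
      have hcard : ¬ Even (Multiset.card G2) := by
        rw [hG', hG2, Multiset.card_cons, Multiset.card_cons, Nat.even_add_one,
          Nat.even_add_one, not_not] at hFodd
        exact hFodd
      have ha1 : alt F = zy - alt G' := by
        rw [hG', alt_cons_min]
        intro x hx
        exact hmin x (Multiset.mem_of_le hG'F hx)
      have ha2 : alt G' = alt G2 - b := by
        rw [hG2, alt_cons_max, if_neg hcard]
        · rfl
        · intro x hx
          exact hFb x (Multiset.mem_of_le hG2F hx)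
      have h1 := case_E1 (Multiset.nodup_of_le hG2F hnd)
        (fun x hx => hok x (Multiset.mem_of_le hG2F hx)) (b := b) (n := n)
        (z := alt F - zy) (h := 0) (l := 0) hb hn (by linarith) (by linarith)
        (by rw [ha1, ha2]; push_cast; ring)
      have h2 := h1.r5 (y := zy) (n := zn') hy hZn
      rw [hG', hG2]
      simpa using h2
    push Not at hZ
    rcases Nat.even_or_odd m with h1 | h1
    · have h2 := Nat.even_iff.1 h1
      by_cases hI5 : b - x + O ≤ x
      · have h3 := case_I5 hnd2 hok2 (b := b) (n := n) (x := x) (m := m) (h := 0) (l := 0)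
          (z := b - x + O) hn (by linarith) hI5 hxb h2 (by omega) (by rw [← hO]; push_cast; ring)
        rw [hF, hF1]
        simpa using h3.weak
      · have hxltb : x < b := by
          have : (x : ℤ) < b := by linarith
          exact_mod_cast this
        have hxb2 : (x : ℤ) + 2 ≤ b := by linarith
        have hxb3 : x + 2 ≤ b := by exact_mod_cast hxb2
        have h3 := case_negX hnd2 hok2 (b := b) (n := n) (x := x) (m := m)
          (by rw [← hO]; linarith) (by rw [← hO]; linarith) hxltb hn h2 (by omega) (by
            intro g hg hgmin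
            have hgF := Multiset.mem_of_le hF2F hg
            have hgy : g.1 = y := by
              have h5 := hmin g hgF
              by_contra h6
              have h7 : (y, zn) ∈ F := hyn
              rw [hF] at h7
              rcases Multiset.mem_cons.1 h7 with h | h
              · have := (Prod.mk.inj h).1
                omega
              · rw [hF1] at h
                rcases Multiset.mem_cons.1 h with h | h
                · have h8 := (Prod.mk.inj h).1
                  have h9 := hF2x g hg
                  omega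
                · have h8 := hgmin _ h
                  simp only at h8
                  omega
            have := hZ g hgF hgy
            omega)
        rw [hF, hF1]
        exact h3
    · have h2 := Nat.odd_iff.1 h1
      by_cases hO2 : 2 ≤ O ∨ m = 1
      · have h3 := case_I3 hnd2 hok2 (b := b) (n := n) (x := x) (m := m) (h := 0) (l := 0)
          (z := b - x + O) hx1 hn (by linarith) (by linarith) h2 (by
            rcases hO2 with h | h
            · right; linarith
            · left; exact h) (by rw [← hO]; push_cast; ring)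
        rw [hF, hF1]
        simpa using h3.weak
      · push Not at hO2
        have hOone : O = 1 := by linarith [hO2.1]
        have hy1 : y = 1 := by
          have : (y : ℤ) ≤ 1 := by linarith
          have : y ≤ 1 := by exact_mod_cast this
          omega
        subst hy1
        have hx2 : 2 ≤ x := by
          have : (2 : ℤ) ≤ x := by linarith
          exact_mod_cast this
        have hxltb : x + 1 ≤ b := by
          have : (x : ℤ) + 1 ≤ b := by
            push_cast at halgt
            linarith
          exact_mod_cast this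
        have h1F : ∃ g ∈ F2, g.1 = 1 := by
          have hF2ne : F2 ≠ 0 := by
            rintro rfl
            simp at hF2odd
          obtain ⟨g, G3, hG3, hg⟩ := exists_min hF2ne
          refine ⟨g, by rw [hG3]; simp, ?_⟩
          have h5 : (g.1 : ℤ) ≤ alt F2 := by
            apply alt_odd_ge hF2odd
            intro z hz
            rw [hG3] at hz
            rcases Multiset.mem_cons.1 hz with rfl | hz
            · exact le_rfl
            · exact hg z hz
          rw [← hO, hOone] at h5
          have h6 : g.1 ≤ 1 := by exact_mod_cast h5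
          have h7 := (hok2 g (by rw [hG3]; simp)).1
          omega
        have h3 := case_C hnd2 hok2 (b := b) (n := n) (x := x) (m := m)
          (by rw [← hO]; exact hOone) hx2 hxltb hn h2 (by omega) h1F (by
            intro g hg hg1
            have := hZ g (Multiset.mem_of_le hF2F hg) hg1
            omega)
        rw [hF, hF1]
        exact h3.weak

/-- An even number of blocks. -/
theorem evenCase {F S : Multiset (ℕ × ℕ)} {F1 : Multiset (ℕ × ℕ)} {b n P : ℕ}
    (hnd : F.Nodup) (hok : ∀ x ∈ F, 1 ≤ x.1 ∧ 1 ≤ x.2) (hF : F = (b, n) ::ₘ F1)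
    (hodd : ¬ Even (Multiset.card F1)) (hFb : ∀ x ∈ F, x.1 ≤ b) (hn : 2 ≤ n)
    (hndS : S.Nodup) (hS : ∀ x ∈ S, x.2 = 1 ∧ b < x.1) :
    Final (F + Multiset.replicate P (1, 0) + S) := by
  have hb : 1 ≤ b := (hok (b, n) (by rw [hF]; simp)).1
  have hF1F : F1 ≤ F := by rw [hF]; exact Multiset.le_cons_self _ _
  have hF1b : ∀ x ∈ F1, x.1 ≤ b := fun x hx => hFb x (Multiset.mem_of_le hF1F hx)
  have hnd1 := Multiset.nodup_of_le hF1F hnd
  have hok1 : ∀ x ∈ F1, 1 ≤ x.1 ∧ 1 ≤ x.2 := fun x hx => hok x (Multiset.mem_of_le hF1F hx)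
  have hO1 : ((1 : ℕ) : ℤ) ≤ alt F1 := alt_odd_ge hodd (fun x hx => (hok1 x hx).1)
  have hOb : alt F1 ≤ b := alt_le hF1b
  have hfin : ∀ h l : ℕ, h + l = P → 1 ≤ (b : ℤ) - alt F1 + h - l →
      (b : ℤ) - alt F1 + h - l ≤ b → Final (F + Multiset.replicate P (1, 0) + S) := by
    intro h l hP h1 h2
    have h3 := (case_E1 hnd1 hok1 (b := b) (n := n) (h := h) (l := l) hb hn h1 h2 rfl).r1
      hndS hS
    rw [← hP, hF, Multiset.cons_add]
    exact h3
  rcases Nat.even_or_odd' P with ⟨p, hp | hp⟩
  · by_cases hOeq : alt F1 = b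
    · have hev : Even (Multiset.card F) := by
        rw [hF, Multiset.card_cons, Nat.even_add_one]
        exact hodd
      have h0 : alt F = 0 := by
        rw [hF, alt_cons_max hF1b, if_neg hodd]
        simp only
        linarith
      have e : P = p + p := by omega
      rw [e]
      exact paired hnd hok hev h0 hFb (by rw [hF]; simp) hn hndS hS
    · have hlt : alt F1 + 1 ≤ b := by
        rcases lt_or_eq_of_le hOb with h | h
        · linarith
        · exact absurd h hOeq
      apply hfin p p (by omega)
      · linarith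
      · push_cast at hO1
        linarith
  · apply hfin (p + 1) p (by omega)
    · push_cast
      linarith
    · push_cast at hO1 ⊢
      linarith

/-- The main theorem at the level of blocks. -/
theorem main_blocks {G : Multiset (ℕ × ℕ)} (hnd : G.Nodup)
    (hok : ∀ x ∈ G, 1 ≤ x.1 ∧ 1 ≤ x.2) (P : ℕ) :
    Final (G + Multiset.replicate P (1, 0)) := by
  classical
  by_cases hbig : G.filter (fun x => 2 ≤ x.2) = 0
  · have h1 : Out0 0 := ⟨0, 0, 0, by simp, cert_zero⟩
    have h2 := h1.r3 hnd (by
      intro x hx
      have h3 := hok x hx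
      refine ⟨?_, h3.1⟩
      by_contra h4
      have h5 : x ∈ G.filter (fun x => 2 ≤ x.2) := by
        rw [Multiset.mem_filter]
        exact ⟨hx, by omega⟩
      rw [hbig] at h5
      simp at h5) P
    rw [zero_add, add_comm] at h2
    exact h2
  · obtain ⟨⟨b, n⟩, B', hB, hBmax⟩ := exists_max hbig
    simp only at hBmax
    have hbn : (b, n) ∈ G ∧ 2 ≤ n := by
      have : (b, n) ∈ G.filter (fun x => 2 ≤ x.2) := by rw [hB]; simp
      rw [Multiset.mem_filter] at this
      exact this
    have hmax : ∀ x ∈ G, 2 ≤ x.2 → x.1 ≤ b := by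
      intro x hx hx2
      have : x ∈ G.filter (fun x => 2 ≤ x.2) := by
        rw [Multiset.mem_filter]; exact ⟨hx, hx2⟩
      rw [hB] at this
      rcases Multiset.mem_cons.1 this with rfl | h
      · exact le_rfl
      · exact hBmax x h
    set S := G.filter (fun x => b < x.1) with hS
    set F := G.filter (fun x => ¬ b < x.1) with hF
    have hsplit : S + F = G := Multiset.filter_add_not _ _
    have hSp : ∀ x ∈ S, x.2 = 1 ∧ b < x.1 := by
      intro x hx
      rw [hS, Multiset.mem_filter] at hx
      refine ⟨?_, hx.2⟩
      have h1 := (hok x hx.1).2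
      by_contra h2
      have := hmax x hx.1 (by omega)
      omega
    have hFb : ∀ x ∈ F, x.1 ≤ b := by
      intro x hx
      rw [hF, Multiset.mem_filter] at hx
      omega
    have hcF : (b, n) ∈ F := by
      rw [hF, Multiset.mem_filter]
      exact ⟨hbn.1, by simp⟩
    have hndF : F.Nodup := Multiset.nodup_of_le (Multiset.filter_le _ _) hnd
    have hndS : S.Nodup := Multiset.nodup_of_le (Multiset.filter_le _ _) hnd
    have hokF : ∀ x ∈ F, 1 ≤ x.1 ∧ 1 ≤ x.2 := fun x hx =>
      hok x (Multiset.mem_of_le (Multiset.filter_le _ _) hx)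
    obtain ⟨F1, hF1⟩ := Multiset.exists_cons_of_mem hcF
    have e : G + Multiset.replicate P (1, 0) = F + Multiset.replicate P (1, 0) + S := by
      rw [← hsplit]
      abel
    rw [e]
    by_cases hpar : Even (Multiset.card F1)
    · exact oddCase hndF hokF hF1 hpar hFb hbn.2 hndS hSp
    · exact evenCase hndF hokF hF1 hpar hFb hbn.2 hndS hSp

end Pool.Agent.Lib.MP_404fd0_co
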