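import Mathlib

namespace Pool.Agent.Lib.MP_404fd0_co

/-- A graph with `q` edges is graceful if there is an injective map `f` from its vertices to
`{0, 1, ..., q}` such that different edges `uv` get different labels `|f u - f v|`. -/
def Graceful {V : Type*} (G : SimpleGraph V) : Prop :=
  ∃ f : V → ℕ, Function.Injective f ∧ (∀ x, f x ≤ G.edgeSet.ncard) ∧
    ∀ x y x' y', G.Adj x y → G.Adj x' y' →
      |(f x : ℤ) - f y| = |(f x' : ℤ) - f y'| → s(x, y) = s(x', y')

/-- The canonical map from the vertices of the `i`-th graph to the vertices of the one-point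
union: the vertex `v i` goes to the common point `none`, the other vertices are kept apart. -/
noncomputable def glue {ι : Type*} {V : ι → Type*} (v : ∀ i, V i) (i : ι) (x : V i) :
    Option (Σ j, {y : V j // y ≠ v j}) :=
  open Classical in if h : x = v i then none else some ⟨i, x, h⟩

theorem glue_eq_none {ι : Type*} {V : ι → Type*} {v : ∀ i, V i} {i : ι} {x : V i} :
    glue v i x = none ↔ x = v i := by
  unfold glue
  split_ifs with h
  · simp [h]
  · simp [h]

theorem glue_inj {ι : Type*} {V : ι → Type*} {v : ∀ i, V i} {i : ι} {x y : V i}
    (h : glue v i x = glue v i y) : x = y := by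
  by_cases hx : x = v i
  · by_cases hy : y = v i
    · rw [hx, hy]
    · rw [glue_eq_none.2 hx] at h
      exact absurd (glue_eq_none.1 h.symm) hy
  · by_cases hy : y = v i
    · rw [glue_eq_none.2 hy] at h
      exact absurd (glue_eq_none.1 h) hx
    · unfold glue at h
      rw [dif_neg hx, dif_neg hy] at h
      simpa using h

/-- The one-point union of the graphs `H i` at the vertices `v i`: the disjoint union of the
graphs with all the vertices `v i` identified into one vertex. -/
def onePointUnion {ι : Type*} {V : ι → Type*} (H : ∀ i, SimpleGraph (V i)) (v : ∀ i, V i) :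
    SimpleGraph (Option (Σ j, {y : V j // y ≠ v j})) where
  Adj a b := ∃ (i : ι) (x y : V i), (H i).Adj x y ∧ glue v i x = a ∧ glue v i y = b
  symm := by
    constructor
    rintro a b ⟨i, x, y, h, h1, h2⟩
    exact ⟨i, y, x, h.symm, h2, h1⟩
  loopless := by
    constructor
    rintro a ⟨i, x, y, h, h1, h2⟩
    have : x = y := glue_inj (h1.trans h2.symm)
    subst this
    exact (H i).irrefl h

end Pool.Agent.Lib.MP_404fd0_co
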