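import Mathlib
import Pool.Agent.Lib.MP_404fd0_co.Defs
import Pool.Agent.Lib.MP_404fd0_co.Assemble

namespace Pool.Agent.Lib.MP_404fd0_co

theorem exists_enum {α : Type*} [DecidableEq α] (s : Finset α) :
    ∀ (M : Multiset ℤ), Multiset.card M = s.card → ∃ g : α → ℤ, s.val.map g = M := by
  induction s using Finset.induction_on with
  | empty =>
      intro M hM
      refine ⟨fun _ => 0, ?_⟩
      rw [Finset.card_empty, Multiset.card_eq_zero] at hM
      rw [hM]
      simp
  | insert a s ha ih =>
      intro M hM
      rw [Finset.card_insert_of_notMem ha] at hM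
      obtain ⟨x, hx⟩ : ∃ x, x ∈ M := by
        apply Multiset.exists_mem_of_ne_zero
        rintro rfl
        simp at hM
      obtain ⟨M', rfl⟩ := Multiset.exists_cons_of_mem hx
      obtain ⟨g, hg⟩ := ih M' (by simpa using hM)
      refine ⟨Function.update g a x, ?_⟩
      rw [Finset.insert_val_of_notMem ha, Multiset.map_cons, Function.update_self]
      congr 1
      rw [← hg]
      apply Multiset.map_congr rfl
      intro z hz
      rw [Function.update_of_ne]
      rintro rfl
      exact ha hz

theorem exists_split {R : Multiset RB} : ∀ {A B : Multiset (ℕ × ℕ)}, R.map shp = A + B →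
    ∃ R1 R2, R = R1 + R2 ∧ R1.map shp = A ∧ R2.map shp = B := by
  intro A
  induction A using Multiset.induction_on generalizing R with
  | empty =>
      intro B h
      exact ⟨0, R, by simp, by simp, by simpa using h⟩
  | cons a A ih =>
      intro B h
      rw [Multiset.cons_add] at h
      have ha : a ∈ R.map shp := by rw [h]; exact Multiset.mem_cons_self _ _
      obtain ⟨r, hr, hra⟩ := Multiset.mem_map.1 ha
      obtain ⟨R', rfl⟩ := Multiset.exists_cons_of_mem hr
      rw [Multiset.map_cons, hra, Multiset.cons_inj_right] at h
      obtain ⟨R1, R2, h1, h2, h3⟩ := ih h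
      refine ⟨r ::ₘ R1, R2, ?_, ?_, h3⟩
      · rw [h1, Multiset.cons_add]
      · rw [Multiset.map_cons, hra, h2]

/-- The blocks used for one graph: a star at its centre is a set of pendants. -/
def piece (x : ℕ × ℕ) : Multiset (ℕ × ℕ) :=
  if x.2 = 0 then Multiset.replicate x.1 (1, 0) else {x}

theorem pendants {R : Multiset RB} {b : ℕ} (h : R.map shp = Multiset.replicate b (1, 0)) :
    Multiset.card (lab R) = b ∧ edg R = (lab R).map (fun p => |p|) := by
  induction b generalizing R with
  | zero =>
      rw [Multiset.replicate_zero, Multiset.map_eq_zero] at h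
      subst h
      simp [lab, edg]
  | succ b ih =>
      rw [Multiset.replicate_succ] at h
      have ha : (1, 0) ∈ R.map shp := by rw [h]; exact Multiset.mem_cons_self _ _
      obtain ⟨r, hr, hra⟩ := Multiset.mem_map.1 ha
      obtain ⟨R', rfl⟩ := Multiset.exists_cons_of_mem hr
      rw [Multiset.map_cons, hra, Multiset.cons_inj_right] at h
      obtain ⟨h1, h2⟩ := ih h
      obtain ⟨r1, r2⟩ := r
      simp only [shp, Prod.mk.injEq] at hra
      have hr2 : r2 = 0 := Multiset.card_eq_zero.1 hra.2
      subst hr2
      constructor
      · rw [lab_cons, Multiset.card_add, h1]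
        simp only [add_zero]
        rw [hra.1, add_comm]
      · rw [edg_cons, lab_cons, h2]
        simp only [add_zero, dif_zero, Multiset.map_add]

theorem exists_fam {ι : Type*} [DecidableEq ι] (bk : ι → ℕ × ℕ) (s : Finset ι) :
    ∀ R : Multiset RB, R.map shp = ∑ i ∈ s, piece (bk i) →
      ∃ r : ι → RB, (∀ i ∈ s, shp (r i) = bk i) ∧ lab R = ∑ i ∈ s, ((r i).1 + (r i).2) ∧
        edg R = ∑ i ∈ s, ((r i).1.map (fun p => |p|) + dif (r i).1 (r i).2) := by
  induction s using Finset.induction_on with
  | empty =>
      intro R hR
      rw [Finset.sum_empty, Multiset.map_eq_zero] at hR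
      subst hR
      exact ⟨fun _ => (0, 0), by simp, by simp [lab], by simp [edg]⟩
  | insert a s ha ih =>
      intro R hR
      rw [Finset.sum_insert ha] at hR
      obtain ⟨R1, R2, rfl, h1, h2⟩ := exists_split hR
      obtain ⟨r, h3, h4, h5⟩ := ih R2 h2
      obtain ⟨ra, h6, h7, h8⟩ : ∃ ra : RB, shp ra = bk a ∧ lab R1 = ra.1 + ra.2 ∧
          edg R1 = ra.1.map (fun p => |p|) + dif ra.1 ra.2 := by
        unfold piece at h1
        split_ifs at h1 with h
        · obtain ⟨h9, h10⟩ := pendants h1
          refine ⟨(lab R1, 0), ?_, by simp, by simp [h10, dif_zero]⟩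
          simp only [shp, Multiset.card_zero]
          rw [h9]
          exact Prod.ext rfl h.symm
        · rw [Multiset.map_eq_singleton] at h1
          obtain ⟨ra, rfl, h9⟩ := h1
          exact ⟨ra, h9, by simp [lab], by simp [edg]⟩
      refine ⟨Function.update r a ra, ?_, ?_, ?_⟩
      · intro i hi
        rcases Finset.mem_insert.1 hi with hi' | hi'
        · rw [hi', Function.update_self]; exact h6
        · have hne : i ≠ a := by
            intro h
            rw [h] at hi'
            exact ha hi'
          rw [Function.update_of_ne hne]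
          exact h3 i hi'
      · rw [lab_add, Finset.sum_insert ha, Function.update_self, h4, h7]
        congr 1
        apply Finset.sum_congr rfl
        intro i hi
        rw [Function.update_of_ne]
        rintro rfl
        exact ha hi
      · rw [edg_add, Finset.sum_insert ha, Function.update_self, h5, h8]
        congr 1
        apply Finset.sum_congr rfl
        intro i hi
        rw [Function.update_of_ne]
        rintro rfl
        exact ha hi

theorem sum_pieces {ι : Type*} [DecidableEq ι] (bk : ι → ℕ × ℕ) (s : Finset ι) :
    ∑ i ∈ s, piece (bk i) = ((s.filter (fun i => (bk i).2 ≠ 0)).val.map bk) +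
      Multiset.replicate (∑ i ∈ s.filter (fun i => (bk i).2 = 0), (bk i).1) (1, 0) := by
  induction s using Finset.induction_on with
  | empty => simp
  | insert a s ha ih =>
      rw [Finset.sum_insert ha, ih]
      have ha1 : a ∉ s.filter (fun i => (bk i).2 ≠ 0) := fun h => ha (Finset.mem_filter.1 h).1
      have ha2 : a ∉ s.filter (fun i => (bk i).2 = 0) := fun h => ha (Finset.mem_filter.1 h).1
      unfold piece
      split_ifs with h
      · rw [Finset.filter_insert, if_neg (by simpa using h), Finset.filter_insert, if_pos h,
          Finset.sum_insert ha2, Multiset.replicate_add]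
        abel
      · rw [Finset.filter_insert, if_pos h, Finset.filter_insert, if_neg h,
          Finset.insert_val_of_notMem ha1, Multiset.map_cons, ← Multiset.singleton_add]
        abel

theorem sum_singleton_map {α : Type*} (S : Finset α) (f : α → ℤ) :
    ∑ a ∈ S, ({f a} : Multiset ℤ) = S.val.map f := by
  rw [Finset.sum]
  have : (S.val.map (fun a => ({f a} : Multiset ℤ))) =
      ((S.val.map f).map (fun a => ({a} : Multiset ℤ))) := by
    rw [Multiset.map_map]
    rfl
  rw [this, Multiset.sum_map_singleton]

theorem map_sigma {ι : Type*} {V : ι → Type*} (s : Finset ι) (t : ∀ i, Finset (V i))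
    (f : (Σ i, V i) → ℤ) :
    (s.sigma t).val.map f = ∑ i ∈ s, (t i).val.map (fun x => f ⟨i, x⟩) := by
  rw [← sum_singleton_map, Finset.sum_sigma]
  apply Finset.sum_congr rfl
  intro i _
  rw [sum_singleton_map]

theorem dif_eq {α : Type*} (s t : Finset α) (g : α → ℤ) :
    dif (s.val.map g) (t.val.map g) =
      (s ×ˢ t).val.map (fun p => |g p.1 - g p.2|) := by
  rw [← sum_singleton_map (s ×ˢ t), Finset.sum_product_right]
  unfold dif
  rw [Multiset.map_map]
  rw [Finset.sum]
  congr 1
  apply Multiset.map_congr rfl
  intro x _
  simp only [Function.comp_apply, Multiset.map_map]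
  rw [sum_singleton_map]

end Pool.Agent.Lib.MP_404fd0_co
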