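import Mathlib
import Pool.Agent.Lib.MP_404fd0_co.Graph

namespace Pool.Agent.Lib.MP_404fd0_co

theorem graceful_of {ι : Type*} [Fintype ι] {V : ι → Type*} [∀ i, Fintype (V i)]
    (H : ∀ i, SimpleGraph (V i)) (v : ∀ i, V i) (own opp : ∀ i, Finset (V i))
    (hadj : ∀ i x y, (H i).Adj x y ↔ (x ∈ opp i ∧ y ∈ own i) ∨ (x ∈ own i ∧ y ∈ opp i))
    (hdisj : ∀ i x, x ∈ own i → x ∉ opp i)
    (hcov : ∀ i x, x ∈ own i ∨ x ∈ opp i)
    (hv : ∀ i, v i ∈ own i) (hopp : ∀ i, 1 ≤ (opp i).card)
    (hinj : ∀ i j, i ≠ j → ¬ ((opp i).card = (opp j).card ∧ (own i).card = (own j).card)) :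
    Graceful (onePointUnion H v) := by
  classical
  -- the blocks
  obtain ⟨bk, hbk⟩ : ∃ bk : ι → ℕ × ℕ, ∀ i, bk i = ((opp i).card, (own i).card - 1) :=
    ⟨_, fun _ => rfl⟩
  have hown : ∀ i, 1 ≤ (own i).card := fun i => Finset.card_pos.2 ⟨v i, hv i⟩
  have hbkinj : Function.Injective bk := by
    intro i j hij
    by_contra hne
    apply hinj i j hne
    rw [hbk, hbk, Prod.mk.injEq] at hij
    have := hown i
    have := hown j
    exact ⟨hij.1, by omega⟩
  have hmain := main_blocks (G := ((Finset.univ.filter (fun i => (bk i).2 ≠ 0)).val.map bk))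
    ((Finset.nodup _).map hbkinj) (by
      intro x hx
      obtain ⟨i, hi, rfl⟩ := Multiset.mem_map.1 hx
      rw [Finset.mem_val, Finset.mem_filter] at hi
      refine ⟨?_, by omega⟩
      rw [hbk]
      exact hopp i) (∑ i ∈ Finset.univ.filter (fun i => (bk i).2 = 0), (bk i).1)
  rw [← sum_pieces] at hmain
  obtain ⟨R, μ, u, q, hR, hC, hcl⟩ := hmain
  obtain ⟨r, hr1, hr2, hr3⟩ := exists_fam bk Finset.univ R hR
  obtain ⟨hnd, hbd, hed, hμ, hu, hq⟩ := hC
  rw [hr2] at hnd hbd
  rw [hr3] at hed
  -- the labels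
  have hB : ∀ i, Multiset.card (r i).1 = (opp i).card := by
    intro i
    have := hr1 i (Finset.mem_univ i)
    rw [hbk] at this
    exact (Prod.mk.inj this).1
  have hL : ∀ i, Multiset.card (r i).2 = ((own i).erase (v i)).card := by
    intro i
    have := hr1 i (Finset.mem_univ i)
    rw [hbk] at this
    rw [Finset.card_erase_of_mem (hv i)]
    exact (Prod.mk.inj this).2
  choose g1 hg1 using fun i => exists_enum (opp i) (r i).1 (hB i)
  choose g2 hg2 using fun i => exists_enum ((own i).erase (v i)) (r i).2 (hL i)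
  obtain ⟨g, hg⟩ : ∃ g : ∀ i, V i → ℤ, ∀ i x, g i x =
      if x = v i then 0 else if x ∈ opp i then g1 i x else g2 i x := ⟨_, fun _ _ => rfl⟩
  have hg0 : ∀ i, g i (v i) = 0 := fun i => by rw [hg, if_pos rfl]
  have hgo : ∀ i, (opp i).val.map (g i) = (r i).1 := by
    intro i
    rw [← hg1 i]
    apply Multiset.map_congr rfl
    intro x hx
    have hx' : x ∈ opp i := hx
    rw [hg, if_neg, if_pos hx']
    rintro rfl
    exact hdisj i _ (hv i) hx'
  have hgl : ∀ i, ((own i).erase (v i)).val.map (g i) = (r i).2 := by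
    intro i
    rw [← hg2 i]
    apply Multiset.map_congr rfl
    intro x hx
    have hx' : x ∈ (own i).erase (v i) := hx
    rw [Finset.mem_erase] at hx'
    rw [hg, if_neg hx'.1, if_neg (hdisj i x hx'.2)]
  -- all vertices but the common point
  have hT : (Finset.univ.sigma (fun i => Finset.univ.erase (v i))).val.map
      (fun p : Σ i, V i => g p.1 p.2) = ∑ i, ((r i).1 + (r i).2) := by
    rw [map_sigma]
    apply Finset.sum_congr rfl
    intro i _
    have h1 : Finset.univ.erase (v i) = opp i ∪ (own i).erase (v i) := by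
      ext x
      simp only [Finset.mem_erase, Finset.mem_univ, and_true, Finset.mem_union]
      constructor
      · intro hx
        rcases hcov i x with h | h
        · exact Or.inr ⟨hx, h⟩
        · exact Or.inl h
      · rintro (h | h)
        · rintro rfl
          exact hdisj i _ (hv i) h
        · exact h.1
    have h2 : Disjoint (opp i) ((own i).erase (v i)) := by
      rw [Finset.disjoint_left]
      intro x hx hx'
      exact hdisj i x (Finset.mem_erase.1 hx').2 hx
    rw [← sum_singleton_map, h1, Finset.sum_union h2, sum_singleton_map, sum_singleton_map,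
      hgo, hgl]
  rw [← hT, Multiset.nodup_cons] at hnd
  rw [← hT] at hbd
  obtain ⟨hnd0, hnd1⟩ := hnd
  have hmemT : ∀ (i : ι) (x : V i), x ≠ v i →
      (⟨i, x⟩ : Σ i, V i) ∈ (Finset.univ.sigma (fun i => Finset.univ.erase (v i))).val := by
    intro i x hx
    rw [Finset.mem_val, Finset.mem_sigma, Finset.mem_erase]
    exact ⟨Finset.mem_univ _, hx, Finset.mem_univ _⟩
  obtain ⟨Fz, hFz0, hFz1⟩ : ∃ Fz : Option (Σ j, {y : V j // y ≠ v j}) → ℤ,
      Fz none = 0 ∧ ∀ i (x : {y : V i // y ≠ v i}), Fz (some ⟨i, x⟩) = g i x.1 :=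
    ⟨fun a => match a with
      | none => 0
      | some p => g p.1 p.2.1, rfl, fun _ _ => rfl⟩
  have hFg : ∀ i x, Fz (glue v i x) = g i x := by
    intro i x
    by_cases hx : x = v i
    · rw [glue_eq_none.2 hx, hFz0, hx, hg0]
    · unfold glue
      rw [dif_neg hx, hFz1]
  have hFz_ne : ∀ i (x : {y : V i // y ≠ v i}), Fz (some ⟨i, x⟩) ≠ 0 := by
    intro i x h0
    apply hnd0
    rw [hFz1] at h0
    rw [Multiset.mem_map]
    exact ⟨⟨i, x.1⟩, hmemT i x.1 x.2, h0⟩
  have hFinj : Function.Injective Fz := by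
    intro a b hab
    rcases a with _ | ⟨i, x⟩
    · rcases b with _ | ⟨j, y⟩
      · rfl
      · rw [hFz0] at hab
        exact absurd hab.symm (hFz_ne j y)
    · rcases b with _ | ⟨j, y⟩
      · rw [hFz0] at hab
        exact absurd hab (hFz_ne i x)
      · rw [hFz1, hFz1] at hab
        have h1 := Multiset.inj_on_of_nodup_map hnd1 _ (hmemT i x.1 x.2) _
          (hmemT j y.1 y.2) hab
        obtain ⟨x, hx⟩ := x
        obtain ⟨y, hy⟩ := y
        simp only at h1
        obtain ⟨rfl, h2⟩ := Sigma.mk.inj_iff.1 h1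
        have h3 := eq_of_heq h2
        subst h3
        rfl
  have hFbd : ∀ a, -μ ≤ Fz a ∧ Fz a ≤ u := by
    intro a
    rcases a with _ | ⟨i, x⟩
    · rw [hFz0]
      exact ⟨by linarith, hu⟩
    · rw [hFz1]
      apply hbd
      rw [Multiset.mem_map]
      exact ⟨⟨i, x.1⟩, hmemT i x.1 x.2, rfl⟩
  -- the edges
  obtain ⟨E, hE⟩ : ∃ E : Finset (Σ i, V i × V i),
      E = Finset.univ.sigma (fun i => opp i ×ˢ own i) := ⟨_, rfl⟩
  have hEmap : E.val.map (fun e => |g e.1 e.2.1 - g e.1 e.2.2|) = (Finset.Ioc 0 q).val := by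
    rw [hE, map_sigma, ← hed]
    apply Finset.sum_congr rfl
    intro i _
    simp only
    rw [← dif_eq]
    have h1 : (own i).val.map (g i) = 0 ::ₘ (r i).2 := by
      rw [← hgl i, ← hg0 i, ← Multiset.map_cons]
      congr 1
      have h2 : own i = insert (v i) ((own i).erase (v i)) :=
        (Finset.insert_erase (hv i)).symm
      conv_lhs => rw [h2]
      rw [Finset.insert_val_of_notMem (Finset.notMem_erase _ _)]
    rw [h1, dif_cons, hgo]
    simp only [sub_zero]
  have hEnd : (E.val.map (fun e => |g e.1 e.2.1 - g e.1 e.2.2|)).Nodup := by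
    rw [hEmap]
    exact Finset.nodup _
  have hEcard : (E.card : ℤ) = q := by
    have h1 : Multiset.card (E.val.map (fun e => |g e.1 e.2.1 - g e.1 e.2.2|)) =
        (Finset.Ioc 0 q).card := by rw [hEmap]; rfl
    rw [Multiset.card_map, Int.card_Ioc, Finset.card_val] at h1
    rw [h1, sub_zero, Int.toNat_of_nonneg (by linarith)]
  have hEadj : ∀ e ∈ E, (onePointUnion H v).Adj (glue v e.1 e.2.1) (glue v e.1 e.2.2) := by
    rintro ⟨i, x, y⟩ he
    rw [hE, Finset.mem_sigma, Finset.mem_product] at he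
    exact ⟨i, x, y, (hadj i x y).2 (Or.inl he.2), rfl, rfl⟩
  have hadjE : ∀ a b, (onePointUnion H v).Adj a b → ∃ e ∈ E,
      s(a, b) = s(glue v e.1 e.2.1, glue v e.1 e.2.2) ∧
      |Fz a - Fz b| = |g e.1 e.2.1 - g e.1 e.2.2| := by
    rintro a b ⟨i, x, y, h, rfl, rfl⟩
    rcases (hadj i x y).1 h with h | h
    · refine ⟨⟨i, x, y⟩, ?_, rfl, ?_⟩
      · rw [hE, Finset.mem_sigma, Finset.mem_product]
        exact ⟨Finset.mem_univ _, h⟩
      · rw [hFg, hFg]
    · refine ⟨⟨i, y, x⟩, ?_, Sym2.eq_swap, ?_⟩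
      · rw [hE, Finset.mem_sigma, Finset.mem_product]
        exact ⟨Finset.mem_univ _, h.2, h.1⟩
      · rw [hFg, hFg, abs_sub_comm]
  have hlabel : ∀ a b a' b', s(a, b) = s(a', b') → |Fz a - Fz b| = |Fz a' - Fz b'| := by
    intro a b a' b' h
    rcases Sym2.eq_iff.1 h with ⟨rfl, rfl⟩ | ⟨rfl, rfl⟩
    · rfl
    · exact abs_sub_comm _ _
  have hcardE : E.card ≤ (onePointUnion H v).edgeSet.ncard := by
    have h1 : Set.InjOn (fun e : Σ i, V i × V i => s(glue v e.1 e.2.1, glue v e.1 e.2.2)) E := by
      intro e he e' he' hee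
      have h2 := hlabel _ _ _ _ hee
      rw [hFg, hFg, hFg, hFg] at h2
      exact Multiset.inj_on_of_nodup_map hEnd e he e' he' h2
    rw [← Finset.card_image_of_injOn h1, ← Set.ncard_coe_finset]
    apply Set.ncard_le_ncard
    · intro z hz
      rw [Finset.coe_image] at hz
      obtain ⟨e, he, rfl⟩ := hz
      exact hEadj e he
    · exact Set.toFinite _
  refine ⟨fun a => (Fz a + μ).toNat, ?_, ?_, ?_⟩
  · intro a b hab
    simp only at hab
    have h1 := hFbd a
    have h2 := hFbd b
    apply hFinj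
    have h3 : Fz a + μ = Fz b + μ := by
      rw [← Int.toNat_of_nonneg (by linarith [h1.1] : 0 ≤ Fz a + μ),
        ← Int.toNat_of_nonneg (by linarith [h2.1] : 0 ≤ Fz b + μ), hab]
    linarith
  · intro a
    have h1 := hFbd a
    have h2 : ((Fz a + μ).toNat : ℤ) ≤ E.card := by
      rw [Int.toNat_of_nonneg (by linarith [h1.1]), hEcard]
      linarith [h1.2]
    have h3 : (Fz a + μ).toNat ≤ E.card := by exact_mod_cast h2
    exact h3.trans hcardE
  · intro x y x' y' h1 h2 h3
    simp only at h3
    rw [Int.toNat_of_nonneg (by linarith [(hFbd x).1]),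
      Int.toNat_of_nonneg (by linarith [(hFbd y).1]),
      Int.toNat_of_nonneg (by linarith [(hFbd x').1]),
      Int.toNat_of_nonneg (by linarith [(hFbd y').1])] at h3
    have e1 : Fz x + μ - (Fz y + μ) = Fz x - Fz y := by ring
    have e2 : Fz x' + μ - (Fz y' + μ) = Fz x' - Fz y' := by ring
    rw [e1, e2] at h3
    obtain ⟨e, he, h4, h5⟩ := hadjE x y h1
    obtain ⟨e', he', h4', h5'⟩ := hadjE x' y' h2
    have h6 : e = e' := by
      apply Multiset.inj_on_of_nodup_map hEnd e he e' he'
      rw [← h5, ← h5', h3]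
    rw [h4, h4', h6]

theorem iso_same {a b c d : ℕ} (h1 : a = c) (h2 : b = d) :
    Nonempty (completeBipartiteGraph (Fin a) (Fin b) ≃g
      completeBipartiteGraph (Fin c) (Fin d)) := by
  subst h1
  subst h2
  exact ⟨SimpleGraph.Iso.refl⟩

theorem iso_swap {a b c d : ℕ} (h1 : a = d) (h2 : b = c) :
    Nonempty (completeBipartiteGraph (Fin a) (Fin b) ≃g
      completeBipartiteGraph (Fin c) (Fin d)) := by
  subst h1
  subst h2
  refine ⟨⟨Equiv.sumComm _ _, ?_⟩⟩
  intro x y
  rcases x with x | x
  · rcases y with y | y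
    · simp [completeBipartiteGraph]
    · simp [completeBipartiteGraph]
  · rcases y with y | y
    · simp [completeBipartiteGraph]
    · simp [completeBipartiteGraph]

theorem card_left (a b : ℕ) :
    ((Finset.univ : Finset (Fin a ⊕ Fin b)).filter (fun x => x.isLeft = true)).card = a := by
  have : ((Finset.univ : Finset (Fin a ⊕ Fin b)).filter (fun x => x.isLeft = true)) =
      Finset.univ.map ⟨Sum.inl, Sum.inl_injective⟩ := by
    ext x
    rcases x with x | x
    · simp
    · simp
  rw [this, Finset.card_map]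
  simp

theorem card_right (a b : ℕ) :
    ((Finset.univ : Finset (Fin a ⊕ Fin b)).filter (fun x => x.isLeft = false)).card = b := by
  have : ((Finset.univ : Finset (Fin a ⊕ Fin b)).filter (fun x => x.isLeft = false)) =
      Finset.univ.map ⟨Sum.inr, Sum.inr_injective⟩ := by
    ext x
    rcases x with x | x
    · simp
    · simp
  rw [this, Finset.card_map]
  simp

theorem union_graceful (t : ℕ) (m n : Fin t → ℕ) (hm : ∀ i, 1 ≤ m i) (hn : ∀ i, 1 ≤ n i)
    (hiso : ∀ i j, i ≠ j → IsEmpty (completeBipartiteGraph (Fin (m i)) (Fin (n i)) ≃g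
      completeBipartiteGraph (Fin (m j)) (Fin (n j))))
    (v : ∀ i, Fin (m i) ⊕ Fin (n i)) :
    Graceful (onePointUnion (fun i => completeBipartiteGraph (Fin (m i)) (Fin (n i))) v) := by
  have hcards : ∀ i, ((v i).isLeft = true ∧
      ((Finset.univ.filter (fun x : Fin (m i) ⊕ Fin (n i) => x.isLeft = (v i).isLeft)).card = m i
      ∧ (Finset.univ.filter (fun x : Fin (m i) ⊕ Fin (n i) =>
        x.isLeft = !(v i).isLeft)).card = n i)) ∨
      ((v i).isLeft = false ∧
      ((Finset.univ.filter (fun x : Fin (m i) ⊕ Fin (n i) => x.isLeft = (v i).isLeft)).card = n i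
      ∧ (Finset.univ.filter (fun x : Fin (m i) ⊕ Fin (n i) =>
        x.isLeft = !(v i).isLeft)).card = m i)) := by
    intro i
    cases h : (v i).isLeft
    · right
      refine ⟨rfl, ?_, ?_⟩
      · exact card_right _ _
      · exact card_left _ _
    · left
      refine ⟨rfl, ?_, ?_⟩
      · exact card_left _ _
      · exact card_right _ _
  apply graceful_of _ v
    (fun i => Finset.univ.filter (fun x : Fin (m i) ⊕ Fin (n i) => x.isLeft = (v i).isLeft))
    (fun i => Finset.univ.filter (fun x : Fin (m i) ⊕ Fin (n i) => x.isLeft = !(v i).isLeft))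
  · intro i x y
    simp only [completeBipartiteGraph, Finset.mem_filter, Finset.mem_univ, true_and]
    rcases x with x | x
    · rcases y with y | y
      · cases (v i).isLeft
        · simp
        · simp
      · cases (v i).isLeft
        · simp
        · simp
    · rcases y with y | y
      · cases (v i).isLeft
        · simp
        · simp
      · cases (v i).isLeft
        · simp
        · simp
  · intro i x hx
    simp only [Finset.mem_filter, Finset.mem_univ, true_and] at hx ⊢
    rw [hx]
    cases (v i).isLeft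
    · simp
    · simp
  · intro i x
    simp only [Finset.mem_filter, Finset.mem_univ, true_and]
    cases x.isLeft
    · cases (v i).isLeft
      · simp
      · simp
    · cases (v i).isLeft
      · simp
      · simp
  · intro i
    simp
  · intro i
    rcases hcards i with ⟨_, _, h⟩ | ⟨_, _, h⟩
    · rw [h]; exact hn i
    · rw [h]; exact hm i
  · intro i j hij hcc
    have hno := hiso i j hij
    obtain ⟨h1, h2⟩ := hcc
    rcases hcards i with ⟨_, a1, a2⟩ | ⟨_, a1, a2⟩
    · rcases hcards j with ⟨_, b1, b2⟩ | ⟨_, b1, b2⟩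
      · rw [a2, b2] at h1
        rw [a1, b1] at h2
        exact hno.false (iso_same h2 h1).some
      · rw [a2, b2] at h1
        rw [a1, b1] at h2
        exact hno.false (iso_swap h2 h1).some
    · rcases hcards j with ⟨_, b1, b2⟩ | ⟨_, b1, b2⟩
      · rw [a2, b2] at h1
        rw [a1, b1] at h2
        exact hno.false (iso_swap h1 h2).some
      · rw [a2, b2] at h1
        rw [a1, b1] at h2
        exact hno.false (iso_same h1 h2).some

end Pool.Agent.Lib.MP_404fd0_co
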